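import Pool.Agent.H342_Full.Tele
import Pool.Agent.H776R2.Om.Lower

/-!
Counting elements.
-/

set_option autoImplicit false

namespace Pool.Agent.H342_Full

open Pool.Agent.Results.MP_03d093_al.SphereBall Pool.Agent.H776R2.Grig Pool.Agent.H776R2.Om
open Pool.Agent.H342_Gap

theorem count_gen {ω : Om} {ι : Type} [Fintype ι] {X : ℝ} (w : ι → List Lt)
    (hw : ∀ i, ((w i).length : ℝ) ≤ X) (hinj : ∀ i j, evo ω (w i) = evo ω (w j) → i = j) :
    Fintype.card ι ≤ ballO ω ⌊X⌋₊ := by
  let Φ : ι → {g : Gom ω // lenO ω g ≤ ⌊X⌋₊} :=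
    fun i => ⟨evG ω (w i), (lenO_le ω (w i)).trans (Nat.le_floor (hw i))⟩
  have hi : Function.Injective Φ := by
    intro i j hij
    apply hinj
    have h2 : evG ω (w i) = evG ω (w j) := congrArg Subtype.val hij
    exact congrArg Subtype.val h2
  have h5 := Nat.card_le_card_of_injective Φ hi
  rw [Nat.card_eq_fintype_card] at h5
  exact h5

theorem count_Ex {ω : Om} {m : ℕ} {s : P} {B : ℝ} (hs : s ≠ 1) (h : Ex ω m s B) :
    2 ^ (2 ^ m) ≤ ballO ω ⌊B⌋₊ := by
  choose w hw hsw using fun f : List.Vector Bool m → Bool => h (L_ext f)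
  have := count_gen w hw (by
    intro f f' he
    funext v
    have h1 := hsw f
    rw [he] at h1
    have h2 := secAt_unique h1 (hsw f') v.1 v.2
    simp only [L_ext_apply] at h2
    rcases Bool.eq_false_or_eq_true (f v) with ha | ha <;>
      rcases Bool.eq_false_or_eq_true (f' v) with hb | hb <;> simp_all)
  have h6 : Fintype.card (List.Vector Bool m → Bool) = 2 ^ 2 ^ m := by
    rw [Fintype.card_fun, card_vector, Fintype.card_bool]
  rwa [h6] at this

theorem count_run {ω : Om} {m L : ℕ} {x κ : V} {B K : ℝ} (hL : 3 ≤ L)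
    (hκ : ∀ i < L, kil (ω (m + i)) = κ) (hx : x ≠ κ) (hne : xx (shi (m + L) ω) κ ≠ 1)
    (hE : Ex ω m (Pl (shi m ω) x κ 0 * Pl (shi m ω) x κ 4) B)
    (hT : Tw ω m (Tz (shi m ω) x ^ (2 : ℤ)) K) {n : ℕ} (hn : n ≤ 2 ^ (L - 2)) :
    2 ^ (2 ^ m * n) ≤ ballO ω ⌊((n : ℝ) + 1) * (B + 2 * K)⌋₊ := by
  have hκ' : ∀ i < L, kil ((shi m ω) i) = κ := by
    intro i hi
    simp only [shi]
    rw [add_comm i m]
    exact hκ i hi
  have h4n : (4 : ℤ) * n ≤ 2 ^ L := by
    have h1 : (n : ℤ) ≤ 2 ^ (L - 2) := by exact_mod_cast hn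
    have h2 : (2 : ℤ) ^ L = 4 * 2 ^ (L - 2) := by
      have : L = (L - 2) + 2 := by omega
      conv_lhs => rw [this, pow_add]
      ring
    omega
  have h8 : (8 : ℤ) ≤ 2 ^ L := by
    calc (8 : ℤ) = 2 ^ 3 := by norm_num
      _ ≤ 2 ^ L := pow_le_pow_right₀ (by norm_num) hL
  choose w ps hw hs hp using fun f : List.Vector Bool m → Fin n → Bool =>
    pass hE hT false n (fun v k => if hv : v.length = m then
      (if hk : (k - (if zp v = false then (0 : ℤ) else -(n : ℤ))).toNat < n then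
        f ⟨v, hv⟩ ⟨_, hk⟩ else false) else false)
  have := count_gen w hw (by
    intro f f' he
    funext v i
    obtain ⟨lo, hlo⟩ : ∃ lo : ℤ, lo = (if zp v.1 = false then (0 : ℤ) else -(n : ℤ)) := ⟨_, rfl⟩
    have hi := i.2
    have hlo' : lo = 0 ∨ lo = -(n : ℤ) := by
      rw [hlo]
      split_ifs <;> simp
    have hsec : ∀ g : List.Vector Bool m → Fin n → Bool, ∀ F, SecAt L F
        (LP (shi m ω) x κ (ps g v.1)) → ∀ u : List Bool, u.length = L → fu u 0 = 2 * (lo + i) →
        F u = if g v i then xx (shi (m + L) ω) κ else 1 := by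
      intro g F hF u hu hfu
      obtain ⟨a1, a2, a3⟩ := hp g v.1 lo hlo
      obtain ⟨F', hF', hF''⟩ := LP_sec (L := L) hκ' hx (ps g v.1)
      have h1 := hF'' u hu (by
        intro p hpp
        have := a3 p hpp
        rw [hfu, abs_lt]
        omega)
      rw [secAt_unique hF hF' u hu, h1, hfu, a1 (lo + i) (by omega) (by omega), shi_shi]
      have h2 : (lo + (i : ℤ) - (if zp v.1 = false then (0 : ℤ) else -(n : ℤ))).toNat = i := by
        rw [← hlo]
        omega
      have h3 : (lo + (i : ℤ) - (if zp v.1 = false then (0 : ℤ) else -(n : ℤ))).toNat < n := by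
        rw [h2]
        exact hi
      rw [dif_pos v.2, dif_pos h3]
      have h4 : (⟨_, h3⟩ : Fin n) = i := Fin.ext h2
      rw [h4]
      rfl
    obtain ⟨u, hu, hfu⟩ := fu_surj L (2 * (lo + i)) (by omega) (by omega)
    have h1 := hs f
    rw [he] at h1
    have h2 := secAt_unique h1 (hs f') v.1 v.2
    obtain ⟨F, hF, -⟩ := LP_sec (L := L) hκ' hx (ps f v.1)
    have k1 := hsec f F hF u hu hfu
    rw [h2] at hF
    have k2 := hsec f' F hF u hu hfu
    rw [k1] at k2
    rcases Bool.eq_false_or_eq_true (f v i) with ha | ha <;>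
      rcases Bool.eq_false_or_eq_true (f' v i) with hb | hb <;> simp_all)
  have h6 : Fintype.card (List.Vector Bool m → Fin n → Bool) = 2 ^ (2 ^ m * n) := by
    rw [Fintype.card_fun, Fintype.card_fun, card_vector, Fintype.card_bool, Fintype.card_fin,
      ← pow_mul, mul_comm]
  rwa [h6] at this

end Pool.Agent.H342_Full
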