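import Pool.Agent.H342_Full.Net
import Pool.Agent.H342_Gap.GrigFin

/-!
The lower bound for the growth of `G_ω` for all sequences `ω` which are not eventually constant.
-/

set_option autoImplicit false

namespace Pool.Agent.H342_Full

open Pool.Agent.Results.MP_03d093_al.SphereBall Pool.Agent.H776R2.Grig Pool.Agent.H776R2.Om
open Pool.Agent.H342_Gap

theorem init (ω : Om) (m n : ℕ) (hm : 1 ≤ m) (g : P)
    (hg : JC (shi m ω) (kil (ω (m - 1))) g n) : ∃ B : ℝ, Ex ω m g B := by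
  obtain ⟨N, hN⟩ := Jfun (m - 1) n
  refine ⟨2 * ((36 * N + 15) * lam ^ 1), ?_⟩
  intro q
  have e : 1 + (m - 1) = m := by omega
  have hg' : JC (shi (1 + (m - 1)) ω) (kil (ω (1 + (m - 1) - 1))) g n := by
    rw [e]
    exact hg
  obtain ⟨g0, h0, s0⟩ := hN ω 1 le_rfl g hg' (fun u => q (false :: u))
  obtain ⟨g1, h1, s1⟩ := hN ω 1 le_rfl g hg' (fun u => q (true :: u))
  obtain ⟨w0, hw0, hs0⟩ := half_of_JC le_rfl h0 true
  obtain ⟨w1, hw1, hs1⟩ := half_of_JC le_rfl h1 false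
  refine ⟨w0 ++ w1, ?_, ?_⟩
  · rw [List.length_append]
    push_cast
    linarith
  · rw [evo_append]
    have h2 := secAt_comp (k := m - 1) (H := fun v u => if q (v ++ u) then g else 1)
      (secAt_mul hs0 hs1) (by
        intro v hv
        obtain ⟨y, rfl⟩ := List.length_eq_one_iff.1 hv
        cases y
        · have : zp [false] = true := rfl
          simpa [this] using s0
        · have : zp [true] = false := rfl
          simpa [this] using s1)
    rw [e] at h2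
    refine secAt_congr h2 ?_
    intro u _
    simp only [List.take_append_drop]

theorem NS_count {ω : Om} (hω : NEC ω) {A : ℝ} {m : ℕ} (h : NS ω A m) :
    2 ^ (2 ^ m) ≤ ballO ω ⌊A * lam ^ m⌋₊ := by
  rcases h with ⟨h1, h2⟩ | ⟨h1, s, h2, h3⟩
  · refine count_Ex ?_ h2
    refine lamp_ne_one hω (L := 20) (by norm_num) ?_ ?_
    · intro i hi
      rw [h1.const i (by omega)]
    · intro he
      exact h1.1.2 (kil_inj he)
  · refine count_Ex ?_ h3
    rintro rfl
    exact h2 (List.replicate 62 false) (by simp) rfl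

theorem cover_near {ω : Om} {A A' : ℝ} (hA : 0 ≤ A) (hA' : A * lam ^ 128 ≤ A') {k m : ℕ}
    (hk : k ≤ m) (hm : m ≤ k + 128) (h : 2 ^ (2 ^ m) ≤ ballO ω ⌊A * lam ^ m⌋₊) :
    2 ^ (2 ^ k) ≤ ballO ω ⌊A' * lam ^ k⌋₊ := by
  have h1 : 2 ^ (2 ^ k) ≤ 2 ^ (2 ^ m) :=
    Nat.pow_le_pow_right (by norm_num) (Nat.pow_le_pow_right (by norm_num) hk)
  refine (h1.trans h).trans (ballO_mono ω (Nat.floor_le_floor ?_))
  have h2 : lam ^ m ≤ lam ^ (128 + k) := lam_pow_mono (by omega)
  have h3 := lam_pow_pos k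
  calc A * lam ^ m ≤ A * lam ^ (128 + k) := by gcongr
    _ = (A * lam ^ 128) * lam ^ k := by
      rw [pow_add]
      ring
    _ ≤ A' * lam ^ k := by gcongr

theorem low_all {ω : Om} (hω : NEC ω) :
    ∃ A : ℝ, 0 < A ∧ ∀ k : ℕ, 2 ^ (2 ^ k) ≤ ballO ω ⌊A * lam ^ k⌋₊ := by
  obtain ⟨N, hN⟩ := exists_JR 60 2
  obtain ⟨N1, hN1⟩ := exists_JR 130 (N + 8)
  have hJ : ∀ (m r : ℕ), 1 ≤ m → r ≤ 60 → JR ω m r 2 N := fun m r => hN ω m r
  have hJ' : ∀ (m r : ℕ), 1 ≤ m → r ≤ 130 → JR ω m r (N + 8) N1 := fun m r => hN1 ω m r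
  have hJ1 : ∀ (m : ℕ), 1 ≤ m → JR ω m 1 8 N1 := by
    intro m hm h hh f
    exact hJ' m 1 hm (by norm_num) h (JC_mono hh (by omega)) f
  -- the first level of the net
  obtain ⟨m0, hm0, ht0⟩ : ∃ m0, 1 ≤ m0 ∧ (Lrs ω m0 ∨ Bpt ω m0) := by
    obtain ⟨c, hc1, hc2⟩ := hω.chg 0
    by_cases hex : ∃ j, c ≤ j ∧ j < c + 64 ∧ Lrs ω j
    · obtain ⟨j, h1, h2, h3⟩ := hex
      exact ⟨j, by omega, Or.inl h3⟩
    · push Not at hex
      exact ⟨c, by omega, Or.inr ⟨by omega, ⟨c, le_rfl, by omega, hc2⟩, hex⟩⟩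
  obtain ⟨h, h2, k1, k2, k3⟩ := target hJ ht0
  obtain ⟨B0, hB0⟩ := init ω m0 _ hm0 _ (JC_mul (JC_mul (JC_mul (JC_inv k1) k2) k1) (JC_inv k2))
  set A : ℝ := max B0 (2000 * (N1 : ℝ) + 6000) with hA
  have hA1 : 2000 * (N1 : ℝ) + 6000 ≤ A := le_max_right _ _
  have hN0 : (0 : ℝ) ≤ N1 := by positivity
  have hA0 : 0 < A := by linarith
  have hNS0 : NS ω A m0 := by
    apply k3
    refine Ex_mono hB0 ?_
    have h3 := one_le_lam_pow m0
    calc B0 ≤ A := le_max_left _ _
      _ = A * 1 := (mul_one _).symm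
      _ ≤ A * lam ^ m0 := by gcongr
  -- the final constant
  set A' : ℝ := A * lam ^ 128 + 2 * (A + 26) + A * lam ^ m0 with hA'
  have hA'1 : A * lam ^ 128 ≤ A' := by
    have := lam_pow_pos m0
    have : 0 ≤ A * lam ^ m0 := by positivity
    linarith
  have hA'2 : 2 * (A + 26) ≤ A' := by
    have h1 := lam_pow_pos m0
    have h2 := lam_pow_pos 128
    have : 0 ≤ A * lam ^ m0 := by positivity
    have : 0 ≤ A * lam ^ 128 := by positivity
    linarith
  have hA'3 : A * lam ^ m0 ≤ A' := by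
    have h2 := lam_pow_pos 128
    have : 0 ≤ A * lam ^ 128 := by positivity
    linarith
  have hstep : ∀ m, NS ω A m → ∃ m', m < m' ∧ NS ω A m' ∧
      ∀ k, m ≤ k → k ≤ m' → 2 ^ (2 ^ k) ≤ ballO ω ⌊A' * lam ^ k⌋₊ := by
    intro m hm
    rcases hm with ⟨hL, hE⟩ | ⟨hB, s, hs, hE⟩
    · obtain ⟨m', L, l1, l2, l3, l4, l5⟩ := next_L hω hJ hJ' hJ1 hA1 hL hE
      refine ⟨m', l2, l4, ?_⟩
      intro k hk1 hk2
      by_cases hkL : k ≤ m + L - 2
      · have hκr : ∀ i < L, kil (ω (m + i)) = kil (ω m) := fun i hi => by rw [l5 i hi]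
        have hx : kil (ω (m - 1)) ≠ kil (ω m) := by
          intro he
          exact hL.1.2 (kil_inj he)
        have h1 := count_run (by omega) hκr hx (xx_ne_one hω _ _) hE (tw_T2 ω m _)
          (n := 2 ^ (k - m)) (Nat.pow_le_pow_right (by norm_num) (by omega))
        rw [← pow_add, show m + (k - m) = k by omega] at h1
        refine h1.trans (ballO_mono ω (Nat.floor_le_floor ?_))
        push_cast
        have h3 := lam_pow_pos m
        have h4 : (1 : ℝ) ≤ 2 ^ (k - m) := one_le_pow₀ (by norm_num)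
        have h5 := two_pow_le (k - m)
        have h6 : (0 : ℝ) ≤ (A + 26) * lam ^ m := by positivity
        calc ((2 : ℝ) ^ (k - m) + 1) * (A * lam ^ m + 2 * (13 * lam ^ m)) ≤
            (2 * 2 ^ (k - m)) * ((A + 26) * lam ^ m) := by nlinarith
          _ ≤ (2 * lam ^ (k - m)) * ((A + 26) * lam ^ m) := by gcongr
          _ = 2 * (A + 26) * (lam ^ (k - m) * lam ^ m) := by ring
          _ = 2 * (A + 26) * lam ^ k := by
            rw [← pow_add, show k - m + m = k by omega]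
          _ ≤ A' * lam ^ k := by
            have := lam_pow_pos k
            gcongr
      · exact cover_near hA0.le hA'1 hk2 (by omega) (NS_count hω l4)
    · obtain ⟨m', l1, l2, l3⟩ := next_B hJ hJ' (by linarith) hB hs hE
      refine ⟨m', l1, l3, ?_⟩
      intro k hk1 hk2
      exact cover_near hA0.le hA'1 hk2 (by omega) (NS_count hω l3)
  have hmain : ∀ M : ℕ, ∃ m, M ≤ m ∧ NS ω A m ∧
      ∀ k, m0 ≤ k → k ≤ m → 2 ^ (2 ^ k) ≤ ballO ω ⌊A' * lam ^ k⌋₊ := by
    intro M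
    induction M with
    | zero =>
      refine ⟨m0, by omega, hNS0, ?_⟩
      intro k h1 h2
      exact cover_near hA0.le hA'1 h2 (by omega) (NS_count hω hNS0)
    | succ M ih =>
      obtain ⟨m, h1, h2, h3⟩ := ih
      obtain ⟨m', g1, g2, g3⟩ := hstep m h2
      refine ⟨m', by omega, g2, ?_⟩
      intro k hk1 hk2
      by_cases hk : k ≤ m
      · exact h3 k hk1 hk
      · exact g3 k (by omega) hk2
  refine ⟨A', by linarith, ?_⟩
  intro k
  by_cases hk : m0 ≤ k
  · obtain ⟨m, h1, -, h3⟩ := hmain k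
    exact h3 k hk h1
  · have h1 : 2 ^ (2 ^ k) ≤ 2 ^ (2 ^ m0) :=
      Nat.pow_le_pow_right (by norm_num) (Nat.pow_le_pow_right (by norm_num) (by omega))
    refine (h1.trans (NS_count hω hNS0)).trans (ballO_mono ω (Nat.floor_le_floor ?_))
    have h2 := one_le_lam_pow k
    calc A * lam ^ m0 ≤ A' := hA'3
      _ = A' * 1 := (mul_one _).symm
      _ ≤ A' * lam ^ k := by
        have : 0 ≤ A' := by linarith
        gcongr

/-- **the growth of `G_ω` is at least `exp(n^α)` for every `ω` that is not eventually constant** -/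
theorem lower_NEC {ω : Om} (h : NEC ω) : H342_Gap.Dom (expF alpha) (gro (SO ω)) := by
  have hm : Monotone (ballO ω) := fun _ _ h => ballO_mono ω h
  have := lower_of (ballO ω) hm (ballO_zero ω).ge (low_all h)
  have e : gro (SO ω) = ballO ω := funext (gro_SO ω)
  rw [e]
  exact this

end Pool.Agent.H342_Full
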