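import Pool.Agent.H342_Full.TwLift

/-!
Products of an even number of conjugates of a generator, with lengths.
-/

set_option autoImplicit false

namespace Pool.Agent.H342_Full

open Pool.Agent.Results.MP_03d093_al.SphereBall Pool.Agent.H776R2.Grig Pool.Agent.H776R2.Om
open Pool.Agent.H342_Gap

/-- product of two conjugates of `x` -/
def jpair (η : Om) (x : V) (p : List Lt × List Lt) : P :=
  evo η p.1 * xx η x * (evo η p.1)⁻¹ * (evo η p.2 * xx η x * (evo η p.2)⁻¹)

def jval (η : Om) (x : V) (L : List (List Lt × List Lt)) : P := (L.map (jpair η x)).prod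

def jsz (L : List (List Lt × List Lt)) : ℕ := (L.map fun p => p.1.length + p.2.length + 1).sum

/-- `g` is a product of an even number of conjugates of `x`, of total length at most `n` -/
def JC (η : Om) (x : V) (g : P) (n : ℕ) : Prop := ∃ L, jval η x L = g ∧ jsz L ≤ n

theorem jval_nil (η : Om) (x : V) : jval η x [] = 1 := rfl
theorem jval_cons (η : Om) (x : V) (p : List Lt × List Lt) (L : List (List Lt × List Lt)) :
    jval η x (p :: L) = jpair η x p * jval η x L := by simp [jval]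
theorem jval_append (η : Om) (x : V) (L L' : List (List Lt × List Lt)) :
    jval η x (L ++ L') = jval η x L * jval η x L' := by simp [jval]
theorem jsz_nil : jsz [] = 0 := rfl
theorem jsz_cons (p : List Lt × List Lt) (L : List (List Lt × List Lt)) :
    jsz (p :: L) = p.1.length + p.2.length + 1 + jsz L := by simp [jsz]
theorem jsz_append (L L' : List (List Lt × List Lt)) : jsz (L ++ L') = jsz L + jsz L' := by
  simp [jsz]

theorem JC_mono {η : Om} {x : V} {g : P} {n n' : ℕ} (h : JC η x g n) (hn : n ≤ n') :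
    JC η x g n' := by
  obtain ⟨L, h1, h2⟩ := h
  exact ⟨L, h1, h2.trans hn⟩

theorem JC_one (η : Om) (x : V) (n : ℕ) : JC η x 1 n := ⟨[], rfl, by simp [jsz]⟩

theorem JC_pair (η : Om) (x : V) (u v : List Lt) :
    JC η x (evo η u * xx η x * (evo η u)⁻¹ * (evo η v * xx η x * (evo η v)⁻¹))
      (u.length + v.length + 1) := by
  refine ⟨[(u, v)], ?_, ?_⟩
  · simp [jval, jpair]
  · simp [jsz]

theorem JC_mul {η : Om} {x : V} {g h : P} {n k : ℕ} (hg : JC η x g n) (hh : JC η x h k) :
    JC η x (g * h) (n + k) := by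
  obtain ⟨L, rfl, h2⟩ := hg
  obtain ⟨L', rfl, h2'⟩ := hh
  exact ⟨L ++ L', jval_append _ _ _ _, by rw [jsz_append]; omega⟩

theorem jpair_inv (η : Om) (x : V) (p : List Lt × List Lt) :
    (jpair η x p)⁻¹ = jpair η x (p.2, p.1) := by
  unfold jpair
  simp only [mul_inv_rev, inv_inv, J_xx_inv, mul_assoc]

theorem JC_inv {η : Om} {x : V} {g : P} {n : ℕ} (hg : JC η x g n) : JC η x g⁻¹ n := by
  obtain ⟨L, rfl, h2⟩ := hg
  refine ⟨(L.map fun p => (p.2, p.1)).reverse, ?_, ?_⟩
  · induction L with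
    | nil => simp [jval]
    | cons p L ih =>
      have e : (jval η x (p :: L))⁻¹ = (jval η x L)⁻¹ * jpair η x (p.2, p.1) := by
        rw [jval_cons, mul_inv_rev, jpair_inv]
      rw [List.map_cons, List.reverse_cons, jval_append, ih (by rw [jsz_cons] at h2; omega), e]
      simp [jval]
  · refine le_trans (le_of_eq ?_) h2
    unfold jsz
    rw [List.map_reverse, List.sum_reverse, List.map_map]
    congr 1
    apply List.map_congr_left
    intro p _
    simp only [Function.comp]
    omega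

theorem JC_conj {η : Om} {x : V} {g : P} {n : ℕ} (w : List Lt) (hg : JC η x g n) :
    JC η x (evo η w * g * (evo η w)⁻¹) (n * (1 + 2 * w.length)) := by
  obtain ⟨L, rfl, h2⟩ := hg
  refine ⟨L.map fun p => (w ++ p.1, w ++ p.2), ?_, ?_⟩
  · clear h2
    induction L with
    | nil => simp [jval]
    | cons p L ih =>
      rw [List.map_cons, jval_cons, ih, jval_cons]
      unfold jpair
      simp only [evo_append]
      group
  · refine le_trans ?_ (Nat.mul_le_mul_right _ h2)
    clear h2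
    induction L with
    | nil => simp [jsz]
    | cons p L ih =>
      rw [List.map_cons, jsz_cons, jsz_cons]
      simp only [List.length_append]
      nlinarith

/-- a word with first section `u` -/
def lw1 (y : V) : Lt → List Lt
  | .A => [y.lt]
  | s => [.A, s, .A]

def lw (y : V) (u : List Lt) : List Lt := u.flatMap (lw1 y)

theorem lw_cons (y : V) (s : Lt) (u : List Lt) : lw y (s :: u) = lw1 y s ++ lw y u := by
  simp [lw]

theorem lw1_len (y : V) (s : Lt) : (lw1 y s).length ≤ 3 := by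
  cases s <;> simp [lw1]

theorem lw_len (y : V) (u : List Lt) : (lw y u).length ≤ 3 * u.length := by
  induction u with
  | nil => simp [lw]
  | cons s u ih =>
    rw [lw_cons, List.length_append, List.length_cons]
    have := lw1_len y s
    omega

theorem lw1_sec (η : Om) {y : V} (hy : y ≠ kil (η 0)) (s : Lt) :
    ∃ u', Sec (evo η (lw1 y s)) (gno (sh η) s) u' := by
  have hx : ∀ x : V, ∃ u', Sec (evo η [Lt.A, x.lt, Lt.A]) (xx (sh η) x) u' := by
    intro x
    have e : evo η [Lt.A, x.lt, Lt.A] = a * xx η x * a := by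
      rw [evo_cons, evo_cons, evo_cons, evo_nil, gno_lt, mul_one, ← mul_assoc]
      rfl
    rw [e]
    exact ⟨_, (sec_xx η x).conj⟩
  cases s
  · have hs := sec_xx η y
    rw [if_neg hy] at hs
    have e : evo η (lw1 y .A) = xx η y := by
      simp only [lw1]
      rw [evo_cons, evo_nil, mul_one, gno_lt]
    rw [e]
    exact ⟨_, hs⟩
  · exact hx .b
  · exact hx .c
  · exact hx .d

theorem lw_sec (η : Om) {y : V} (hy : y ≠ kil (η 0)) (u : List Lt) :
    ∃ u', Sec (evo η (lw y u)) (evo (sh η) u) u' := by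
  induction u with
  | nil => exact ⟨1, Sec.one⟩
  | cons s u ih =>
    obtain ⟨u', h⟩ := ih
    obtain ⟨s', h'⟩ := lw1_sec η hy s
    refine ⟨s' * u', ?_⟩
    rw [lw_cons, evo_append, evo_cons]
    exact h'.mul h

/-- the conjugate of the killed generator -/
def jx (η : Om) : P := a * xx η (kil (η 0)) * a

theorem jx_evo (η : Om) : jx η = evo η [Lt.A, (kil (η 0)).lt, Lt.A] := by
  rw [evo_cons, evo_cons, evo_cons, evo_nil, gno_lt, mul_one, ← mul_assoc]
  rfl

theorem jx_sec (η : Om) : Sec (jx η) (xx (sh η) (kil (η 0))) 1 := by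
  have h := sec_xx η (kil (η 0))
  rw [if_pos rfl] at h
  exact h.conj

theorem jx_sq (η : Om) : jx η * jx η = 1 := by
  have h : jx η * jx η = a * xx η (kil (η 0)) * (a * a) * xx η (kil (η 0)) * a := by
    unfold jx
    simp only [mul_assoc]
  rw [h, J_a_sq, mul_one, mul_assoc a, xx_sq, mul_one, J_a_sq]

theorem jx_inv (η : Om) : (jx η)⁻¹ = jx η := inv_eq_of_mul_eq_one_left (jx_sq η)

theorem exists_ne (x : V) : ∃ y : V, y ≠ x := by
  cases x
  · exact ⟨.c, by decide⟩
  · exact ⟨.b, by decide⟩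
  · exact ⟨.b, by decide⟩

theorem evc_lift (η : Om) (L : List (List Lt × List Lt)) : ∃ W : List Lt, EvC W ∧
    W.length ≤ 6 * jsz L ∧ Sec (evo η W) (jval (sh η) (kil (η 0)) L) 1 := by
  obtain ⟨y, hy⟩ := exists_ne (kil (η 0))
  induction L with
  | nil =>
    refine ⟨[], fun s => by simp, by simp, ?_⟩
    rw [evo_nil, jval_nil]
    exact Sec.one
  | cons p L ih =>
    obtain ⟨W, hW, hl, hs⟩ := ih
    obtain ⟨u', hu'⟩ := lw_sec η hy p.1
    obtain ⟨v', hv'⟩ := lw_sec η hy p.2
    have hul := lw_len y p.1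
    have hvl := lw_len y p.2
    set κ : List Lt := [Lt.A, (kil (η 0)).lt, Lt.A] with hκ
    set W1 : List Lt := lw y p.1 ++ κ ++ (lw y p.1).reverse with hW1
    set W2 : List Lt := lw y p.2 ++ κ ++ (lw y p.2).reverse with hW2
    have e1 : evo η W1 = evo η (lw y p.1) * jx η * (evo η (lw y p.1))⁻¹ := by
      rw [hW1, evo_append, evo_append, evo_reverse, jx_evo]
    have e2 : evo η W2 = evo η (lw y p.2) * jx η * (evo η (lw y p.2))⁻¹ := by
      rw [hW2, evo_append, evo_append, evo_reverse, jx_evo]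
    refine ⟨W1 ++ W2 ++ W, ?_, ?_, ?_⟩
    · intro s
      rw [List.count_append, List.count_append]
      refine Even.add ?_ (hW s)
      simp only [hW1, hW2, List.count_append, List.count_reverse]
      exact ⟨(lw y p.1).count s + (lw y p.2).count s + κ.count s, by omega⟩
    · rw [jsz_cons]
      simp only [hW1, hW2, hκ, List.length_append, List.length_reverse, List.length_cons,
        List.length_nil]
      omega
    · rw [evo_append, evo_append, e1, e2, jval_cons]
      have h1 := (((hu'.mul (jx_sec η)).mul (J_sec_inv hu')).mul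
        ((hv'.mul (jx_sec η)).mul (J_sec_inv hv'))).mul hs
      simp only [mul_one, mul_inv_cancel] at h1
      exact h1

theorem half_of_JC {ω : Om} {m : ℕ} (hm : 1 ≤ m) {g : P} {n : ℕ}
    (h : JC (shi m ω) (kil (ω (m - 1))) g n) : Half ω m g ((36 * n + 15) * lam ^ m) := by
  obtain ⟨k, rfl⟩ : ∃ k, m = k + 1 := ⟨m - 1, by omega⟩
  obtain ⟨L, rfl, hL⟩ := h
  obtain ⟨W, hW, hWl, hs⟩ := evc_lift (shi k ω) L
  have e1 : sh (shi k ω) = shi (k + 1) ω := sh_shi k ω
  have e2 : (shi k ω) 0 = ω k := by simp [shi]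
  rw [e1, e2] at hs
  have e3 : k + 1 - 1 = k := by omega
  rw [e3]
  have h1 := half_of_sec hW hs
  intro π
  obtain ⟨w, hw, hsw⟩ := h1 π
  refine ⟨w, hw.trans ?_, hsw⟩
  have h2 : (W.length : ℝ) ≤ 6 * n := by
    have : W.length ≤ 6 * n := by omega
    exact_mod_cast this
  have h3 := lam_pow_mono (Nat.le_succ k)
  have h4 := lam_pow_pos k
  calc (6 * (W.length : ℝ) + 15) * lam ^ k ≤ (6 * (6 * n) + 15) * lam ^ (k + 1) := by
        gcongr
    _ = (36 * n + 15) * lam ^ (k + 1) := by ring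

/-! The quantitative version of `J_lift`. -/

def cb : ℕ → ℕ
  | 0 => 0
  | n + 1 => 7 * cb n + 4

theorem cb_mono {m n : ℕ} (h : m ≤ n) : cb m ≤ cb n := by
  induction n with
  | zero =>
    have : m = 0 := by omega
    rw [this]
  | succ n ih =>
    rcases Nat.lt_or_ge m (n + 1) with h1 | h1
    · have := ih (by omega)
      simp only [cb]
      omega
    · have : m = n + 1 := by omega
      rw [this]

theorem jclaim1 (θ : Om) : ∃ y : V, y ≠ kil (θ 1) ∧ ∀ s : Lt,
    JC (sh θ) (kil (θ 0)) (evo (sh θ) (lw1 y s) * jx (sh θ) * (evo (sh θ) (lw1 y s))⁻¹ *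
      (jx (sh θ))⁻¹) 4 := by
  have hk : (sh θ) 0 = θ 1 := rfl
  have hx : ∀ (y x : V), JC (sh θ) (kil (θ 0)) (evo (sh θ) [Lt.A, x.lt, Lt.A] * jx (sh θ) *
      (evo (sh θ) [Lt.A, x.lt, Lt.A])⁻¹ * (jx (sh θ))⁻¹) 4 := by
    intro y x
    have e : evo (sh θ) [Lt.A, x.lt, Lt.A] = a * xx (sh θ) x * a := by
      rw [evo_cons, evo_cons, evo_cons, evo_nil, gno_lt, mul_one, ← mul_assoc]
      rfl
    have hc : (a * xx (sh θ) x * a) * jx (sh θ) = jx (sh θ) * (a * xx (sh θ) x * a) := by
      have h1 : (a * xx (sh θ) x * a) * jx (sh θ) =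
          a * (xx (sh θ) x * (a * a) * xx (sh θ) (kil (θ 1))) * a := by
        unfold jx
        rw [hk]
        simp only [mul_assoc]
      have h2 : jx (sh θ) * (a * xx (sh θ) x * a) =
          a * (xx (sh θ) (kil (θ 1)) * (a * a) * xx (sh θ) x) * a := by
        unfold jx
        rw [hk]
        simp only [mul_assoc]
      rw [h1, h2, J_a_sq, mul_one, mul_one, J_xx_comm]
    rw [e, hc, mul_inv_cancel_right, mul_inv_cancel]
    exact JC_one _ _ _
  by_cases h01 : kil (θ 0) = kil (θ 1)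
  · obtain ⟨y, hy⟩ := exists_ne (kil (θ 1))
    refine ⟨y, hy, ?_⟩
    intro s
    cases s
    · have e0 : evo (sh θ) (lw1 y .A) = xx (sh θ) y := by
        simp only [lw1]
        rw [evo_cons, evo_nil, mul_one, gno_lt]
      have e1 : evo (sh θ) [y.lt, Lt.A] = xx (sh θ) y * a := by
        rw [evo_cons, evo_cons, evo_nil, mul_one, gno_lt]
        rfl
      have e2 : evo (sh θ) [Lt.A] = a := by
        rw [evo_cons, evo_nil, mul_one]
        rfl
      have h1 := JC_pair (sh θ) (kil (θ 0)) [y.lt, Lt.A] [Lt.A]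
      have he : evo (sh θ) (lw1 y .A) * jx (sh θ) * (evo (sh θ) (lw1 y .A))⁻¹ * (jx (sh θ))⁻¹ =
          evo (sh θ) [y.lt, Lt.A] * xx (sh θ) (kil (θ 0)) * (evo (sh θ) [y.lt, Lt.A])⁻¹ *
            (evo (sh θ) [Lt.A] * xx (sh θ) (kil (θ 0)) * (evo (sh θ) [Lt.A])⁻¹) := by
        rw [jx_inv, e0, e1, e2, mul_inv_rev, J_a_inv]
        unfold jx
        rw [hk, h01]
        simp only [mul_assoc]
      rw [he]
      exact JC_mono h1 (by simp)
    · exact hx y .b
    · exact hx y .c
    · exact hx y .d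
  · refine ⟨kil (θ 0), h01, ?_⟩
    intro s
    cases s
    · have e0 : evo (sh θ) (lw1 (kil (θ 0)) .A) = xx (sh θ) (kil (θ 0)) := by
        simp only [lw1]
        rw [evo_cons, evo_nil, mul_one, gno_lt]
      have h1 := JC_pair (sh θ) (kil (θ 0)) [] [Lt.A, (kil (θ 1)).lt, Lt.A]
      have e1 : jx (sh θ) = evo (sh θ) [Lt.A, (kil (θ 1)).lt, Lt.A] := by
        rw [jx_evo, hk]
      have he : evo (sh θ) (lw1 (kil (θ 0)) .A) * jx (sh θ) *
          (evo (sh θ) (lw1 (kil (θ 0)) .A))⁻¹ * (jx (sh θ))⁻¹ =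
          evo (sh θ) [] * xx (sh θ) (kil (θ 0)) * (evo (sh θ) [])⁻¹ *
            (evo (sh θ) [Lt.A, (kil (θ 1)).lt, Lt.A] * xx (sh θ) (kil (θ 0)) *
            (evo (sh θ) [Lt.A, (kil (θ 1)).lt, Lt.A])⁻¹) := by
        rw [← e1, e0, J_xx_inv, evo_nil]
        simp only [mul_assoc, one_mul, inv_one, mul_one]
      rw [he]
      exact JC_mono h1 (by simp)
    · exact hx (kil (θ 0)) .b
    · exact hx (kil (θ 0)) .c
    · exact hx (kil (θ 0)) .d

theorem jclaim (θ : Om) : ∃ y : V, y ≠ kil (θ 1) ∧ ∀ u : List Lt,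
    JC (sh θ) (kil (θ 0)) (evo (sh θ) (lw y u) * jx (sh θ) * (evo (sh θ) (lw y u))⁻¹ *
      (jx (sh θ))⁻¹) (cb u.length) := by
  obtain ⟨y, hy, h1⟩ := jclaim1 θ
  refine ⟨y, hy, ?_⟩
  intro u
  induction u with
  | nil =>
    have : evo (sh θ) (lw y []) = 1 := rfl
    rw [this]
    have : (1 : P) * jx (sh θ) * 1⁻¹ * (jx (sh θ))⁻¹ = 1 := by group
    rw [this]
    exact JC_one _ _ _
  | cons s u ih =>
    have he : evo (sh θ) (lw y (s :: u)) * jx (sh θ) * (evo (sh θ) (lw y (s :: u)))⁻¹ *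
        (jx (sh θ))⁻¹ =
        (evo (sh θ) (lw1 y s) * (evo (sh θ) (lw y u) * jx (sh θ) * (evo (sh θ) (lw y u))⁻¹ *
          (jx (sh θ))⁻¹) * (evo (sh θ) (lw1 y s))⁻¹) *
        (evo (sh θ) (lw1 y s) * jx (sh θ) * (evo (sh θ) (lw1 y s))⁻¹ * (jx (sh θ))⁻¹) := by
      rw [lw_cons, evo_append]
      group
    rw [he]
    refine JC_mono (JC_mul (JC_conj (lw1 y s) ih) (h1 s)) ?_
    have := lw1_len y s
    simp only [List.length_cons, cb]
    nlinarith

/-- lift of a product of an even number of conjugates of `x` -/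
theorem JL (θ : Om) (N : ℕ) (L : List (List Lt × List Lt))
    (hN : ∀ p ∈ L, p.1.length + p.2.length + 1 ≤ N) :
    ∃ f, JC (sh θ) (kil (θ 0)) f (L.length * (8 * cb N)) ∧
      Sec f (jval (sh (sh θ)) (kil (θ 1)) L) 1 := by
  obtain ⟨y, hy, hj⟩ := jclaim θ
  have hy' : y ≠ kil ((sh θ) 0) := hy
  induction L with
  | nil =>
    exact ⟨1, JC_one _ _ _, by rw [jval_nil]; exact Sec.one⟩
  | cons p L ih =>
    obtain ⟨f, hf, hs⟩ := ih (fun q hq => hN q (List.mem_cons_of_mem _ hq))
    obtain ⟨u', hu'⟩ := lw_sec (sh θ) hy' p.1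
    obtain ⟨v', hv'⟩ := lw_sec (sh θ) hy' p.2
    have hp := hN p (by simp)
    set l := evo (sh θ) (lw y p.1) with hl
    set k := evo (sh θ) (lw y p.2) with hk
    refine ⟨(l * jx (sh θ) * l⁻¹) * (k * jx (sh θ) * k⁻¹) * f, ?_, ?_⟩
    · have he : (l * jx (sh θ) * l⁻¹) * (k * jx (sh θ) * k⁻¹) * f =
          (l * jx (sh θ) * l⁻¹ * (jx (sh θ))⁻¹) *
          (jx (sh θ) * (k * jx (sh θ) * k⁻¹ * (jx (sh θ))⁻¹) * (jx (sh θ))⁻¹) *
            (jx (sh θ) * jx (sh θ)) * f := by group
      rw [he, jx_sq, mul_one]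
      have h2 := JC_conj [Lt.A, (kil ((sh θ) 0)).lt, Lt.A] (hj p.2)
      rw [← jx_evo] at h2
      refine JC_mono (JC_mul (JC_mul (hj p.1) h2) hf) ?_
      have c1 : cb p.1.length ≤ cb N := cb_mono (by omega)
      have c2 : cb p.2.length ≤ cb N := cb_mono (by omega)
      simp only [List.length_cons, List.length_nil]
      nlinarith
    · have h1 := ((hu'.mul (jx_sec (sh θ))).mul (J_sec_inv hu')).mul
        ((hv'.mul (jx_sec (sh θ))).mul (J_sec_inv hv'))
      rw [mul_one, mul_inv_cancel, mul_one, mul_inv_cancel, mul_one] at h1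
      have h2 := h1.mul hs
      rw [mul_one] at h2
      rw [jval_cons]
      exact h2

theorem JL' (θ : Om) {g : P} {n : ℕ} (h : JC (sh (sh θ)) (kil (θ 1)) g n) :
    ∃ f, JC (sh θ) (kil (θ 0)) f (n * (8 * cb n)) ∧ Sec f g 1 := by
  obtain ⟨L, rfl, hL⟩ := h
  have h1 : ∀ p ∈ L, p.1.length + p.2.length + 1 ≤ n := by
    intro p hp
    refine le_trans ?_ hL
    exact List.single_le_sum (by simp) _ (List.mem_map.2 ⟨p, hp, rfl⟩)
  have h2 : L.length ≤ n := by
    refine le_trans ?_ hL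
    clear h1 hL
    induction L with
    | nil => simp
    | cons p L ih =>
      rw [jsz_cons, List.length_cons]
      omega
  obtain ⟨f, hf, hs⟩ := JL θ n L h1
  exact ⟨f, JC_mono hf (Nat.mul_le_mul_right _ h2), hs⟩

/-- all functions on a level are realised, with a bound that does not depend on `ω` -/
theorem Jfun (ρ : ℕ) : ∀ n : ℕ, ∃ N : ℕ, ∀ (ω : Om) (m : ℕ), 1 ≤ m → ∀ h : P,
    JC (shi (m + ρ) ω) (kil (ω (m + ρ - 1))) h n → ∀ f : List Bool → Bool, ∃ g : P,
    JC (shi m ω) (kil (ω (m - 1))) g N ∧ SecAt ρ (fun u => if f u then h else 1) g := by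
  induction ρ with
  | zero =>
    intro n
    refine ⟨n, ?_⟩
    intro ω m hm h hh f
    by_cases hf : f [] = true
    · refine ⟨h, hh, secAt_congr (secAt_zero h) ?_⟩
      intro u hu
      rw [List.length_eq_zero_iff] at hu
      subst hu
      simp [hf]
    · refine ⟨1, JC_one _ _ _, secAt_congr (secAt_zero 1) ?_⟩
      intro u hu
      rw [List.length_eq_zero_iff] at hu
      subst hu
      simp [hf]
  | succ ρ ih =>
    intro n
    obtain ⟨N, hN⟩ := ih n
    refine ⟨4 * (N * (8 * cb N)), ?_⟩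
    intro ω m hm h hh f
    have e1 : m + (ρ + 1) = m + 1 + ρ := by omega
    rw [e1] at hh
    obtain ⟨g0, hg0, hs0⟩ := hN ω (m + 1) (by omega) h hh (fun u => f (false :: u))
    obtain ⟨g1, hg1, hs1⟩ := hN ω (m + 1) (by omega) h hh (fun u => f (true :: u))
    have t0 : (shi (m - 1) ω) 0 = ω (m - 1) := by simp [shi]
    have t1 : (shi (m - 1) ω) 1 = ω m := by
      simp only [shi]
      congr 1
      omega
    have t2 : sh (shi (m - 1) ω) = shi m ω := by
      rw [sh_shi]
      congr 1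
      omega
    have t3 : sh (shi m ω) = shi (m + 1) ω := sh_shi m ω
    have t4 : m + 1 - 1 = m := by omega
    rw [t4] at hg0 hg1
    have h0' : JC (sh (sh (shi (m - 1) ω))) (kil ((shi (m - 1) ω) 1)) g0 N := by
      rw [t2, t3, t1]
      exact hg0
    have h1' : JC (sh (sh (shi (m - 1) ω))) (kil ((shi (m - 1) ω) 1)) g1 N := by
      rw [t2, t3, t1]
      exact hg1
    obtain ⟨f0, hf0, hs0'⟩ := JL' _ h0'
    obtain ⟨f1, hf1, hs1'⟩ := JL' _ h1'
    rw [t2, t0] at hf0 hf1
    have hc := JC_conj [Lt.A] hf1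
    have ea : evo (shi m ω) [Lt.A] = a := by
      rw [evo_cons, evo_nil, mul_one]
      rfl
    rw [ea, J_a_inv] at hc
    refine ⟨f0 * (a * f1 * a), JC_mono (JC_mul hf0 hc) ?_, ?_⟩
    · simp only [List.length_cons, List.length_nil]
      omega
    · have hsec : Sec (f0 * (a * f1 * a)) (g0 * 1) (1 * g1) := hs0'.mul hs1'.conj
      rw [mul_one, one_mul] at hsec
      refine secAt_congr (secAt_sec hsec hs0 hs1) ?_
      intro u hu
      cases u with
      | nil => simp at hu
      | cons y u => cases y <;> simp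

end Pool.Agent.H342_Full
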