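import Pool.Agent.H342_Full.JC

/-!
Conjugates of the killed generator by powers of `x a` inside a constant run.
-/

set_option autoImplicit false

namespace Pool.Agent.H342_Full

open Pool.Agent.Results.MP_03d093_al.SphereBall Pool.Agent.H776R2.Grig Pool.Agent.H776R2.Om
open Pool.Agent.H342_Gap

/-- the translation `x a` -/
def Tz (η : Om) (x : V) : P := xx η x * a

/-- the lamp `(x a)^p κ (x a)^(-p)` -/
def Pl (η : Om) (x κ : V) (p : ℤ) : P := Tz η x ^ p * xx η κ * (Tz η x ^ p)⁻¹

theorem Tz_inv (η : Om) (x : V) : (Tz η x)⁻¹ = a * xx η x := by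
  unfold Tz
  rw [mul_inv_rev, J_a_inv, J_xx_inv]

theorem Tz_a (η : Om) (x : V) : a * Tz η x * a = (Tz η x)⁻¹ := by
  rw [Tz_inv]
  unfold Tz
  have h : (a : P) * a = 1 := S_aa
  rw [mul_assoc, mul_assoc, h, mul_one]

theorem Tz_x (η : Om) (x : V) : xx η x * Tz η x * xx η x = (Tz η x)⁻¹ := by
  rw [Tz_inv]
  unfold Tz
  rw [← mul_assoc, xx_sq, one_mul]

theorem zpow_conj_inv {G : Type} [Group G] {c t : G} (hc : c * c = 1) (h : c * t * c = t⁻¹)
    (p : ℤ) : c * t ^ p * c = t ^ (-p) := by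
  have h1 : c⁻¹ = c := inv_eq_of_mul_eq_one_left hc
  have h2 : c * t * c⁻¹ = t⁻¹ := by rw [h1, h]
  have h3 := conj_zpow (i := p) (a := c) (b := t)
  rw [h2, h1] at h3
  rw [← h3, inv_zpow', zpow_neg]

theorem Tz_a_pow (η : Om) (x : V) (p : ℤ) : a * Tz η x ^ p * a = Tz η x ^ (-p) :=
  zpow_conj_inv S_aa (Tz_a η x) p

theorem Tz_x_pow (η : Om) (x : V) (p : ℤ) : xx η x * Tz η x ^ p * xx η x = Tz η x ^ (-p) :=
  zpow_conj_inv (xx_sq η x) (Tz_x η x) p

theorem Pl_zero (η : Om) (x κ : V) : Pl η x κ 0 = xx η κ := by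
  simp [Pl]

theorem Pl_inv (η : Om) (x κ : V) (p : ℤ) : (Pl η x κ p)⁻¹ = Pl η x κ p := by
  unfold Pl
  simp only [mul_inv_rev, inv_inv, J_xx_inv, mul_assoc]

theorem Pl_sq (η : Om) (x κ : V) (p : ℤ) : Pl η x κ p * Pl η x κ p = 1 := by
  have := mul_inv_cancel (Pl η x κ p)
  rwa [Pl_inv] at this

theorem Pl_shift (η : Om) (x κ : V) (k p : ℤ) :
    Tz η x ^ k * Pl η x κ p * (Tz η x ^ k)⁻¹ = Pl η x κ (p + k) := by
  unfold Pl
  rw [add_comm p k, zpow_add, mul_inv_rev]
  simp only [mul_assoc]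

theorem conj_a_a (g h : P) : a * (g * h) * a = (a * g * a) * (a * h * a) := by
  have h1 : (a : P) * a = 1 := S_aa
  calc a * (g * h) * a = a * g * (a * a) * h * a := by
        rw [h1, mul_one]
        simp only [mul_assoc]
    _ = (a * g * a) * (a * h * a) := by simp only [mul_assoc]

theorem conj_a_inv (g : P) : a * g⁻¹ * a = (a * g * a)⁻¹ := by
  rw [mul_inv_rev, mul_inv_rev, J_a_inv]
  simp only [mul_assoc]

theorem Pl_a (η : Om) (x κ : V) (p : ℤ) : a * Pl η x κ p * a = Pl η x κ (-p - 1) := by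
  unfold Pl
  rw [conj_a_a, conj_a_a, conj_a_inv, Tz_a_pow]
  have h1 : a * xx η κ * a = Tz η x ^ (-1 : ℤ) * xx η κ * (Tz η x ^ (-1 : ℤ))⁻¹ := by
    rw [zpow_neg_one, inv_inv, Tz_inv]
    unfold Tz
    calc a * xx η κ * a = a * (xx η κ * (xx η x * xx η x)) * a := by rw [xx_sq, mul_one]
      _ = a * ((xx η x * xx η κ) * xx η x) * a := by
        rw [← mul_assoc (xx η κ), J_xx_comm η κ x]
      _ = _ := by simp only [mul_assoc]
  rw [h1, sub_eq_add_neg, zpow_add, mul_inv_rev]
  simp only [mul_assoc]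

theorem conj_x_x (η : Om) (x : V) (g h : P) :
    xx η x * (g * h) * xx η x = (xx η x * g * xx η x) * (xx η x * h * xx η x) := by
  calc xx η x * (g * h) * xx η x = xx η x * g * (xx η x * xx η x) * h * xx η x := by
        rw [xx_sq, mul_one]
        simp only [mul_assoc]
    _ = _ := by simp only [mul_assoc]

theorem conj_x_inv (η : Om) (x : V) (g : P) :
    xx η x * g⁻¹ * xx η x = (xx η x * g * xx η x)⁻¹ := by
  rw [mul_inv_rev, mul_inv_rev, J_xx_inv]
  simp only [mul_assoc]

theorem Pl_x (η : Om) (x κ : V) (p : ℤ) :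
    xx η x * Pl η x κ p * xx η x = Pl η x κ (-p) := by
  unfold Pl
  rw [conj_x_x, conj_x_x, conj_x_inv, Tz_x_pow]
  have h1 : xx η x * xx η κ * xx η x = xx η κ := by
    rw [J_xx_comm η x κ, mul_assoc, xx_sq, mul_one]
  rw [h1]

/-! Sections. -/

theorem sec_zpow {f f0 f1 : P} (h : Sec f f0 f1) (j : ℤ) : Sec (f ^ j) (f0 ^ j) (f1 ^ j) := by
  have hn : ∀ n : ℕ, Sec (f ^ n) (f0 ^ n) (f1 ^ n) := by
    intro n
    induction n with
    | zero => simpa using Sec.one
    | succ n ih =>
      rw [pow_succ, pow_succ, pow_succ]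
      exact ih.mul h
  cases j with
  | ofNat n =>
    simpa using hn n
  | negSucc n =>
    rw [zpow_negSucc, zpow_negSucc, zpow_negSucc]
    exact J_sec_inv (hn (n + 1))

theorem Tz_two (η : Om) {x : V} (hx : x ≠ kil (η 0)) :
    Sec (Tz η x ^ (2 : ℤ)) ((Tz (sh η) x)⁻¹) (Tz (sh η) x) := by
  have h1 : Sec (xx η x) a (xx (sh η) x) := by
    have := sec_xx η x
    rwa [if_neg hx] at this
  have h2 := h1.mul h1.conj
  have e : Tz η x ^ (2 : ℤ) = xx η x * (a * xx η x * a) := by
    have : (2 : ℤ) = 1 + 1 := rfl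
    rw [this, zpow_add, zpow_one]
    unfold Tz
    simp only [mul_assoc]
  rw [e, Tz_inv]
  exact h2

theorem Tz_even (η : Om) {x : V} (hx : x ≠ kil (η 0)) (j : ℤ) :
    Sec (Tz η x ^ (2 * j)) (Tz (sh η) x ^ (-j)) (Tz (sh η) x ^ j) := by
  have := sec_zpow (Tz_two η hx) j
  rw [← zpow_mul, inv_zpow'] at this
  exact this

theorem Pl_even (η : Om) {x : V} (hx : x ≠ kil (η 0)) (j : ℤ) :
    Sec (Pl η x (kil (η 0)) (2 * j)) 1 (Pl (sh η) x (kil (η 0)) j) := by
  have h := sec_xx η (kil (η 0))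
  rw [if_pos rfl] at h
  have h1 := ((Tz_even η hx j).mul h).mul (J_sec_inv (Tz_even η hx j))
  rw [mul_one, mul_inv_cancel] at h1
  exact h1

theorem Pl_odd (η : Om) {x : V} (hx : x ≠ kil (η 0)) (j : ℤ) :
    Sec (Pl η x (kil (η 0)) (2 * j + 1)) (Pl (sh η) x (kil (η 0)) (-j - 1)) 1 := by
  have h := sec_xx η (kil (η 0))
  rw [if_pos rfl] at h
  have hxs : Sec (xx η x) a (xx (sh η) x) := by
    have := sec_xx η x
    rwa [if_neg hx] at this
  have h1 := (hxs.mul h.conj).mul (J_sec_inv hxs)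
  rw [mul_one, mul_inv_cancel, J_a_inv] at h1
  have e1 : Pl η x (kil (η 0)) 1 =
      xx η x * (a * xx η (kil (η 0)) * a) * (xx η x)⁻¹ := by
    unfold Pl
    rw [zpow_one]
    unfold Tz
    rw [mul_inv_rev, J_a_inv]
    simp only [mul_assoc]
  rw [← e1] at h1
  have h2 := ((Tz_even η hx j).mul h1).mul (J_sec_inv (Tz_even η hx j))
  rw [mul_one, mul_inv_cancel, Pl_shift, add_comm 1 (2 * j)] at h2
  have e2 : a * xx (sh η) (kil (η 0)) * a = Pl (sh η) x (kil (η 0)) (-1) := by
    rw [← Pl_zero (sh η) x (kil (η 0)), Pl_a]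
    norm_num
  rw [e2, Pl_shift] at h2
  have e3 : (-1 : ℤ) + -j = -j - 1 := by ring
  rw [e3] at h2
  exact h2

/-- the positions in a run whose section at `u` is the lamp `r` -/
def fu : List Bool → ℤ → ℤ
  | [], r => r
  | true :: u, r => 2 * fu u r
  | false :: u, r => -2 * fu u r - 1

theorem fu_eq (u : List Bool) (r : ℤ) :
    fu u r = fu u 0 + (if zp u then -1 else 1) * (2 ^ u.length * r) := by
  induction u with
  | nil => simp [fu, zp]
  | cons y u ih =>
    cases y
    · simp only [fu, zp, List.length_cons, pow_succ]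
      rw [ih]
      rcases Bool.eq_false_or_eq_true (zp u) with hz | hz <;> simp [hz] <;> ring
    · simp only [fu, zp, List.length_cons, pow_succ]
      rw [ih]
      rcases Bool.eq_false_or_eq_true (zp u) with hz | hz <;> simp [hz] <;> ring

theorem fu_range (u : List Bool) :
    (zp u = false → 0 ≤ fu u 0 ∧ 2 * fu u 0 < 2 ^ u.length) ∧
    (zp u = true → fu u 0 < 0 ∧ -(2 ^ u.length) ≤ 2 * fu u 0) := by
  induction u with
  | nil => simp [fu, zp]
  | cons y u ih =>
    obtain ⟨h1, h2⟩ := ih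
    cases y
    · simp only [fu, zp, List.length_cons, pow_succ]
      cases hz : zp u
      · obtain ⟨k1, k2⟩ := h1 hz
        refine ⟨by simp, fun _ => ⟨by omega, by omega⟩⟩
      · obtain ⟨k1, k2⟩ := h2 hz
        refine ⟨fun _ => ⟨by omega, by omega⟩, by simp⟩
    · simp only [fu, zp, List.length_cons, pow_succ]
      cases hz : zp u
      · obtain ⟨k1, k2⟩ := h1 hz
        refine ⟨fun _ => ⟨by omega, by omega⟩, by simp⟩
      · obtain ⟨k1, k2⟩ := h2 hz
        refine ⟨by simp, fun _ => ⟨by omega, by omega⟩⟩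

theorem fu_surj (L : ℕ) : ∀ p : ℤ, -(2 ^ L) ≤ 2 * p → 2 * p < 2 ^ L →
    ∃ u : List Bool, u.length = L ∧ fu u 0 = p := by
  induction L with
  | zero =>
    intro p h1 h2
    refine ⟨[], rfl, ?_⟩
    simp only [fu]
    omega
  | succ L ih =>
    intro p h1 h2
    rw [pow_succ] at h1 h2
    rcases Int.even_or_odd' p with ⟨j, hj | hj⟩
    · obtain ⟨u, hu, hf⟩ := ih j (by omega) (by omega)
      refine ⟨true :: u, by simp [hu], ?_⟩
      simp only [fu]
      omega
    · obtain ⟨u, hu, hf⟩ := ih (-j - 1) (by omega) (by omega)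
      refine ⟨false :: u, by simp [hu], ?_⟩
      simp only [fu]
      omega

theorem shi_sh (L : ℕ) (η : Om) : shi L (sh η) = shi (L + 1) η := by
  funext n
  simp only [shi, sh]
  congr 1

theorem Pl_secAt (L : ℕ) : ∀ (η : Om) (x κ : V), (∀ i < L, kil (η i) = κ) → x ≠ κ → ∀ p : ℤ,
    ∃ F, SecAt L F (Pl η x κ p) ∧ ∀ u : List Bool, u.length = L →
      (∀ r, p = fu u r → F u = Pl (shi L η) x κ r) ∧ ((∀ r, p ≠ fu u r) → F u = 1) := by
  induction L with
  | zero =>
    intro η x κ _ _ p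
    refine ⟨fun _ => Pl η x κ p, secAt_zero _, ?_⟩
    intro u hu
    rw [List.length_eq_zero_iff] at hu
    subst hu
    refine ⟨?_, ?_⟩
    · intro r hr
      simp only [fu] at hr
      rw [hr, shi_zero]
    · intro h
      exact absurd rfl (h p)
  | succ L ih =>
    intro η x κ hκ hx p
    have h0 : kil (η 0) = κ := hκ 0 (by omega)
    have hx' : x ≠ kil (η 0) := by rw [h0]; exact hx
    have hκ' : ∀ i < L, kil ((sh η) i) = κ := fun i hi => hκ (i + 1) (by omega)
    rcases Int.even_or_odd' p with ⟨j, hj | hj⟩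
    · have hs := Pl_even η hx' j
      rw [h0] at hs
      obtain ⟨F, hF, hFu⟩ := ih (sh η) x κ hκ' hx j
      rw [hj]
      refine ⟨_, secAt_sec hs (secAt_one L) hF, ?_⟩
      intro u hu
      cases u with
      | nil => simp at hu
      | cons y u =>
        have hu' : u.length = L := by simpa using hu
        obtain ⟨k1, k2⟩ := hFu u hu'
        cases y
        · simp only [List.headD_cons, fu]
          refine ⟨fun r hr => by omega, fun _ => by simp⟩
        · simp only [List.headD_cons, List.tail_cons, fu]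
          refine ⟨fun r hr => ?_, fun h => ?_⟩
          · simp only [if_true]
            rw [k1 r (by omega), shi_sh]
          · simp only [if_true]
            exact k2 (fun r hr => h r (by omega))
    · have hs := Pl_odd η hx' j
      rw [h0] at hs
      obtain ⟨F, hF, hFu⟩ := ih (sh η) x κ hκ' hx (-j - 1)
      rw [hj]
      refine ⟨_, secAt_sec hs hF (secAt_one L), ?_⟩
      intro u hu
      cases u with
      | nil => simp at hu
      | cons y u =>
        have hu' : u.length = L := by simpa using hu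
        obtain ⟨k1, k2⟩ := hFu u hu'
        cases y
        · simp only [List.headD_cons, List.tail_cons, fu]
          refine ⟨fun r hr => ?_, fun h => ?_⟩
          · rw [if_neg (by decide), k1 r (by omega), shi_sh]
          · rw [if_neg (by decide)]
            exact k2 (fun r hr => h r (by omega))
        · simp only [List.headD_cons, fu]
          refine ⟨fun r hr => by omega, fun _ => by simp⟩

theorem Pl_near {L : ℕ} {η : Om} {x κ : V} (hκ : ∀ i < L, kil (η i) = κ) (hx : x ≠ κ) (p : ℤ) :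
    ∃ F, SecAt L F (Pl η x κ p) ∧ ∀ u : List Bool, u.length = L → |p - fu u 0| < 2 ^ L →
      F u = if p = fu u 0 then xx (shi L η) κ else 1 := by
  obtain ⟨F, hF, h⟩ := Pl_secAt L η x κ hκ hx p
  refine ⟨F, hF, ?_⟩
  intro u hu hp
  obtain ⟨h1, h2⟩ := h u hu
  by_cases hpu : p = fu u 0
  · rw [if_pos hpu, h1 0 hpu, Pl_zero]
  · rw [if_neg hpu]
    apply h2
    intro r hr
    rw [fu_eq, hu] at hr
    have hr0 : r ≠ 0 := by
      rintro rfl
      apply hpu
      rw [hr]
      ring
    have h3 : p - fu u 0 = (if zp u then -1 else 1) * (2 ^ L * r) := by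
      rw [hr]
      ring
    rw [h3, abs_mul, abs_mul] at hp
    have h4 : |(if zp u then (-1 : ℤ) else 1)| = 1 := by
      split_ifs <;> simp
    have h5 : |(2 : ℤ) ^ L| = 2 ^ L := abs_of_pos (by positivity)
    have h6 : 1 ≤ |r| := Int.one_le_abs hr0
    rw [h4, h5, one_mul] at hp
    have h7 : (0 : ℤ) < 2 ^ L := by positivity
    nlinarith

/-! Products of lamps. -/

def LP (η : Om) (x κ : V) (ps : List ℤ) : P := (ps.map (Pl η x κ)).prod

/-- parity of the number of occurrences -/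
def cnt : List ℤ → ℤ → Bool
  | [], _ => false
  | q :: ps, p => xor (decide (q = p)) (cnt ps p)

theorem cnt_append (ps qs : List ℤ) (p : ℤ) : cnt (ps ++ qs) p = xor (cnt ps p) (cnt qs p) := by
  induction ps with
  | nil => simp [cnt]
  | cons q ps ih => simp [cnt, ih]

theorem cnt_map_add (ps : List ℤ) (k p : ℤ) : cnt (ps.map fun q => q + k) p = cnt ps (p - k) := by
  induction ps with
  | nil => simp [cnt]
  | cons q ps ih =>
    simp only [List.map_cons, cnt, ih]
    congr 1
    apply decide_eq_decide.2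
    omega

theorem cnt_map_neg (ps : List ℤ) (p : ℤ) :
    cnt (ps.map fun q => -q - 1) p = cnt ps (-p - 1) := by
  induction ps with
  | nil => simp [cnt]
  | cons q ps ih =>
    simp only [List.map_cons, cnt, ih]
    congr 1
    apply decide_eq_decide.2
    omega

theorem LP_nil (η : Om) (x κ : V) : LP η x κ [] = 1 := rfl
theorem LP_cons (η : Om) (x κ : V) (p : ℤ) (ps : List ℤ) :
    LP η x κ (p :: ps) = Pl η x κ p * LP η x κ ps := by simp [LP]
theorem LP_append (η : Om) (x κ : V) (ps qs : List ℤ) :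
    LP η x κ (ps ++ qs) = LP η x κ ps * LP η x κ qs := by simp [LP]

theorem LP_shift (η : Om) (x κ : V) (k : ℤ) (ps : List ℤ) :
    Tz η x ^ k * LP η x κ ps * (Tz η x ^ k)⁻¹ = LP η x κ (ps.map fun q => q + k) := by
  induction ps with
  | nil => simp [LP_nil]
  | cons p ps ih =>
    rw [LP_cons, List.map_cons, LP_cons, ← ih, ← Pl_shift]
    group

theorem LP_a (η : Om) (x κ : V) (ps : List ℤ) :
    a * LP η x κ ps * a = LP η x κ (ps.map fun q => -q - 1) := by
  induction ps with
  | nil =>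
    have h : (a : P) * a = 1 := S_aa
    simp [LP_nil, h]
  | cons p ps ih =>
    rw [LP_cons, List.map_cons, LP_cons, ← ih, ← Pl_a, conj_a_a]

theorem LP_sec {L : ℕ} {η : Om} {x κ : V} (hκ : ∀ i < L, kil (η i) = κ) (hx : x ≠ κ)
    (ps : List ℤ) : ∃ F, SecAt L F (LP η x κ ps) ∧ ∀ u : List Bool, u.length = L →
      (∀ p ∈ ps, |p - fu u 0| < 2 ^ L) →
      F u = if cnt ps (fu u 0) then xx (shi L η) κ else 1 := by
  induction ps with
  | nil =>
    refine ⟨fun _ => 1, secAt_one L, ?_⟩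
    intro u _ _
    simp [cnt]
  | cons p ps ih =>
    obtain ⟨F, hF, h⟩ := ih
    obtain ⟨F', hF', h'⟩ := Pl_near hκ hx p
    refine ⟨_, by rw [LP_cons]; exact secAt_mul hF' hF, ?_⟩
    intro u hu hp
    rw [h' u hu (hp p (by simp)), h u hu (fun q hq => hp q (List.mem_cons_of_mem _ hq))]
    simp only [cnt]
    by_cases h1 : p = fu u 0
    · rcases Bool.eq_false_or_eq_true (cnt ps (fu u 0)) with h2 | h2
      · simp [h1, h2, xx_sq]
      · simp [h1, h2]
    · rcases Bool.eq_false_or_eq_true (cnt ps (fu u 0)) with h2 | h2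
      · simp [h1, h2]
      · simp [h1, h2]

end Pool.Agent.H342_Full
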