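import Pool.Agent.H342_Full.Trans

/-!
The levels at which the functions are realised, and the lower bound for the growth.
-/

set_option autoImplicit false

namespace Pool.Agent.H342_Full

open Pool.Agent.Results.MP_03d093_al.SphereBall Pool.Agent.H776R2.Grig Pool.Agent.H776R2.Om
open Pool.Agent.H342_Gap

theorem kil_inj {i j : Fin 3} (h : kil i = kil j) : i = j := by
  revert h
  revert i j
  decide

/-- `ω` is not eventually constant -/
def NEC (ω : Om) : Prop := ∀ n : ℕ, ∃ i, n ≤ i ∧ ω i ≠ ω (i + 1)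

/-- `ω` changes at `j` -/
def chg (ω : Om) (j : ℕ) : Prop := 1 ≤ j ∧ ω (j - 1) ≠ ω j

/-- a long constant run begins at `m` -/
def Lrs (ω : Om) (m : ℕ) : Prop := chg ω m ∧ ∀ j, m < j → j ≤ m + 20 → ¬ chg ω j

/-- no long constant run is near -/
def Bpt (ω : Om) (m : ℕ) : Prop :=
  1 ≤ m ∧ (∃ j, m ≤ j ∧ j ≤ m + 20 ∧ chg ω j) ∧ ∀ j, m ≤ j → j < m + 64 → ¬ Lrs ω j

theorem NEC.chg {ω : Om} (h : NEC ω) (n : ℕ) : ∃ j, n < j ∧ chg ω j := by
  obtain ⟨i, h1, h2⟩ := h n
  exact ⟨i + 1, by omega, by omega, by simpa using h2⟩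

theorem xx_move (x : V) (i : ℕ) : ∀ η : Om, kil (η i) ≠ x → ∃ w, xx η x w ≠ w := by
  induction i with
  | zero =>
    intro η h
    refine ⟨[false, false], ?_⟩
    have hs := sec_xx η x
    rw [if_neg (Ne.symm h)] at hs
    rw [(hs _).1]
    simp [a_apply, aFun]
  | succ i ih =>
    intro η h
    obtain ⟨w, hw⟩ := ih (sh η) h
    refine ⟨true :: w, ?_⟩
    rw [(sec_xx η x _).2]
    simpa using hw

theorem xx_ne_one {ω : Om} (h : NEC ω) (m : ℕ) (x : V) : xx (shi m ω) x ≠ 1 := by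
  have : ∃ i, m ≤ i ∧ kil (ω i) ≠ x := by
    obtain ⟨i, h1, h2⟩ := h m
    by_cases hi : kil (ω i) = x
    · refine ⟨i + 1, by omega, ?_⟩
      intro hi'
      exact h2 (kil_inj (hi.trans hi'.symm))
    · exact ⟨i, h1, hi⟩
  obtain ⟨i, h1, h2⟩ := this
  have h3 : kil ((shi m ω) (i - m)) ≠ x := by
    simp only [shi]
    rw [show i - m + m = i by omega]
    exact h2
  obtain ⟨w, hw⟩ := xx_move x (i - m) (shi m ω) h3
  intro he
  rw [he] at hw
  exact hw rfl

theorem lamp_ne_one {ω : Om} (hω : NEC ω) {m L : ℕ} {x κ : V} (hL : 3 ≤ L)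
    (hκ : ∀ i < L, kil (ω (m + i)) = κ) (hx : x ≠ κ) :
    Pl (shi m ω) x κ 0 * Pl (shi m ω) x κ 4 ≠ 1 := by
  have hκ' : ∀ i < L, kil ((shi m ω) i) = κ := by
    intro i hi
    simp only [shi]
    rw [add_comm i m]
    exact hκ i hi
  have h8 : (8 : ℤ) ≤ 2 ^ L := by
    calc (8 : ℤ) = 2 ^ 3 := by norm_num
      _ ≤ 2 ^ L := pow_le_pow_right₀ (by norm_num) hL
  intro he
  obtain ⟨F, hF, hF'⟩ := LP_sec (L := L) hκ' hx [0, 4]
  obtain ⟨u, hu, hfu⟩ := fu_surj L 0 (by simp) (by simp)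
  have h1 := hF' u hu (by
    intro p hp
    simp only [List.mem_cons, List.not_mem_nil, or_false] at hp
    rw [hfu, abs_lt]
    omega)
  rw [hfu, shi_shi] at h1
  have h2 : LP (shi m ω) x κ [0, 4] = 1 := by
    rw [LP_cons, LP_cons, LP_nil, mul_one]
    exact he
  rw [h2] at hF
  have h3 := secAt_unique hF (secAt_one L) u hu
  rw [h1] at h3
  simp only [cnt] at h3
  norm_num at h3
  exact xx_ne_one hω _ _ h3

/-- an element moving all vertices of a level -/
theorem lab_move {N : ℕ} {g : P} (hg : TA g) (h : Lab N (fun _ => true) g) (t : List Bool)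
    (ht : N + 1 ≤ t.length) : g t ≠ t := by
  intro he
  obtain ⟨v, y, hv, hvy⟩ := split_last (u := t.take (N + 1)) (m := N) (by
    rw [List.length_take]
    omega)
  have h1 := hg.2 t (N + 1)
  rw [he, hvy, h v hv y] at h1
  have h2 := List.append_cancel_left h1
  cases y <;> simp at h2

theorem secAt_lab {ρ : ℕ} {f : List Bool → Bool} {h g : P} (hh : Lab 1 (fun _ => true) h)
    (hg : SecAt ρ (fun u => if f u then h else 1) g) :
    Lab (ρ + 1) (fun u => f (u.take ρ)) g := by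
  intro u hu y
  obtain ⟨v, z, hv, rfl⟩ := split_last hu
  have t1 : (v ++ [z]).take ρ = v := by
    rw [List.take_append_of_le_length (by omega), List.take_of_length_le (by omega)]
  show g (v ++ [z] ++ [y]) = v ++ [z] ++ [xor y (f ((v ++ [z]).take ρ))]
  rw [t1, List.append_assoc, hg v _ hv]
  rcases Bool.eq_false_or_eq_true (f v) with hf | hf
  · simp only [hf, if_true]
    rw [hh [z] rfl y]
    simp
  · simp [hf]

theorem T2_lab {η : Om} {x : V} (hx : x ≠ kil (η 0)) :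
    Lab 1 (fun _ => true) (Tz η x ^ (2 : ℤ)) := by
  have hs := Tz_two η hx
  have hfix : ∀ (ω : Om) (x : V) (t : Bool), xx ω x [t] = [t] := by
    intro ω x t
    show xFun x ω [t] = [t]
    cases t
    · simp [xFun, aFun]
    · simp [xFun]
  intro u hu y
  obtain ⟨z, rfl⟩ := List.length_eq_one_iff.mp hu
  cases z
  · show (Tz η x ^ (2 : ℤ)) (false :: [y]) = _
    rw [(hs _).1, Tz_inv, Equiv.Perm.mul_apply, hfix, a_apply]
    simp [aFun]
  · show (Tz η x ^ (2 : ℤ)) (true :: [y]) = _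
    rw [(hs _).2]
    unfold Tz
    rw [Equiv.Perm.mul_apply, a_apply]
    simp [aFun, hfix]

theorem chain {ω : Om} {a : ℕ} (h : ∃ j, a ≤ j ∧ j ≤ a + 20 ∧ chg ω j) (n : ℕ)
    (hn : ∀ j, a ≤ j → j < a + n → ¬ Lrs ω j) : ∃ j, a + n ≤ j ∧ j ≤ a + n + 20 ∧ chg ω j := by
  induction n with
  | zero => exact h
  | succ n ih =>
    obtain ⟨j, h1, h2, h3⟩ := ih (fun j hj hj' => hn j hj (by omega))
    by_cases hj : j = a + n
    · subst hj
      have := hn (a + n) (by omega) (by omega)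
      unfold Lrs at this
      push Not at this
      obtain ⟨j', h1', h2', h3'⟩ := this h3
      exact ⟨j', by omega, by omega, h3'⟩
    · exact ⟨j, by omega, by omega, h3⟩

theorem mover {ω : Om} {m N : ℕ} (hB : Bpt ω m)
    (hJ : ∀ (m r : ℕ), 1 ≤ m → r ≤ 60 → JR ω m r 2 N) :
    ∃ h h2 : P, JC (shi m ω) (kil (ω (m - 1))) h N ∧ JC (shi m ω) (kil (ω (m - 1))) h2 N ∧
      ∀ t : List Bool, 62 ≤ t.length → (h⁻¹ * h2 * h * h2⁻¹) t ≠ t := by
  obtain ⟨hm, ⟨j1, a1, a2, a3⟩, hno⟩ := hB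
  have step : ∀ j, m ≤ j → j < m + 64 → chg ω j → ∃ j', j < j' ∧ j' ≤ j + 20 ∧ chg ω j' := by
    intro j h1 h2 h3
    have := hno j h1 h2
    unfold Lrs at this
    push Not at this
    obtain ⟨j', h1', h2', h3'⟩ := this h3
    exact ⟨j', h1', h2', h3'⟩
  obtain ⟨j', b1, b2, b3⟩ := step j1 a1 (by omega) a3
  obtain ⟨j2, c1, c2, c3⟩ := step j' (by omega) (by omega) b3
  have hT : ∀ j, chg ω j → Lab 1 (fun _ => true) (Tz (shi j ω) (kil (ω (j - 1))) ^ (2 : ℤ)) := by
    intro j hj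
    apply T2_lab
    have e : (shi j ω) 0 = ω j := by simp [shi]
    rw [e]
    intro he
    exact hj.2 (kil_inj he)
  have e1 : m + (j1 - m) = j1 := by omega
  have e2 : m + (j2 - m) = j2 := by omega
  have k1 := hJ m (j1 - m) hm (by omega)
  have k2 := hJ m (j2 - m) hm (by omega)
  unfold JR at k1 k2
  rw [e1] at k1
  rw [e2] at k2
  obtain ⟨e, he, hes⟩ := k1 _ (JC_T2 _ _) (fun _ => true)
  obtain ⟨s, hs, hss⟩ := k2 _ (JC_T2 _ _) (fun u => u.getD (j1 - m + 1) false)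
  have le := secAt_lab (hT j1 a3) hes
  have ls := secAt_lab (hT j2 c3) hss
  have hTe := JC_TT he
  have hTs := JC_TT hs
  have hc := A_lab_comm (j := j1 - m + 1) (n := j2 - m + 1) (by omega) (μ := fun _ => true)
    (q := fun _ => true) hTe.1 hTe.2 le (lab_congr (by
      intro u hu
      simp only [Bool.true_and]
      simp only [List.getD_eq_getElem?_getD]
      congr 1
      rw [List.getElem?_take_of_lt (by omega)]) ls)
  refine ⟨e⁻¹, s, JC_inv he, hs, ?_⟩
  intro t ht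
  rw [inv_inv]
  have hTA : TA (e * s * e⁻¹ * s⁻¹) :=
    (TT_mul (TT_mul (TT_mul hTe hTs) (TT_inv hTe)) (TT_inv hTs)).1
  have hc' : Lab (j2 - m + 1) (fun _ => true) (e * s * e⁻¹ * s⁻¹) :=
    lab_congr (fun _ _ => rfl) hc
  exact lab_move hTA hc' t (by omega)

/-- the levels of the net, with the constant `A` -/
def NS (ω : Om) (A : ℝ) (m : ℕ) : Prop :=
  (Lrs ω m ∧ Ex ω m (Pl (shi m ω) (kil (ω (m - 1))) (kil (ω m)) 0 *
    Pl (shi m ω) (kil (ω (m - 1))) (kil (ω m)) 4) (A * lam ^ m)) ∨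
  (Bpt ω m ∧ ∃ s : P, (∀ t : List Bool, 62 ≤ t.length → s t ≠ t) ∧ Ex ω m s (A * lam ^ m))

theorem Lrs.const {ω : Om} {m : ℕ} (h : Lrs ω m) (i : ℕ) (hi : i ≤ 20) : ω (m + i) = ω m := by
  induction i with
  | zero => rfl
  | succ i ih =>
    have h1 := ih (by omega)
    have h2 := h.2 (m + (i + 1)) (by omega) (by omega)
    unfold chg at h2
    push Not at h2
    have h3 := h2 (by omega)
    rw [← h3, ← h1]
    congr 1

theorem target {ω : Om} {N : ℕ} (hJ : ∀ (m r : ℕ), 1 ≤ m → r ≤ 60 → JR ω m r 2 N) {m : ℕ}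
    (hm : Lrs ω m ∨ Bpt ω m) :
    ∃ h h2 : P, JC (shi m ω) (kil (ω (m - 1))) h (N + 8) ∧
      JC (shi m ω) (kil (ω (m - 1))) h2 (N + 8) ∧
      ∀ A : ℝ, Ex ω m (h⁻¹ * h2 * h * h2⁻¹) (A * lam ^ m) → NS ω A m := by
  rcases hm with hm | hm
  · refine ⟨_, _, JC_mono (JC_P02 (shi m ω) (kil (ω (m - 1))) (kil (ω m))) (by omega),
      JC_mono (JC_T2 (shi m ω) (kil (ω (m - 1)))) (by omega), ?_⟩
    intro A hA
    left
    refine ⟨hm, ?_⟩
    rw [lampG] at hA
    · exact hA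
    · simp [shi]
    · have := hm.const 1 (by omega)
      simp only [shi]
      rw [add_comm 1 m, this]
    · intro he
      exact hm.1.2 (kil_inj he)
  · obtain ⟨h, h2, k1, k2, k3⟩ := mover hm hJ
    refine ⟨h, h2, JC_mono k1 (by omega), JC_mono k2 (by omega), ?_⟩
    intro A hA
    right
    exact ⟨hm, _, k3, hA⟩

theorem lam_ratio {n : ℕ} (hn : 20 ≤ n) : 64 * (2 : ℝ) ^ n ≤ lam ^ n := by
  have hg := lam_gt
  obtain ⟨k, rfl⟩ : ∃ k, n = 20 + k := ⟨n - 20, by omega⟩
  have h20 : 64 * (2 : ℝ) ^ 20 ≤ lam ^ 20 := by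
    have h : (2.465 : ℝ) ^ 20 ≤ lam ^ 20 := pow_le_pow_left₀ (by norm_num) hg.le 20
    refine le_trans ?_ h
    norm_num
  have h2 : (2 : ℝ) ^ k ≤ lam ^ k := pow_le_pow_left₀ (by norm_num) (by linarith) k
  rw [pow_add, pow_add]
  calc 64 * ((2 : ℝ) ^ 20 * 2 ^ k) = (64 * 2 ^ 20) * 2 ^ k := by ring
    _ ≤ lam ^ 20 * lam ^ k := by
      apply mul_le_mul h20 h2 (by positivity) (by have := lam_pos; positivity)

theorem two_pow_le (n : ℕ) : (2 : ℝ) ^ n ≤ lam ^ n := by
  have hg := lam_gt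
  exact pow_le_pow_left₀ (by norm_num) (by linarith) n

/-- from a level of the net away from long runs -/
theorem next_B {ω : Om} {N N' : ℕ} {A : ℝ}
    (hJ : ∀ (m r : ℕ), 1 ≤ m → r ≤ 60 → JR ω m r 2 N)
    (hJ' : ∀ (m r : ℕ), 1 ≤ m → r ≤ 130 → JR ω m r (N + 8) N')
    (hA : 1000 * (N' : ℝ) + 3000 ≤ A) {m : ℕ} (hB : Bpt ω m) {s : P}
    (hs : ∀ t : List Bool, 62 ≤ t.length → s t ≠ t) (hE : Ex ω m s (A * lam ^ m)) :
    ∃ m', m < m' ∧ m' ≤ m + 128 ∧ NS ω A m' := by
  have key : ∀ r, 64 ≤ r → r < 128 → (Lrs ω (m + r) ∨ Bpt ω (m + r)) → NS ω A (m + r) := by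
    intro r hr hr' ht
    obtain ⟨h, h2, k1, k2, k3⟩ := target hJ ht
    apply k3
    have h4 := step_G hB.1 (hJ' m r hB.1 (by omega)) (Ex_St hE)
      (by
        intro g hg t ht'
        subst hg
        exact hs t (by omega)) k1 k2
    refine Ex_mono h4 ?_
    have l1 := lam_ratio (show 20 ≤ r by omega)
    have l2 := lam_pow_pos m
    have hN' : (0 : ℝ) ≤ N' := by positivity
    have hX : (0 : ℝ) ≤ (8 * A + 12 * (36 * N' + 15)) * lam ^ m := by
      have : (0 : ℝ) ≤ A := by linarith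
      positivity
    calc (2 : ℝ) ^ r * (2 * (4 * (A * lam ^ m) + 6 * ((36 * N' + 15) * lam ^ m))) =
        (64 * 2 ^ r) * ((8 * A + 12 * (36 * N' + 15)) * lam ^ m) / 64 := by ring
      _ ≤ lam ^ r * ((8 * A + 12 * (36 * N' + 15)) * lam ^ m) / 64 := by gcongr
      _ = ((8 * A + 12 * (36 * N' + 15)) / 64) * lam ^ (m + r) := by
        rw [pow_add]
        ring
      _ ≤ A * lam ^ (m + r) := by
        have := lam_pow_pos (m + r)
        gcongr
        linarith
  by_cases hex : ∃ j, m + 64 ≤ j ∧ j < m + 128 ∧ Lrs ω j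
  · obtain ⟨j, h1, h2, h3⟩ := hex
    refine ⟨j, by omega, by omega, ?_⟩
    have e : m + (j - m) = j := by omega
    have := key (j - m) (by omega) (by omega) (by rw [e]; exact Or.inl h3)
    rwa [e] at this
  · push Not at hex
    refine ⟨m + 64, by omega, by omega, key 64 (by omega) (by omega) (Or.inr ?_)⟩
    refine ⟨by omega, chain hB.2.1 64 hB.2.2, ?_⟩
    intro j h1 h2
    exact hex j h1 (by omega)

/-- from the beginning of a long run -/
theorem next_L {ω : Om} (hω : NEC ω) {N N' : ℕ} {A : ℝ}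
    (hJ : ∀ (m r : ℕ), 1 ≤ m → r ≤ 60 → JR ω m r 2 N)
    (hJ' : ∀ (m r : ℕ), 1 ≤ m → r ≤ 130 → JR ω m r (N + 8) N')
    (hJ1 : ∀ (m : ℕ), 1 ≤ m → JR ω m 1 8 N')
    (hA : 2000 * (N' : ℝ) + 6000 ≤ A) {m : ℕ} (hL : Lrs ω m)
    (hE : Ex ω m (Pl (shi m ω) (kil (ω (m - 1))) (kil (ω m)) 0 *
      Pl (shi m ω) (kil (ω (m - 1))) (kil (ω m)) 4) (A * lam ^ m)) :
    ∃ m' L : ℕ, 20 ≤ L ∧ m < m' ∧ m' ≤ m + L + 66 ∧ NS ω A m' ∧
      ∀ i < L, ω (m + i) = ω m := by
  classical
  obtain ⟨j, hj1, hj2⟩ := hω.chg m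
  have hex : ∃ L, 1 ≤ L ∧ chg ω (m + L) :=
    ⟨j - m, by omega, by rw [show m + (j - m) = j by omega]; exact hj2⟩
  set L := Nat.find hex with hLdef
  obtain ⟨hL1, hL2⟩ := Nat.find_spec hex
  have hLmin : ∀ l < L, ¬ (1 ≤ l ∧ chg ω (m + l)) := fun l hl => Nat.find_min hex hl
  have hL20 : 20 < L := by
    by_contra hlt
    push Not at hlt
    exact hL.2 (m + L) (by omega) (by omega) hL2
  have hconst : ∀ i < L, ω (m + i) = ω m := by
    intro i
    induction i with
    | zero => intro _; rfl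
    | succ i ih =>
      intro hi
      have h1 := ih (by omega)
      have h2 := hLmin (i + 1) hi
      unfold chg at h2
      push Not at h2
      have h3 := h2 (by omega) (by omega)
      rw [← h3, ← h1]
      congr 1
  set κ := kil (ω m) with hκdef
  set x := kil (ω (m - 1)) with hxdef
  have hxκ : x ≠ κ := by
    intro he
    exact hL.1.2 (kil_inj he)
  have hκr : ∀ i < L, kil (ω (m + i)) = κ := fun i hi => by rw [hconst i hi]
  have hA0 : (0 : ℝ) ≤ A := by
    have : (0 : ℝ) ≤ N' := by positivity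
    linarith
  have hN0 : (0 : ℝ) ≤ N' := by positivity
  have hpm := lam_pow_pos m
  -- the state at the end of the run
  have hend := run_end (by omega) hκr hxκ hE (tw_T2 ω m x)
    (tw_κa ω m κ (Or.inr (by rw [← hxdef]; exact Ne.symm hxκ)))
  set m' := m + L with hm'
  have hkm' : kil (ω (m' - 1)) = κ := by
    have := hκr (L - 1) (by omega)
    rwa [show m + (L - 1) = m' - 1 by omega] at this
  have hm1 : 1 ≤ m' := by omega
  have hkne : κ ≠ kil (ω m') := by
    rw [← hkm']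
    intro he
    exact hL2.2 (kil_inj he)
  have hratio := lam_ratio (show 20 ≤ L by omega)
  have hBX : 2 * (((2 : ℝ) ^ (L - 2) + 1) * (A * lam ^ m + 2 * (13 * lam ^ m))) +
      2 * (7 * lam ^ m) ≤ (A + 26) / 64 * lam ^ m' := by
    have h1 : (2 : ℝ) ^ L = 4 * 2 ^ (L - 2) := by
      have : L = (L - 2) + 2 := by omega
      conv_lhs => rw [this, pow_add]
      ring
    have h2 : (1 : ℝ) * 2 ^ 18 ≤ 2 ^ (L - 2) := by
      rw [one_mul]
      exact pow_le_pow_right₀ (by norm_num) (by omega)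
    have h3 : 2 * (((2 : ℝ) ^ (L - 2) + 1) * (A * lam ^ m + 2 * (13 * lam ^ m))) +
        2 * (7 * lam ^ m) ≤ 2 ^ L * ((A + 26) * lam ^ m) := by
      rw [h1]
      have h4 : (0 : ℝ) ≤ (A + 26) * lam ^ m := by positivity
      have h5 : 14 * lam ^ m ≤ (A + 26) * lam ^ m := by
        gcongr
        linarith
      nlinarith
    refine h3.trans ?_
    have h6 : (0 : ℝ) ≤ (A + 26) * lam ^ m := by positivity
    calc (2 : ℝ) ^ L * ((A + 26) * lam ^ m) = (64 * 2 ^ L) * ((A + 26) * lam ^ m) / 64 := by ring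
      _ ≤ lam ^ L * ((A + 26) * lam ^ m) / 64 := by gcongr
      _ = (A + 26) / 64 * lam ^ m' := by
        rw [hm', pow_add]
        ring
  have hend' := St_mono hend (fun _ h => h) hBX
  have hpm' := lam_pow_pos m'
  by_cases hD0 : Lrs ω m'
  · -- a long run begins at once
    refine ⟨m', L, by omega, by omega, by omega, Or.inl ⟨hD0, ?_⟩, hconst⟩
    rw [hkm']
    have h1 := step_0 (κ := kil (ω m')) hm1 hkm' hend'
    refine Ex_mono h1 ?_
    nlinarith
  by_cases hD1 : Lrs ω (m' + 1)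
  · refine ⟨m' + 1, L, by omega, by omega, by omega, Or.inl ⟨hD1, ?_⟩, hconst⟩
    have e1 : m' + 1 - 1 = m' := by omega
    rw [e1]
    have hc1 := hD1.const 1 (by omega)
    have h1 := step_1 (x := kil (ω m')) (κB := kil (ω (m' + 1))) hm1 hkm' rfl hkne rfl
      (by rw [← hc1])
      (by
        intro he
        have := hD1.1.2
        rw [e1] at this
        exact this (kil_inj he)) (hJ1 m' hm1) hend'
    refine Ex_mono h1 ?_
    have h2 : lam ^ m' ≤ lam ^ (m' + 1) := lam_pow_mono (Nat.le_succ _)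
    have h3 := lam_pow_pos (m' + 1)
    have h4 : (A + 26) / 64 * lam ^ m' ≤ (A + 26) / 64 * lam ^ (m' + 1) := by gcongr
    nlinarith
  · have hmove := St_move hm1 hkm' rfl hkne hend'
    have key : ∀ r, 2 ≤ r → r < 66 → (Lrs ω (m' + r) ∨ Bpt ω (m' + r)) → NS ω A (m' + r) := by
      intro r hr hr' ht
      obtain ⟨h, h2, k1, k2, k3⟩ := target hJ ht
      apply k3
      have h4 := step_G hm1 (hJ' m' r hm1 (by omega)) hmove
        (by
          intro g hg t ht'
          exact hg t (by omega)) k1 k2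
      refine Ex_mono h4 ?_
      have l1 := two_pow_le r
      have hX : (0 : ℝ) ≤ (2 * (4 * (2 * ((A + 26) / 64 * lam ^ m') + 2 * (7 * lam ^ m')) +
          6 * ((36 * N' + 15) * lam ^ m'))) := by positivity
      calc (2 : ℝ) ^ r * (2 * (4 * (2 * ((A + 26) / 64 * lam ^ m') + 2 * (7 * lam ^ m')) +
          6 * ((36 * N' + 15) * lam ^ m'))) ≤ lam ^ r *
          (2 * (4 * (2 * ((A + 26) / 64 * lam ^ m') + 2 * (7 * lam ^ m')) +
          6 * ((36 * N' + 15) * lam ^ m'))) := by gcongr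
        _ = ((A + 26) / 4 + 112 + 12 * (36 * N' + 15)) * lam ^ (m' + r) := by
          rw [pow_add]
          ring
        _ ≤ A * lam ^ (m' + r) := by
          have := lam_pow_pos (m' + r)
          gcongr
          linarith
    by_cases hex2 : ∃ D, 2 ≤ D ∧ D < 66 ∧ Lrs ω (m' + D)
    · obtain ⟨D, h1, h2, h3⟩ := hex2
      exact ⟨m' + D, L, by omega, by omega, by omega, key D h1 h2 (Or.inl h3), hconst⟩
    · push Not at hex2
      have hno : ∀ j, m' ≤ j → j < m' + 66 → ¬ Lrs ω j := by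
        intro j h1 h2
        by_cases h3 : j = m'
        · rw [h3]
          exact hD0
        by_cases h4 : j = m' + 1
        · rw [h4]
          exact hD1
        have := hex2 (j - m') (by omega) (by omega)
        rwa [show m' + (j - m') = j by omega] at this
      refine ⟨m' + 2, L, by omega, by omega, by omega, key 2 le_rfl (by omega) (Or.inr ?_), hconst⟩
      refine ⟨by omega, ?_, fun j h1 h2 => hno j (by omega) (by omega)⟩
      exact chain ⟨m', le_rfl, by omega, hL2⟩ 2 (fun j h1 h2 => hno j h1 (by omega))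

end Pool.Agent.H342_Full
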