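import Pool.Agent.H342_Gap.GrigFin
import Pool.Agent.H342_Gap.Assembly

/-!
`G_ω` has polynomial growth if `ω` is eventually constant.
-/

set_option autoImplicit false

namespace Pool.Agent.H342_Full

open Pool.Agent.Results.MP_03d093_al.SphereBall Pool.Agent.H776R2.Grig Pool.Agent.H776R2.Om
open Pool.Agent.H342_Gap

/-- a word acts on the two subtrees by words which are not longer -/
theorem word_split (ω : Om) (w : List Lt) : ∃ (s : Bool) (f : Bool → List Lt),
    (∀ b, (f b).length ≤ w.length) ∧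
      ∀ b v, evo ω w (b :: v) = (xor b s) :: evo (sh ω) (f b) v := by
  induction w with
  | nil => exact ⟨false, fun _ => [], fun _ => le_rfl, fun b v => by simp [evo_nil]⟩
  | cons t w ih =>
    obtain ⟨s, f, h1, h2⟩ := ih
    have hx : ∀ x : V, gno ω t = xx ω x → gno (sh ω) t = xx (sh ω) x →
        ∃ (s : Bool) (f : Bool → List Lt), (∀ b, (f b).length ≤ (t :: w).length) ∧
          ∀ b v, evo ω (t :: w) (b :: v) = (xor b s) :: evo (sh ω) (f b) v := by
      intro x hx hx'
      refine ⟨s, fun b => if xor b s then t :: f b else if col (ω 0) x then .A :: f b else f b,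
        ?_, ?_⟩
      · intro b
        have h3 := h1 b
        rw [List.length_cons]
        beta_reduce
        by_cases h : xor b s = true
        · rw [if_pos h, List.length_cons]
          omega
        · rw [if_neg h]
          by_cases hc : col (ω 0) x = true
          · rw [if_pos hc, List.length_cons]
            omega
          · rw [if_neg hc]
            omega
      · intro b v
        rw [evo_cons, Equiv.Perm.mul_apply, h2, hx, xx_apply]
        beta_reduce
        by_cases h : xor b s = true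
        · rw [if_pos h, h, evo_cons, hx']
          rfl
        · rw [if_neg h]
          rw [Bool.not_eq_true] at h
          rw [h]
          by_cases hc : col (ω 0) x = true
          · rw [if_pos hc, evo_cons]
            simp only [xFun, hc, if_true]
            rfl
          · rw [if_neg hc]
            simp only [xFun, hc]
            rfl
    cases t
    · refine ⟨!s, f, fun b => (h1 b).trans (by simp), ?_⟩
      intro b v
      rw [evo_cons, Equiv.Perm.mul_apply, h2]
      have h3 : ∀ (y : Bool) (u : List Bool), (gno ω Lt.A : P) (y :: u) = (!y) :: u := fun _ _ => rfl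
      rw [h3]
      cases b <;> cases s <;> rfl
    · exact hx .b rfl rfl
    · exact hx .c rfl rfl
    · exact hx .d rfl rfl

/-- balls as sets of permutations -/
theorem ballO_card (ω : Om) (n : ℕ) :
    ballO ω n = Nat.card {g : P | ∃ w : List Lt, w.length ≤ n ∧ evo ω w = g} := by
  unfold ballO
  refine Nat.card_congr ⟨fun g => ⟨(g.1 : P), ?_⟩, fun g => ⟨⟨g.1, ?_⟩, ?_⟩, ?_, ?_⟩
  · obtain ⟨w, hw, hg⟩ := exists_geodo ω g.1
    exact ⟨w, hw.le.trans g.2, by rw [← hg]; rfl⟩
  · obtain ⟨w, -, hw⟩ := g.2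
    rw [← hw]
    exact evo_mem ω w
  · obtain ⟨w, hw, hg⟩ := g.2
    have h1 := lenO_le ω w
    have h2 : evG ω w = ⟨g.1, by rw [← hg]; exact evo_mem ω w⟩ := Subtype.ext hg
    rw [h2] at h1
    exact h1.trans hw
  · intro g
    rfl
  · intro g
    rfl

theorem ballset_finite (ω : Om) (n : ℕ) :
    {g : P | ∃ w : List Lt, w.length ≤ n ∧ evo ω w = g}.Finite := by
  have h : {w : List Lt | w.length ≤ n}.Finite := List.finite_length_le Lt n
  refine (h.image (evo ω)).subset ?_
  rintro g ⟨w, hw, rfl⟩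
  exact ⟨w, hw, rfl⟩

theorem ball_shift (ω : Om) (n : ℕ) : ballO ω n ≤ 2 * ballO (sh ω) n ^ 2 := by
  rw [ballO_card, ballO_card]
  set B := {g : P | ∃ w : List Lt, w.length ≤ n ∧ evo (sh ω) w = g} with hB
  have : Finite B := ballset_finite (sh ω) n
  have key : ∀ g : {g : P | ∃ w : List Lt, w.length ≤ n ∧ evo ω w = g}, ∃ (s : Bool) (f : Bool → B),
      ∀ b v, g.1 (b :: v) = (xor b s) :: (f b).1 v := by
    rintro ⟨g, w, hw, rfl⟩
    obtain ⟨s, f, h1, h2⟩ := word_split ω w
    exact ⟨s, fun b => ⟨evo (sh ω) (f b), f b, (h1 b).trans hw, rfl⟩, h2⟩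
  choose s f h using key
  have hinj : Function.Injective (fun g => (s g, f g false, f g true)) := by
    intro g g' hg
    simp only [Prod.mk.injEq] at hg
    obtain ⟨h1, h2, h3⟩ := hg
    apply Subtype.ext
    ext1 v
    rcases v with _ | ⟨b, v⟩
    · obtain ⟨w, -, hw⟩ := g.2
      obtain ⟨w', -, hw'⟩ := g'.2
      rw [← hw, ← hw', evo_nil_apply, evo_nil_apply]
    · rw [h, h, h1]
      cases b
      · rw [h2]
      · rw [h3]
  have := Nat.card_le_card_of_injective _ hinj
  rw [Nat.card_prod, Nat.card_prod] at this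
  simp only [Nat.card_eq_fintype_card, Fintype.card_bool] at this ⊢
  calc _ ≤ _ := this
    _ = _ := by ring

/-- constant sequences -/
theorem const_kil {ω : Om} (h : ∀ i, ω i = ω 0) (x : V) (hx : x = kil (ω 0)) : xx ω x = 1 := by
  ext1 v
  rw [xx_apply, Equiv.Perm.one_apply]
  induction v generalizing ω with
  | nil => rfl
  | cons b v ih =>
    cases b
    · have : col (ω 0) x = false := by rw [col_eq, hx]; simp
      simp [xFun, this]
    · have h' : ∀ i, sh ω i = sh ω 0 := fun i => (h (i + 1)).trans (h 1).symm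
      have hx' : x = kil (sh ω 0) := by
        rw [hx]
        exact congrArg kil (h 1).symm
      simp only [xFun]
      rw [ih h' hx']

theorem const_ne {ω : Om} (h : ∀ i, ω i = ω 0) (x y : V) (hx : x ≠ kil (ω 0)) (hy : y ≠ kil (ω 0)) :
    xx ω x = xx ω y := by
  ext1 v
  rw [xx_apply, xx_apply]
  induction v generalizing ω with
  | nil => rfl
  | cons b v ih =>
    cases b
    · have h1 : col (ω 0) x = true := by rw [col_eq]; simpa using hx
      have h2 : col (ω 0) y = true := by rw [col_eq]; simpa using hy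
      simp [xFun, h1, h2]
    · have h' : ∀ i, sh ω i = sh ω 0 := fun i => (h (i + 1)).trans (h 1).symm
      have e : sh ω 0 = ω 0 := h 1
      simp only [xFun]
      rw [ih h' (by rwa [e]) (by rwa [e])]

theorem dih_x {G : Type} [Group G] {x t : G} (hx : x * x = 1) (h : x * t * x = t⁻¹) (k : ℤ) :
    x * t ^ k = t ^ (-k) * x := by
  have h1 : x * t ^ k * x = t ^ (-k) := by
    have hx' : x⁻¹ = x := inv_eq_of_mul_eq_one_left hx
    have h2 : x * t * x⁻¹ = t⁻¹ := by rw [hx', h]
    calc x * t ^ k * x = x * t ^ k * x⁻¹ := by rw [hx']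
      _ = (x * t * x⁻¹) ^ k := conj_zpow.symm
      _ = t ^ (-k) := by rw [h2, inv_zpow']
  calc x * t ^ k = x * t ^ k * (x * x) := by rw [hx, mul_one]
    _ = x * t ^ k * x * x := by group
    _ = _ := by rw [h1]

theorem const_word {ω : Om} (h : ∀ i, ω i = ω 0) (w : List Lt) : ∃ x : V, x ≠ kil (ω 0) ∧
    ∃ (k : ℤ) (e : Bool), |k| ≤ w.length ∧
      evo ω w = (xx ω x * a) ^ k * (if e then a else 1) := by
  obtain ⟨x, hx⟩ : ∃ x : V, x ≠ kil (ω 0) := by
    cases kil (ω 0)
    · exact ⟨.c, by simp⟩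
    · exact ⟨.b, by simp⟩
    · exact ⟨.b, by simp⟩
  refine ⟨x, hx, ?_⟩
  have hxx := xx_sq ω x
  have haa : (a : P) * a = 1 := aa
  have hxi : (xx ω x)⁻¹ = xx ω x := inv_eq_of_mul_eq_one_left hxx
  have hai : (a : P)⁻¹ = a := inv_eq_of_mul_eq_one_left haa
  have hti : (xx ω x * a)⁻¹ = a * xx ω x := by rw [mul_inv_rev, hxi, hai]
  have htx : xx ω x * (xx ω x * a) * xx ω x = (xx ω x * a)⁻¹ := by
    rw [hti, ← mul_assoc, hxx, one_mul]
  have hta : a * (xx ω x * a) * a = (xx ω x * a)⁻¹ := by
    rw [hti, ← mul_assoc, mul_assoc _ a a, haa, mul_one]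
  have hxt : xx ω x = (xx ω x * a) ^ (1 : ℤ) * a := by
    rw [zpow_one, mul_assoc, haa, mul_one]
  have stepA : ∀ (k : ℤ) (e : Bool), a * ((xx ω x * a) ^ k * (if e then a else 1)) =
      (xx ω x * a) ^ (-k) * (if !e then a else 1) := by
    intro k e
    rw [← mul_assoc, dih_x haa hta, mul_assoc]
    cases e
    · simp
    · simp [haa]
  have stepX : ∀ (k : ℤ) (e : Bool), xx ω x * ((xx ω x * a) ^ k * (if e then a else 1)) =
      (xx ω x * a) ^ (-k + 1) * (if !e then a else 1) := by
    intro k e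
    rw [← mul_assoc, dih_x hxx htx, zpow_add]
    nth_rewrite 2 [hxt]
    rw [mul_assoc, mul_assoc, mul_assoc]
    cases e
    · simp
    · simp [haa]
  induction w with
  | nil => exact ⟨0, false, by simp, by simp [evo_nil]⟩
  | cons s w ih =>
    obtain ⟨k, e, hk, he⟩ := ih
    have hX : ∀ y : V, gno ω s = xx ω y → ∃ (k : ℤ) (e : Bool), |k| ≤ (s :: w).length ∧
        evo ω (s :: w) = (xx ω x * a) ^ k * (if e then a else 1) := by
      intro y hy
      by_cases hyk : y = kil (ω 0)
      · refine ⟨k, e, by push_cast [List.length_cons]; linarith, ?_⟩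
        rw [evo_cons, hy, const_kil h y hyk, one_mul, he]
      · refine ⟨-k + 1, !e, ?_, ?_⟩
        · push_cast [List.length_cons]
          have := abs_le.1 hk
          rw [abs_le]
          constructor <;> linarith
        · rw [evo_cons, hy, const_ne h y x hyk hx, he, stepX]
    cases s
    · refine ⟨-k, !e, by rw [abs_neg]; push_cast [List.length_cons]; linarith, ?_⟩
      rw [evo_cons, he]
      exact stepA k e
    · exact hX .b rfl
    · exact hX .c rfl
    · exact hX .d rfl

theorem ball_const {ω : Om} (h : ∀ i, ω i = ω 0) (n : ℕ) : ballO ω n ≤ 3 * (2 * (2 * n + 1)) := by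
  rw [ballO_card]
  have hsub : {g : P | ∃ w : List Lt, w.length ≤ n ∧ evo ω w = g} ⊆
      (fun q : V × ℤ × Bool => (xx ω q.1 * a) ^ q.2.1 * (if q.2.2 then a else 1)) ''
        ((({.b, .c, .d} : Finset V) ×ˢ (Finset.Icc (-(n : ℤ)) n ×ˢ (Finset.univ : Finset Bool)) :
          Finset (V × ℤ × Bool)) : Set (V × ℤ × Bool)) := by
    rintro g ⟨w, hw, rfl⟩
    obtain ⟨x, -, k, e, hk, he⟩ := const_word h w
    refine ⟨(x, k, e), ?_, he.symm⟩
    have h1 : |k| ≤ n := hk.trans (by exact_mod_cast hw)
    rw [abs_le] at h1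
    simp only [Finset.coe_product, Set.mem_prod, Finset.mem_coe, Finset.mem_Icc, Finset.mem_univ,
      and_true]
    refine ⟨?_, h1⟩
    cases x <;> simp
  have h1 := Nat.card_mono (Set.Finite.image _ (Finset.finite_toSet _)) hsub
  have h2 := Nat.card_image_le (s := ((({.b, .c, .d} : Finset V) ×ˢ
    (Finset.Icc (-(n : ℤ)) n ×ˢ (Finset.univ : Finset Bool)) : Finset (V × ℤ × Bool)) :
      Set (V × ℤ × Bool)))
    (f := fun q : V × ℤ × Bool => (xx ω q.1 * a) ^ q.2.1 * (if q.2.2 then a else 1))
    (Finset.finite_toSet _)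
  refine (h1.trans h2).trans ?_
  rw [Nat.card_eq_fintype_card]
  simp only [Fintype.card_coe, Finset.card_product, Finset.coe_sort_coe, Int.card_Icc,
    Finset.card_univ, Fintype.card_bool]
  have h3 : ({.b, .c, .d} : Finset V).card ≤ 3 := Finset.card_le_three
  have h4 : ((n : ℤ) + 1 - -(n : ℤ)).toNat = 2 * n + 1 := by omega
  rw [h4]
  calc _ ≤ 3 * ((2 * n + 1) * 2) := Nat.mul_le_mul_right _ h3
    _ = _ := by ring

theorem poly_of_sh {ω : Om} (h : PolyG (ballO (sh ω))) : PolyG (ballO ω) := by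
  obtain ⟨C, d, h⟩ := h
  refine ⟨2 * (C + 1), 2 * d + 1, fun n hn => ?_⟩
  have h1 := h n hn
  have h2 := ball_shift ω n
  have h3 : C * n ≤ 2 * (C + 1) * n := by nlinarith
  have h4 : 2 ≤ 2 * (C + 1) * n := by nlinarith
  calc ballO ω n ≤ 2 * ballO (sh ω) n ^ 2 := h2
    _ ≤ 2 * ((2 * (C + 1) * n) ^ d) ^ 2 := by
      gcongr
      exact h1.trans (Nat.pow_le_pow_left h3 d)
    _ = 2 * (2 * (C + 1) * n) ^ (2 * d) := by rw [← pow_mul, mul_comm d 2]
    _ ≤ (2 * (C + 1) * n) * (2 * (C + 1) * n) ^ (2 * d) := Nat.mul_le_mul_right _ h4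
    _ = (2 * (C + 1) * n) ^ (2 * d + 1) := by ring

/-- **`G_ω` has polynomial growth if `ω` is eventually constant** -/
theorem poly_of_const (n : ℕ) : ∀ {ω : Om}, (∀ i, n ≤ i → ω i = ω (i + 1)) → PolyG (gro (SO ω)) := by
  suffices h : ∀ {ω : Om}, (∀ i, n ≤ i → ω i = ω (i + 1)) → PolyG (ballO ω) by
    intro ω hω
    have e : gro (SO ω) = ballO ω := funext (gro_SO ω)
    rw [e]
    exact h hω
  induction n with
  | zero =>
    intro ω h
    have h' : ∀ i, ω i = ω 0 := by
      intro i
      induction i with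
      | zero => rfl
      | succ i ih => rw [← h i (Nat.zero_le _), ih]
    refine ⟨18, 1, fun n hn => (ball_const h' n).trans ?_⟩
    rw [pow_one]
    omega
  | succ n ih =>
    intro ω h
    apply poly_of_sh
    apply ih
    intro i hi
    exact h (i + 1) (by omega)

end Pool.Agent.H342_Full
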