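import Pool.Agent.H776R2.Om.Special

/-!
Sections of permutations of the binary words at the vertices of a fixed level.
-/

set_option autoImplicit false

namespace Pool.Agent.H342_Full

open Pool.Agent.Results.MP_03d093_al.SphereBall Pool.Agent.H776R2.Grig Pool.Agent.H776R2.Om

/-- `g` fixes the words of length `n` and acts as `F v` below `v` -/
def SecAt (n : ℕ) (F : List Bool → P) (g : P) : Prop :=
  ∀ v w : List Bool, v.length = n → g (v ++ w) = v ++ F v w

theorem secAt_congr {n : ℕ} {F F' : List Bool → P} {g : P} (h : SecAt n F g)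
    (hF : ∀ v, v.length = n → F v = F' v) : SecAt n F' g := by
  intro v w hv
  rw [h v w hv, hF v hv]

theorem secAt_unique {n : ℕ} {F F' : List Bool → P} {g : P} (h : SecAt n F g)
    (h' : SecAt n F' g) (v : List Bool) (hv : v.length = n) : F v = F' v := by
  ext1 w
  have := (h v w hv).symm.trans (h' v w hv)
  exact List.append_cancel_left this

theorem secAt_one (n : ℕ) : SecAt n (fun _ => 1) 1 := fun _ _ _ => rfl

theorem secAt_zero (g : P) : SecAt 0 (fun _ => g) g := by
  intro v w hv
  rw [List.length_eq_zero_iff] at hv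
  subst hv
  simp

theorem secAt_mul {n : ℕ} {F F' : List Bool → P} {g g' : P} (h : SecAt n F g)
    (h' : SecAt n F' g') : SecAt n (fun v => F v * F' v) (g * g') := by
  intro v w hv
  rw [Equiv.Perm.mul_apply, h' v w hv, h v _ hv]
  rfl

theorem secAt_inv {n : ℕ} {F : List Bool → P} {g : P} (h : SecAt n F g) :
    SecAt n (fun v => (F v)⁻¹) g⁻¹ := by
  intro v w hv
  rw [Equiv.Perm.inv_eq_iff_eq, h v _ hv]
  simp

theorem secAt_conj {n : ℕ} {F F' : List Bool → P} {g g' : P} (h : SecAt n F g)
    (h' : SecAt n F' g') : SecAt n (fun v => F v * F' v * (F v)⁻¹) (g * g' * g⁻¹) :=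
  secAt_mul (secAt_mul h h') (secAt_inv h)

theorem secAt_comm {n : ℕ} {F F' : List Bool → P} {g g' : P} (h : SecAt n F g)
    (h' : SecAt n F' g') :
    SecAt n (fun v => F v * F' v * (F v)⁻¹ * (F' v)⁻¹) (g * g' * g⁻¹ * g'⁻¹) :=
  secAt_mul (secAt_conj h h') (secAt_inv h')

theorem secAt_comp {n k : ℕ} {F : List Bool → P} {H : List Bool → List Bool → P} {g : P}
    (h : SecAt n F g) (hF : ∀ v, v.length = n → SecAt k (H v) (F v)) :
    SecAt (n + k) (fun u => H (u.take n) (u.drop n)) g := by
  intro u w hu
  have h1 : (u.take n).length = n := by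
    rw [List.length_take]
    omega
  have h2 : (u.drop n).length = k := by
    rw [List.length_drop]
    omega
  have e : u ++ w = u.take n ++ (u.drop n ++ w) := by
    rw [← List.append_assoc, List.take_append_drop]
  rw [e, h _ _ h1, hF _ h1 _ _ h2, ← List.append_assoc, List.take_append_drop]

theorem secAt_sec {n : ℕ} {F0 F1 : List Bool → P} {g g0 g1 : P} (h : Sec g g0 g1)
    (h0 : SecAt n F0 g0) (h1 : SecAt n F1 g1) :
    SecAt (n + 1) (fun u => if u.headD false then F1 u.tail else F0 u.tail) g := by
  intro u w hu
  cases u with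
  | nil => simp at hu
  | cons y u =>
    have hu' : u.length = n := by simpa using hu
    cases y
    · rw [List.cons_append, (h _).1, h0 u w hu']
      simp
    · rw [List.cons_append, (h _).2, h1 u w hu']
      simp

theorem sec_secAt {g g0 g1 : P} (h : Sec g g0 g1) :
    SecAt 1 (fun u => if u.headD false then g1 else g0) g := by
  have := secAt_sec h (secAt_zero g0) (secAt_zero g1)
  exact this

theorem secAt_root_conj {n : ℕ} {F : List Bool → P} {g : P} (hn : 1 ≤ n) (h : SecAt n F g) :
    SecAt n (fun u => F (aFun u)) (a * g * a) := by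
  intro u w hu
  have h1 : (aFun u).length = n := by rw [A_afun_len, hu]
  rw [Equiv.Perm.mul_apply, Equiv.Perm.mul_apply, a_apply, a_apply,
    A_afun_append u _ (by omega), h (aFun u) w h1, A_afun_append (aFun u) _ (by omega),
    aFun_invol u]

/-! Automorphisms. -/

/-- `g` and its inverse are automorphisms of the tree -/
def TT (g : P) : Prop := TA g ∧ TA g⁻¹

theorem TT_one : TT 1 := ⟨⟨fun _ => rfl, fun _ _ => rfl⟩, ⟨fun _ => rfl, fun _ _ => rfl⟩⟩

theorem TA_mul {g h : P} (hg : TA g) (hh : TA h) : TA (g * h) := by
  refine ⟨fun v => ?_, fun v n => ?_⟩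
  · rw [Equiv.Perm.mul_apply, hg.1, hh.1]
  · rw [Equiv.Perm.mul_apply, Equiv.Perm.mul_apply, hg.2, hh.2]

theorem TT_mul {g h : P} (hg : TT g) (hh : TT h) : TT (g * h) := by
  refine ⟨TA_mul hg.1 hh.1, ?_⟩
  rw [mul_inv_rev]
  exact TA_mul hh.2 hg.2

theorem TT_inv {g : P} (hg : TT g) : TT g⁻¹ := by
  refine ⟨hg.2, ?_⟩
  rw [inv_inv]
  exact hg.1

theorem TT_evo (ω : Om) (w : List Lt) : TT (evo ω w) := by
  refine ⟨ta_evo ω w, ?_⟩
  rw [← evo_reverse]
  exact ta_evo ω _

theorem TT_xx (ω : Om) (x : V) : TT (xx ω x) := by
  have := TT_evo ω [x.lt]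
  rwa [evo_cons, evo_nil, mul_one, gno_lt] at this

theorem TT_a : TT a := by
  have := TT_evo (fun _ => 0) [Lt.A]
  rwa [evo_cons, evo_nil, mul_one] at this

theorem TA_sec {n : ℕ} {F : List Bool → P} {g : P} (h : SecAt n F g) (hg : TA g)
    (v : List Bool) (hv : v.length = n) : TA (F v) := by
  refine ⟨fun w => ?_, fun w k => ?_⟩
  · have h1 := hg.1 (v ++ w)
    rw [h v w hv, List.length_append, List.length_append] at h1
    omega
  · have h1 := hg.2 (v ++ w) (n + k)
    rw [h v w hv, List.take_append, List.take_append, List.take_of_length_le (by omega),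
      hv, show n + k - n = k by omega, h v _ hv] at h1
    exact List.append_cancel_left h1

theorem TT_sec {n : ℕ} {F : List Bool → P} {g : P} (h : SecAt n F g) (hg : TT g)
    (v : List Bool) (hv : v.length = n) : TT (F v) :=
  ⟨TA_sec h hg.1 v hv, TA_sec (secAt_inv h) hg.2 v hv⟩

/-- the section of an automorphism fixing a level, as a permutation -/
theorem exists_secAt {n : ℕ} {g : P} (hg : TT g) (hfix : ∀ v : List Bool, v.length = n → g v = v) :
    ∃ F, SecAt n F g := by
  have key : ∀ (g : P), TA g → (∀ v : List Bool, v.length = n → g v = v) →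
      ∀ v w : List Bool, v.length = n → g (v ++ w) = v ++ (g (v ++ w)).drop n := by
    intro g hg hfix v w hv
    have h1 := hg.2 (v ++ w) n
    have e : (v ++ w).take n = v := by
      rw [List.take_append_of_le_length (by omega), List.take_of_length_le (by omega)]
    rw [e, hfix v hv] at h1
    conv_lhs => rw [← List.take_append_drop n (g (v ++ w)), h1]
  have hfix' : ∀ v : List Bool, v.length = n → g⁻¹ v = v := by
    intro v hv
    rw [Equiv.Perm.inv_eq_iff_eq, hfix v hv]
  have k1 := key g hg.1 hfix
  have k2 := key g⁻¹ hg.2 hfix'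
  let F : List Bool → P := fun v => if hv : v.length = n then
    { toFun := fun w => (g (v ++ w)).drop n
      invFun := fun w => (g⁻¹ (v ++ w)).drop n
      left_inv := by
        intro w
        show (g⁻¹ (v ++ (g (v ++ w)).drop n)).drop n = w
        have e : g⁻¹ (g (v ++ w)) = v ++ w := Equiv.symm_apply_apply g _
        rw [← k1 v w hv, e, List.drop_append, hv, Nat.sub_self,
          List.drop_of_length_le (by omega)]
        rfl
      right_inv := by
        intro w
        show (g (v ++ (g⁻¹ (v ++ w)).drop n)).drop n = w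
        have e : g (g⁻¹ (v ++ w)) = v ++ w := Equiv.apply_symm_apply g _
        rw [← k2 v w hv, e, List.drop_append, hv, Nat.sub_self,
          List.drop_of_length_le (by omega)]
        rfl } else 1
  refine ⟨F, fun v w hv => ?_⟩
  have : F v w = (g (v ++ w)).drop n := by
    simp only [F, dif_pos hv]
    rfl
  rw [this]
  exact k1 v w hv

/-! Parity of the number of zeros. -/

/-- parity of the number of zeros (letters `false`) -/
def zp : List Bool → Bool
  | [] => false
  | false :: w => !zp w
  | true :: w => zp w

theorem zp_append (u v : List Bool) : zp (u ++ v) = xor (zp u) (zp v) := by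
  induction u with
  | nil => simp [zp]
  | cons x u ih => cases x <;> simp [zp, ih]

theorem zp_aFun (u : List Bool) (hu : 1 ≤ u.length) : zp (aFun u) = !zp u := by
  cases u with
  | nil => simp at hu
  | cons x u => cases x <;> simp [zp, aFun]

/-! The vertices of a level. -/

/-- the words of length `r` -/
def bits : ℕ → List (List Bool)
  | 0 => [[]]
  | r + 1 => (bits r).map (fun u => false :: u) ++ (bits r).map (fun u => true :: u)

theorem bits_length (r : ℕ) : (bits r).length = 2 ^ r := by
  induction r with
  | zero => rfl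
  | succ r ih => simp [bits, ih, pow_succ]; omega

theorem mem_bits (r : ℕ) (u : List Bool) : u ∈ bits r ↔ u.length = r := by
  induction r generalizing u with
  | zero => simp [bits]
  | succ r ih =>
    simp only [bits, List.mem_append, List.mem_map, ih]
    cases u with
    | nil => simp
    | cons x u => cases x <;> simp

theorem bits_nodup (r : ℕ) : (bits r).Nodup := by
  induction r with
  | zero => simp [bits]
  | succ r ih =>
    rw [bits, List.nodup_append]
    refine ⟨ih.map (fun _ _ h => by simpa using h), ih.map (fun _ _ h => by simpa using h), ?_⟩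
    intro x hx y hy hxy
    subst hxy
    simp only [List.mem_map] at hx hy
    obtain ⟨u, -, rfl⟩ := hx
    obtain ⟨v, -, h⟩ := hy
    simp at h

end Pool.Agent.H342_Full
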