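import Pool.Agent.H342_Full.Lamps

/-!
Elements with prescribed sections on a level, and commutators which pass to a deeper level.
-/

set_option autoImplicit false

namespace Pool.Agent.H342_Full

open Pool.Agent.Results.MP_03d093_al.SphereBall Pool.Agent.H776R2.Grig Pool.Agent.H776R2.Om
open Pool.Agent.H342_Gap

/-- every function on level `m` is realised with the section `s`, by words of length at most `B` -/
def Ex (ω : Om) (m : ℕ) (s : P) (B : ℝ) : Prop :=
  ∀ q : List Bool → Bool, ∃ w : List Lt, (w.length : ℝ) ≤ B ∧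
    SecAt m (fun v => if q v then s else 1) (evo ω w)

/-- the same on the vertices of one parity, with sections satisfying `Φ` and no condition at the
other vertices -/
def St (ω : Om) (m : ℕ) (Φ : P → Prop) (B : ℝ) : Prop :=
  ∀ (π : Bool) (q : List Bool → Bool), ∃ (w : List Lt) (F : List Bool → P),
    (w.length : ℝ) ≤ B ∧ SecAt m F (evo ω w) ∧
    ∀ v : List Bool, v.length = m → zp v = π → (q v = false → F v = 1) ∧ (q v = true → Φ (F v))

/-- the function `q` on level `m` is realised with the section `s` at the vertices `v t`, `v` of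
parity `π` -/
def Pc (ω : Om) (m r : ℕ) (π : Bool) (t : List Bool) (s : P) (X : ℝ) : Prop :=
  ∀ q : List Bool → Bool, ∃ w : List Lt, (w.length : ℝ) ≤ X ∧
    SecAt (m + r) (fun u => if zp (u.take m) = π ∧ u.drop m = t ∧ q (u.take m) = true then s else 1)
      (evo ω w)

theorem Ex_mono {ω : Om} {m : ℕ} {s : P} {B B' : ℝ} (h : Ex ω m s B) (hB : B ≤ B') :
    Ex ω m s B' := by
  intro q
  obtain ⟨w, hw, hs⟩ := h q
  exact ⟨w, hw.trans hB, hs⟩

theorem St_mono {ω : Om} {m : ℕ} {Φ Φ' : P → Prop} {B B' : ℝ} (h : St ω m Φ B)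
    (hΦ : ∀ g, Φ g → Φ' g) (hB : B ≤ B') : St ω m Φ' B' := by
  intro π q
  obtain ⟨w, F, hw, hs, hF⟩ := h π q
  exact ⟨w, F, hw.trans hB, hs, fun v hv hz => ⟨(hF v hv hz).1, fun hq => hΦ _ ((hF v hv hz).2 hq)⟩⟩

theorem Ex_St {ω : Om} {m : ℕ} {s : P} {B : ℝ} (h : Ex ω m s B) : St ω m (fun g => g = s) B := by
  intro π q
  obtain ⟨w, hw, hs⟩ := h q
  refine ⟨w, _, hw, hs, ?_⟩
  intro v _ _
  refine ⟨fun hq => by simp [hq], fun hq => by simp [hq]⟩

theorem Pc_mono {ω : Om} {m r : ℕ} {π : Bool} {t : List Bool} {s : P} {X X' : ℝ}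
    (h : Pc ω m r π t s X) (hX : X ≤ X') : Pc ω m r π t s X' := by
  intro q
  obtain ⟨w, hw, hs⟩ := h q
  exact ⟨w, hw.trans hX, hs⟩

theorem Ex_of_Pc {ω : Om} {m r : ℕ} {s : P} {X : ℝ}
    (h : ∀ (π : Bool) (t : List Bool), t.length = r → Pc ω m r π t s X) :
    Ex ω (m + r) s (2 ^ r * (2 * X)) := by
  intro q'
  have claim : ∀ ts : List (List Bool), ts.Nodup → (∀ t ∈ ts, t.length = r) →
      ∃ w : List Lt, (w.length : ℝ) ≤ ts.length * (2 * X) ∧
        SecAt (m + r) (fun u => if u.drop m ∈ ts ∧ q' u = true then s else 1) (evo ω w) := by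
    intro ts
    induction ts with
    | nil =>
      intro _ _
      refine ⟨[], by simp, ?_⟩
      rw [evo_nil]
      refine secAt_congr (secAt_one _) ?_
      intro u _
      simp
    | cons t ts ih =>
      intro hnd hlen
      rw [List.nodup_cons] at hnd
      obtain ⟨w, hw, hs⟩ := ih hnd.2 (fun t' ht' => hlen t' (List.mem_cons_of_mem _ ht'))
      have ht := hlen t (by simp)
      obtain ⟨w0, hw0, hs0⟩ := h false t ht (fun v => q' (v ++ t))
      obtain ⟨w1, hw1, hs1⟩ := h true t ht (fun v => q' (v ++ t))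
      refine ⟨w0 ++ w1 ++ w, ?_, ?_⟩
      · simp only [List.length_append, List.length_cons]
        push_cast
        nlinarith
      · rw [evo_append, evo_append]
        refine secAt_congr (secAt_mul (secAt_mul hs0 hs1) hs) ?_
        intro u hu
        by_cases hd : u.drop m = t
        · have e : u.take m ++ t = u := by
            rw [← hd, List.take_append_drop]
          have hnt : u.drop m ∉ ts := by
            rw [hd]
            exact hnd.1
          simp only [e, hd, List.mem_cons, true_or, true_and]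
          rw [hd] at hnt
          by_cases hq : q' u = true
          · rcases Bool.eq_false_or_eq_true (zp (u.take m)) with hz | hz
            · simp [hz, hq, hnt]
            · simp [hz, hq, hnt]
          · simp [hq]
        · simp [hd]
  obtain ⟨w, hw, hs⟩ := claim (bits r) (bits_nodup r) (fun t ht => (mem_bits r t).1 ht)
  refine ⟨w, ?_, ?_⟩
  · rw [bits_length] at hw
    push_cast at hw
    exact hw
  · refine secAt_congr hs ?_
    intro u hu
    have : u.drop m ∈ bits r := by
      rw [mem_bits, List.length_drop, hu]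
      omega
    simp [this]

/-! Commutators. -/

/-- the word of the commutator -/
def cw (u v : List Lt) : List Lt := u ++ v ++ u.reverse ++ v.reverse

theorem evo_cw (ω : Om) (u v : List Lt) :
    evo ω (cw u v) = evo ω u * evo ω v * (evo ω u)⁻¹ * (evo ω v)⁻¹ := by
  unfold cw
  rw [evo_append, evo_append, evo_append, evo_reverse, evo_reverse]

theorem cw_len (u v : List Lt) : ((cw u v).length : ℝ) = 2 * u.length + 2 * v.length := by
  unfold cw
  simp only [List.length_append, List.length_reverse]
  push_cast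
  ring

theorem fix_of_secAt {n : ℕ} {F : List Bool → P} {g : P} (hg : TA g) (h : SecAt n F g)
    (v : List Bool) (hv : v.length = n) : g v = v := by
  have h1 := h v [] hv
  rw [List.append_nil] at h1
  have h2 := hg.1 v
  rw [h1, List.length_append] at h2
  have h3 : (F v []).length = 0 := by omega
  rw [List.length_eq_zero_iff] at h3
  rw [h1, h3, List.append_nil]

theorem comm_local {r : ℕ} {t : List Bool} {s h h2 d d2 : P} (hs : TT s) (hd : TT d)
    (ht : t.length = r) (hst : s t ≠ t)
    (h1 : SecAt r (fun u => if u = t then h else 1) d)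
    (h1' : SecAt r (fun u => if u = t then h2 else 1) d2) :
    SecAt r (fun u => if u = t then h⁻¹ * h2 * h * h2⁻¹ else 1)
      ((s * d * s⁻¹ * d⁻¹) * d2 * (s * d * s⁻¹ * d⁻¹)⁻¹ * d2⁻¹) := by
  have hfix : ∀ v : List Bool, v.length = r → (s * d * s⁻¹) v = v := by
    intro v hv
    have hl : (s⁻¹ v).length = r := by rw [hs.2.1, hv]
    rw [Equiv.Perm.mul_apply, Equiv.Perm.mul_apply, fix_of_secAt hd.1 h1 _ hl]
    exact Equiv.apply_symm_apply s v
  obtain ⟨E, hE⟩ := exists_secAt (TT_mul (TT_mul hs hd) (TT_inv hs)) hfix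
  have hE1 : ∀ u : List Bool, u.length = r → u ≠ s t → E u = 1 := by
    intro u hu hne
    ext1 w
    have e1 := hE u w hu
    have hl : (s⁻¹ u).length = r := by rw [hs.2.1, hu]
    have e2 : s⁻¹ (u ++ w) = s⁻¹ u ++ (s⁻¹ (u ++ w)).drop r := by
      have := hs.2.2 (u ++ w) r
      have e : (u ++ w).take r = u := by
        rw [List.take_append_of_le_length (by omega), List.take_of_length_le (by omega)]
      rw [e] at this
      conv_lhs => rw [← List.take_append_drop r (s⁻¹ (u ++ w)), this]
    have hne' : s⁻¹ u ≠ t := by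
      intro h
      apply hne
      rw [← h]
      exact (Equiv.apply_symm_apply s u).symm
    have e3 : d (s⁻¹ (u ++ w)) = s⁻¹ (u ++ w) := by
      rw [e2, h1 _ _ hl]
      simp only [if_neg hne']
      rfl
    rw [Equiv.Perm.mul_apply, Equiv.Perm.mul_apply, e3] at e1
    have e4 : s (s⁻¹ (u ++ w)) = u ++ w := Equiv.apply_symm_apply s _
    rw [e4] at e1
    exact (List.append_cancel_left e1).symm
  have hc := secAt_comm (secAt_mul hE (secAt_inv h1)) h1'
  refine secAt_congr hc ?_
  intro u hu
  by_cases hut : u = t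
  · subst hut
    simp only [if_true]
    rw [hE1 u hu (Ne.symm hst)]
    group
  · simp only [if_neg hut]
    group

/-- passing to a deeper level with elements which move the vertex `t` -/
theorem Pc_of_move {ω : Om} {m r : ℕ} {Φ : P → Prop} {B K : ℝ} (hSt : St ω m Φ B)
    {t : List Bool} (ht : t.length = r) (hΦ : ∀ g, Φ g → g t ≠ t)
    {h h2 d d2 : P} (hd : TT d) (h1 : SecAt r (fun u => if u = t then h else 1) d)
    (h1' : SecAt r (fun u => if u = t then h2 else 1) d2)
    (hh : Half ω m d K) (hh' : Half ω m d2 K) (π : Bool) :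
    Pc ω m r π t (h⁻¹ * h2 * h * h2⁻¹) (4 * B + 6 * K) := by
  intro q
  obtain ⟨w, F, hw, hs, hF⟩ := hSt π q
  obtain ⟨w1, hw1, hs1⟩ := hh π
  obtain ⟨w2, hw2, hs2⟩ := hh' π
  refine ⟨cw (cw w w1) w2, ?_, ?_⟩
  · rw [cw_len, cw_len]
    linarith
  · rw [evo_cw, evo_cw]
    have hc := secAt_comm (secAt_comm hs hs1) hs2
    have hTT : ∀ v : List Bool, v.length = m → TT (F v) := fun v hv => TT_sec hs (TT_evo ω w) v hv
    have key := secAt_comp (k := r) (H := fun v u => if zp v = π ∧ u = t ∧ q v = true then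
      h⁻¹ * h2 * h * h2⁻¹ else 1) hc (by
        intro v hv
        by_cases hz : zp v = π
        · obtain ⟨f0, f1⟩ := hF v hv hz
          simp only [hz, if_true, true_and]
          rcases Bool.eq_false_or_eq_true (q v) with hq | hq
          · have hm := hΦ _ (f1 hq)
            have := comm_local (hTT v hv) hd ht hm h1 h1'
            refine secAt_congr this ?_
            intro u _
            simp [hq]
          · rw [f0 hq]
            have e : (1 * d * 1⁻¹ * d⁻¹ * d2 * (1 * d * 1⁻¹ * d⁻¹)⁻¹ * d2⁻¹ : P) = 1 := by group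
            rw [e]
            refine secAt_congr (secAt_one r) ?_
            intro u _
            simp [hq]
        · simp only [hz, if_false, false_and]
          have e : (F v * 1 * (F v)⁻¹ * 1⁻¹ * 1 * (F v * 1 * (F v)⁻¹ * 1⁻¹)⁻¹ * 1⁻¹ : P) = 1 := by
            group
          rw [e]
          exact secAt_one r)
    refine secAt_congr key ?_
    intro u _
    rfl

/-- passing to a deeper level with elements which have a given section at `t` -/
theorem Pc_of_sec {ω : Om} {m r : ℕ} {Φ : P → Prop} {B K : ℝ} (hSt : St ω m Φ B)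
    {t : List Bool} {k : P}
    (hΦ : ∀ g, Φ g → ∃ G : List Bool → P, SecAt r G g ∧ G t = k)
    {h d : P} (h1 : SecAt r (fun u => if u = t then h else 1) d)
    (hh : Half ω m d K) (π : Bool) :
    Pc ω m r π t (k * h * k⁻¹ * h⁻¹) (2 * B + 2 * K) := by
  intro q
  obtain ⟨w, F, hw, hs, hF⟩ := hSt π q
  obtain ⟨w1, hw1, hs1⟩ := hh π
  refine ⟨cw w w1, ?_, ?_⟩
  · rw [cw_len]
    linarith
  · rw [evo_cw]
    have hc := secAt_comm hs hs1
    have key := secAt_comp (k := r) (H := fun v u => if zp v = π ∧ u = t ∧ q v = true then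
      k * h * k⁻¹ * h⁻¹ else 1) hc (by
        intro v hv
        by_cases hz : zp v = π
        · obtain ⟨f0, f1⟩ := hF v hv hz
          simp only [hz, if_true, true_and]
          rcases Bool.eq_false_or_eq_true (q v) with hq | hq
          · obtain ⟨G, hG, hGt⟩ := hΦ _ (f1 hq)
            refine secAt_congr (secAt_comm hG h1) ?_
            intro u _
            by_cases hut : u = t
            · subst hut
              simp [hq, hGt]
            · simp [hq, hut]
          · rw [f0 hq]
            have e : (1 * d * 1⁻¹ * d⁻¹ : P) = 1 := by group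
            rw [e]
            refine secAt_congr (secAt_one r) ?_
            intro u _
            simp [hq]
        · simp only [hz, if_false, false_and]
          have e : (F v * 1 * (F v)⁻¹ * 1⁻¹ : P) = 1 := by group
          rw [e]
          exact secAt_one r)
    refine secAt_congr key ?_
    intro u _
    rfl

theorem St_conj {ω : Om} {m : ℕ} {Φ Φ' : P → Prop} {B K : ℝ} (hSt : St ω m Φ B) {c : P}
    (hc : Tw ω m c K) (h0 : ∀ g, Φ g → Φ' (c * g * c⁻¹))
    (h1 : ∀ g, Φ g → Φ' ((a * c * a) * g * (a * c * a)⁻¹)) : St ω m Φ' (B + 2 * K) := by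
  intro π q
  obtain ⟨w, F, hw, hs, hF⟩ := hSt π q
  obtain ⟨w1, hw1, hs1⟩ := hc
  refine ⟨w1 ++ w ++ w1.reverse,
    fun v => (if zp v then a * c * a else c) * F v * (if zp v then a * c * a else c)⁻¹, ?_, ?_, ?_⟩
  · simp only [List.length_append, List.length_reverse]
    push_cast
    linarith
  · rw [evo_append, evo_append, evo_reverse]
    exact secAt_conj hs1 hs
  · intro v hv hz
    obtain ⟨f0, f1⟩ := hF v hv hz
    beta_reduce
    refine ⟨fun hq => ?_, fun hq => ?_⟩
    · rw [f0 hq]
      group
    · rcases Bool.eq_false_or_eq_true (zp v) with hzv | hzv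
      · simp only [hzv, if_true]
        exact h1 _ (f1 hq)
      · simp only [hzv]
        exact h0 _ (f1 hq)

theorem St_comm {ω : Om} {m : ℕ} {Φ Φ' : P → Prop} {B K : ℝ} (hSt : St ω m Φ B) {c : P}
    (hc : Tw ω m c K) (h0 : ∀ g, Φ g → Φ' (g * c * g⁻¹ * c⁻¹))
    (h1 : ∀ g, Φ g → Φ' (g * (a * c * a) * g⁻¹ * (a * c * a)⁻¹)) :
    St ω m Φ' (2 * B + 2 * K) := by
  intro π q
  obtain ⟨w, F, hw, hs, hF⟩ := hSt π q
  obtain ⟨w1, hw1, hs1⟩ := hc
  refine ⟨cw w w1, fun v => F v * (if zp v then a * c * a else c) * (F v)⁻¹ *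
      (if zp v then a * c * a else c)⁻¹, ?_, ?_, ?_⟩
  · rw [cw_len]
    linarith
  · rw [evo_cw]
    exact secAt_comm hs hs1
  · intro v hv hz
    obtain ⟨f0, f1⟩ := hF v hv hz
    beta_reduce
    refine ⟨fun hq => ?_, fun hq => ?_⟩
    · rw [f0 hq]
      group
    · rcases Bool.eq_false_or_eq_true (zp v) with hzv | hzv
      · simp only [hzv, if_true]
        exact h1 _ (f1 hq)
      · simp only [hzv]
        exact h0 _ (f1 hq)

theorem Ex_conj {ω : Om} {m : ℕ} {s g : P} {B K : ℝ} (h : Ex ω m s B) (hg : Half ω m g K) :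
    Ex ω m (g * s * g⁻¹) (B + 4 * K) := by
  intro q
  obtain ⟨w, hw, hs⟩ := h q
  obtain ⟨w0, hw0, hs0⟩ := hg false
  obtain ⟨w1, hw1, hs1⟩ := hg true
  refine ⟨(w0 ++ w1) ++ w ++ (w0 ++ w1).reverse, ?_, ?_⟩
  · simp only [List.length_append, List.length_reverse]
    push_cast
    linarith
  · rw [evo_append, evo_append, evo_reverse, evo_append]
    refine secAt_congr (secAt_conj (secAt_mul hs0 hs1) hs) ?_
    intro v _
    rcases Bool.eq_false_or_eq_true (zp v) with hz | hz
    · rcases Bool.eq_false_or_eq_true (q v) with hq | hq <;> simp [hz, hq]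
    · rcases Bool.eq_false_or_eq_true (q v) with hq | hq <;> simp [hz, hq]

end Pool.Agent.H342_Full
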