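import Pool.Agent.H342_Full.States

/-!
Moving lamps through a long constant run.
-/

set_option autoImplicit false

namespace Pool.Agent.H342_Full

open Pool.Agent.Results.MP_03d093_al.SphereBall Pool.Agent.H776R2.Grig Pool.Agent.H776R2.Om
open Pool.Agent.H342_Gap

/-- positions of the lamps after `n` steps of a walk in direction `ε` -/
def psn (ε : ℤ) : ℕ → (ℕ → Bool) → List ℤ
  | 0, _ => []
  | n + 1, f => (if f 0 then [0, 4] else []) ++ (psn ε n fun i => f (i + 1)).map fun q => q + 2 * ε

theorem psn_mem (ε : ℤ) (n : ℕ) : ∀ (f : ℕ → Bool) (p : ℤ), p ∈ psn ε n f →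
    ∃ i < n, f i = true ∧ (p = 2 * (ε * i) ∨ p = 2 * (ε * i) + 4) := by
  induction n with
  | zero => intro f p hp; simp [psn] at hp
  | succ n ih =>
    intro f p hp
    simp only [psn, List.mem_append, List.mem_map] at hp
    rcases hp with hp | ⟨q, hq, rfl⟩
    · split_ifs at hp with h0
      · simp only [List.mem_cons, List.not_mem_nil, or_false] at hp
        refine ⟨0, by omega, h0, ?_⟩
        rcases hp with rfl | rfl <;> simp
      · simp at hp
    · obtain ⟨i, hi, hf, h⟩ := ih _ q hq
      refine ⟨i + 1, by omega, hf, ?_⟩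
      push_cast
      rcases h with h | h
      · left
        rw [h]
        ring
      · right
        rw [h]
        ring

theorem psn_odd (ε : ℤ) (n : ℕ) : ∀ (f : ℕ → Bool) (k : ℤ), cnt (psn ε n f) (2 * k + 1) = false := by
  induction n with
  | zero => intro f k; rfl
  | succ n ih =>
    intro f k
    simp only [psn]
    rw [cnt_append, cnt_map_add]
    have e : 2 * k + 1 - 2 * ε = 2 * (k - ε) + 1 := by ring
    rw [e, ih]
    split_ifs
    · simp only [cnt]
      have h1 : ¬ (0 : ℤ) = 2 * k + 1 := by omega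
      have h2 : ¬ (4 : ℤ) = 2 * k + 1 := by omega
      simp [h1, h2]
    · simp [cnt]

theorem psn_even {ε : ℤ} (hε : ε = 1 ∨ ε = -1) (n : ℕ) : ∀ (Q : ℤ → Bool) (k : ℤ),
    cnt (psn ε n fun i => Q (ε * i)) (2 * k) =
      xor (decide (0 ≤ ε * k ∧ ε * k < n) && Q k)
        (decide (0 ≤ ε * (k - 2) ∧ ε * (k - 2) < n) && Q (k - 2)) := by
  induction n with
  | zero =>
    intro Q k
    have h1 : ¬ (0 ≤ ε * k ∧ ε * k < ((0 : ℕ) : ℤ)) := by
      rw [Nat.cast_zero]
      omega
    have h2 : ¬ (0 ≤ ε * (k - 2) ∧ ε * (k - 2) < ((0 : ℕ) : ℤ)) := by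
      rw [Nat.cast_zero]
      omega
    simp only [h1, h2]
    simp [psn, cnt]
  | succ n ih =>
    intro Q k
    simp only [psn]
    rw [cnt_append, cnt_map_add]
    have e : 2 * k - 2 * ε = 2 * (k - ε) := by ring
    have hf : (fun i : ℕ => Q (ε * ((i + 1 : ℕ) : ℤ))) = fun i : ℕ => (fun z => Q (z + ε)) (ε * i) := by
      funext i
      show Q _ = Q _
      congr 1
      push_cast
      ring
    rw [hf, e, ih (fun z => Q (z + ε)) (k - ε)]
    have e1 : k - ε + ε = k := by ring
    have e2 : k - ε - 2 + ε = k - 2 := by ring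
    simp only [e1, e2]
    have h0 : cnt (if Q (ε * ((0 : ℕ) : ℤ)) = true then [0, 4] else []) (2 * k) =
        xor (decide (k = 0) && Q 0) (decide (k = 2) && Q 0) := by
      have z : ε * ((0 : ℕ) : ℤ) = 0 := by simp
      rw [z]
      rcases Bool.eq_false_or_eq_true (Q 0) with hq | hq
      · simp only [hq, if_true, cnt, Bool.and_true, Bool.xor_false]
        congr 1
        · apply decide_eq_decide.2
          omega
        · apply decide_eq_decide.2
          omega
      · simp [hq, cnt]
    rw [h0]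
    have d1 : (decide (0 ≤ ε * k ∧ ε * k < ((n + 1 : ℕ) : ℤ)) && Q k) =
        xor (decide (k = 0) && Q 0) (decide (0 ≤ ε * (k - ε) ∧ ε * (k - ε) < (n : ℤ)) && Q k) := by
      by_cases hk : k = 0
      · subst hk
        have t1 : 0 ≤ ε * 0 ∧ ε * 0 < ((n + 1 : ℕ) : ℤ) := by
          rcases hε with rfl | rfl <;> omega
        have t2 : ¬ (0 ≤ ε * (0 - ε) ∧ ε * (0 - ε) < (n : ℤ)) := by
          rcases hε with rfl | rfl <;> omega
        simp only [t1, t2]
        simp
      · have t : (0 ≤ ε * k ∧ ε * k < ((n + 1 : ℕ) : ℤ)) ↔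
            (0 ≤ ε * (k - ε) ∧ ε * (k - ε) < (n : ℤ)) := by
          push_cast
          rcases hε with rfl | rfl <;> omega
        simp only [t]
        simp [hk]
    have d2 : (decide (0 ≤ ε * (k - 2) ∧ ε * (k - 2) < ((n + 1 : ℕ) : ℤ)) && Q (k - 2)) =
        xor (decide (k = 2) && Q 0)
          (decide (0 ≤ ε * (k - ε - 2) ∧ ε * (k - ε - 2) < (n : ℤ)) && Q (k - 2)) := by
      by_cases hk : k = 2
      · subst hk
        have t1 : 0 ≤ ε * (2 - 2) ∧ ε * (2 - 2) < ((n + 1 : ℕ) : ℤ) := by
          rcases hε with rfl | rfl <;> omega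
        have t2 : ¬ (0 ≤ ε * (2 - ε - 2) ∧ ε * (2 - ε - 2) < (n : ℤ)) := by
          rcases hε with rfl | rfl <;> omega
        simp only [t1, t2]
        simp
      · have t : (0 ≤ ε * (k - 2) ∧ ε * (k - 2) < ((n + 1 : ℕ) : ℤ)) ↔
            (0 ≤ ε * (k - ε - 2) ∧ ε * (k - ε - 2) < (n : ℤ)) := by
          push_cast
          rcases hε with rfl | rfl <;> omega
        simp only [t]
        simp [hk]
    rw [d1, d2]
    generalize (decide (k = 0) && Q 0) = A
    generalize (decide (k = 2) && Q 0) = A2
    generalize (decide (0 ≤ ε * (k - ε) ∧ ε * (k - ε) < (n : ℤ)) && Q k) = A3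
    generalize (decide (0 ≤ ε * (k - ε - 2) ∧ ε * (k - ε - 2) < (n : ℤ)) && Q (k - 2)) = A4
    cases A <;> cases A2 <;> cases A3 <;> cases A4 <;> rfl

def qg (R : ℕ → Bool) : ℕ → Bool
  | 0 => R 0
  | 1 => R 1
  | n + 2 => xor (R (n + 2)) (qg R n)

theorem exists_Q (lo : ℤ) (R : ℤ → Bool) : ∃ Q : ℤ → Bool, (∀ k < lo, Q k = false) ∧
    ∀ k, lo ≤ k → xor (Q k) (Q (k - 2)) = R k := by
  refine ⟨fun k => if k < lo then false else qg (fun n => R (lo + n)) (k - lo).toNat, ?_, ?_⟩
  · intro k hk
    simp [hk]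
  · intro k hk
    obtain ⟨n, rfl⟩ : ∃ n : ℕ, k = lo + n := ⟨(k - lo).toNat, by omega⟩
    have h1 : ¬ (lo + (n : ℤ) < lo) := by omega
    have h2 : (lo + (n : ℤ) - lo).toNat = n := by omega
    simp only [h1, h2, if_false]
    match n with
    | 0 =>
      have h3 : lo + ((0 : ℕ) : ℤ) - 2 < lo := by
        push_cast
        omega
      simp [h3, qg]
    | 1 =>
      have h3 : lo + ((1 : ℕ) : ℤ) - 2 < lo := by
        push_cast
        omega
      simp only [h3, if_true, qg]
      simp
    | n + 2 =>
      have h3 : ¬ lo + ((n + 2 : ℕ) : ℤ) - 2 < lo := by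
        push_cast
        omega
      have h4 : (lo + ((n + 2 : ℕ) : ℤ) - 2 - lo).toNat = n := by
        push_cast
        omega
      simp only [h3, h4, if_false, qg]
      cases qg (fun n => R (lo + n)) n <;> simp

section Run

variable {ω : Om} {m : ℕ} {x κ : V} {B K : ℝ}

theorem walker (hT : Tw ω m (Tz (shi m ω) x ^ (2 : ℤ)) K) (sg : Bool) :
    ∃ w : List Lt, (w.length : ℝ) ≤ K ∧
      SecAt m (fun v => Tz (shi m ω) x ^ (2 * (if zp v = sg then (1 : ℤ) else -1))) (evo ω w) := by
  obtain ⟨w, hw, hs⟩ := hT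
  cases sg
  · refine ⟨w, hw, secAt_congr hs ?_⟩
    intro v _
    rcases Bool.eq_false_or_eq_true (zp v) with hz | hz
    · simp only [hz, if_true]
      rw [Tz_a_pow]
      norm_num
    · simp [hz]
  · refine ⟨w.reverse, by simpa using hw, ?_⟩
    rw [evo_reverse]
    refine secAt_congr (secAt_inv hs) ?_
    intro v _
    rcases Bool.eq_false_or_eq_true (zp v) with hz | hz
    · simp only [hz, if_true]
      rw [Tz_a_pow, ← zpow_neg]
      norm_num
    · simp only [hz]
      rw [if_neg (by decide), if_neg (by decide), ← zpow_neg]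
      norm_num

theorem tele (hE : Ex ω m (Pl (shi m ω) x κ 0 * Pl (shi m ω) x κ 4) B)
    (hT : Tw ω m (Tz (shi m ω) x ^ (2 : ℤ)) K) (sg : Bool) (n : ℕ) :
    ∀ q : ℕ → List Bool → Bool, ∃ w : List Lt, (w.length : ℝ) ≤ n * (B + 2 * K) ∧
      SecAt m (fun v => LP (shi m ω) x κ
        (psn (if zp v = sg then (1 : ℤ) else -1) n fun i => q i v)) (evo ω w) := by
  obtain ⟨wS, hwS, hsS⟩ := walker hT sg
  induction n with
  | zero =>
    intro q
    refine ⟨[], by simp, ?_⟩
    exact secAt_one m
  | succ n ih =>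
    intro q
    obtain ⟨w0, hw0, hs0⟩ := hE (q 0)
    obtain ⟨w, hw, hs⟩ := ih (fun i => q (i + 1))
    refine ⟨w0 ++ (wS ++ w ++ wS.reverse), ?_, ?_⟩
    · simp only [List.length_append, List.length_reverse]
      push_cast
      linarith
    · rw [evo_append, evo_append, evo_append, evo_reverse]
      refine secAt_congr (secAt_mul hs0 (secAt_conj hsS hs)) ?_
      intro v _
      simp only [psn]
      rw [LP_append, LP_shift]
      rcases Bool.eq_false_or_eq_true (q 0 v) with hq | hq
      · simp [hq, LP_cons, LP_nil]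
      · simp [hq, LP_nil]

theorem pass (hE : Ex ω m (Pl (shi m ω) x κ 0 * Pl (shi m ω) x κ 4) B)
    (hT : Tw ω m (Tz (shi m ω) x ^ (2 : ℤ)) K) (sg : Bool) (n : ℕ) (R : List Bool → ℤ → Bool) :
    ∃ (w : List Lt) (ps : List Bool → List ℤ), (w.length : ℝ) ≤ (n + 1) * (B + 2 * K) ∧
      SecAt m (fun v => LP (shi m ω) x κ (ps v)) (evo ω w) ∧
      ∀ (v : List Bool) (lo : ℤ), lo = (if zp v = sg then (0 : ℤ) else -(n : ℤ)) →
        (∀ k, lo ≤ k → k < lo + n → cnt (ps v) (2 * k) = R v k) ∧
        (∀ k, cnt (ps v) (2 * k + 1) = false) ∧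
        ∀ p ∈ ps v, 2 * lo ≤ p ∧ p ≤ 2 * lo + 2 * n + 2 := by
  choose Q hQ0 hQ1 using fun v : List Bool =>
    exists_Q (if zp v = sg then (0 : ℤ) else -n) (R v)
  set Q' : List Bool → ℤ → Bool := fun v k =>
    decide ((if zp v = sg then (0 : ℤ) else -n) ≤ k ∧
      k < (if zp v = sg then (0 : ℤ) else -n) + n) && Q v k with hQ'
  obtain ⟨w, hw, hs⟩ := tele hE hT sg (n + 1)
    (fun i v => Q' v ((if zp v = sg then (1 : ℤ) else -1) * i))
  refine ⟨w, fun v => psn (if zp v = sg then (1 : ℤ) else -1) (n + 1) fun i =>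
    Q' v ((if zp v = sg then (1 : ℤ) else -1) * i), ?_, hs, ?_⟩
  · push_cast at hw
    exact hw
  · intro v lo hlo
    have hε : (if zp v = sg then (1 : ℤ) else -1) = 1 ∨
        (if zp v = sg then (1 : ℤ) else -1) = -1 := by
      split_ifs <;> simp
    refine ⟨?_, ?_, ?_⟩
    · intro k hk1 hk2
      rw [psn_even hε, ← hQ1 v k (by rw [← hlo]; exact hk1)]
      have hk0 := hQ0 v (k - 2)
      rw [← hlo] at hk0
      simp only [hQ', ← hlo]
      congr 1
      · have h1 : lo ≤ k ∧ k < lo + n := ⟨hk1, hk2⟩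
        have h2 : 0 ≤ (if zp v = sg then (1 : ℤ) else -1) * k ∧
            (if zp v = sg then (1 : ℤ) else -1) * k < ((n + 1 : ℕ) : ℤ) := by
          push_cast
          split_ifs at hlo ⊢ <;> omega
        simp only [h1, h2]
        simp
      · by_cases h3 : k - 2 < lo
        · rw [hk0 h3]
          simp
        · have h1 : lo ≤ k - 2 ∧ k - 2 < lo + n := by omega
          have h2 : 0 ≤ (if zp v = sg then (1 : ℤ) else -1) * (k - 2) ∧
              (if zp v = sg then (1 : ℤ) else -1) * (k - 2) < ((n + 1 : ℕ) : ℤ) := by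
            push_cast
            split_ifs at hlo ⊢ <;> omega
          simp only [h1, h2]
          simp
    · intro k
      exact psn_odd _ _ _ _
    · intro p hp
      obtain ⟨i, hi, hf, h⟩ := psn_mem _ _ _ _ hp
      simp only [hQ', ← hlo, Bool.and_eq_true, decide_eq_true_eq] at hf
      omega

end Run

theorem fu_inj (u : List Bool) : ∀ (u' : List Bool) (r r' : ℤ), u.length = u'.length →
    fu u r = fu u' r' → u = u' := by
  induction u with
  | nil =>
    intro u' r r' h _
    have h' : u'.length = 0 := by simpa using h.symm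
    rw [List.length_eq_zero_iff] at h'
    exact h'.symm
  | cons y u ih =>
    intro u' r r' h hf
    cases u' with
    | nil => simp at h
    | cons y' u' =>
      have hl : u.length = u'.length := by simpa using h
      cases y <;> cases y' <;> simp only [fu] at hf
      · rw [ih u' r r' hl (by omega)]
      · omega
      · omega
      · rw [ih u' r r' hl (by omega)]

theorem shi_shi (L m : ℕ) (ω : Om) : shi L (shi m ω) = shi (m + L) ω := by
  funext n
  simp only [shi]
  congr 1
  omega

/-- the state at the end of a run -/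
theorem run_end {ω : Om} {m L : ℕ} {x κ : V} {B K K' : ℝ} (hL : 3 ≤ L)
    (hκ : ∀ i < L, kil (ω (m + i)) = κ) (hx : x ≠ κ)
    (hE : Ex ω m (Pl (shi m ω) x κ 0 * Pl (shi m ω) x κ 4) B)
    (hT : Tw ω m (Tz (shi m ω) x ^ (2 : ℤ)) K) (hW : Tw ω m (xx (shi m ω) κ * a) K') :
    St ω (m + L) (fun g => g = xx (shi (m + L) ω) κ)
      (2 * ((2 ^ (L - 2) + 1) * (B + 2 * K)) + 2 * K') := by
  intro π q
  set n : ℕ := 2 ^ (L - 2) with hn
  have hn2 : 2 ≤ n := by
    rw [hn]
    calc 2 = 2 ^ 1 := rfl
      _ ≤ 2 ^ (L - 2) := Nat.pow_le_pow_right (by norm_num) (by omega)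
  have h4n : (2 : ℤ) ^ L = 4 * n := by
    rw [hn]
    push_cast
    have : L = (L - 2) + 2 := by omega
    conv_lhs => rw [this, pow_add]
    ring
  have hκ' : ∀ i < L, kil ((shi m ω) i) = κ := by
    intro i hi
    simp only [shi]
    rw [add_comm i m]
    exact hκ i hi
  classical
  set Rp : List Bool → ℤ → Bool := fun v p =>
    decide (∃ u : List Bool, u.length = L ∧ fu u 0 = p ∧ q (v ++ u) = true) with hRp
  obtain ⟨w1, ps1, hw1, hs1, hp1⟩ := pass hE hT π n (fun v k => Rp v (2 * k))
  obtain ⟨w2, ps2, hw2, hs2, hp2⟩ := pass hE hT (!π) n (fun v k => Rp v (-(2 * k) - 1))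
  obtain ⟨w3, hw3, hs3⟩ := hW
  set ps : List Bool → List ℤ := fun v => ps1 v ++ ((if zp v then -1 else 0) ::
    ((ps2 v).map (fun q => -q - 1) ++ [if zp v then -1 else 0])) with hps
  have hsec : SecAt m (fun v => LP (shi m ω) x κ (ps v)) (evo ω (w1 ++ (w3 ++ w2 ++ w3.reverse))) := by
    rw [evo_append, evo_append, evo_append, evo_reverse]
    refine secAt_congr (secAt_mul hs1 (secAt_conj hs3 hs2)) ?_
    intro v _
    simp only [hps]
    rw [LP_append, LP_cons, LP_append, LP_cons, LP_nil, mul_one, ← LP_a]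
    congr 1
    rcases Bool.eq_false_or_eq_true (zp v) with hz | hz
    · simp only [hz, if_true]
      have e1 : a * (xx (shi m ω) κ * a) * a = a * xx (shi m ω) κ := by
        have h : (a : P) * a = 1 := S_aa
        rw [mul_assoc, mul_assoc, h, mul_one]
      have e2 : Pl (shi m ω) x κ (-1) = a * xx (shi m ω) κ * a := by
        rw [← Pl_zero (shi m ω) x κ, Pl_a]
        norm_num
      rw [e1, e2, mul_inv_rev, J_xx_inv, J_a_inv]
      have h : (a : P) * a = 1 := S_aa
      calc a * xx (shi m ω) κ * LP (shi m ω) x κ (ps2 v) * (xx (shi m ω) κ * a) =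
          a * xx (shi m ω) κ * ((a * a) * LP (shi m ω) x κ (ps2 v) * (a * a)) *
            (xx (shi m ω) κ * a) := by rw [h, one_mul, mul_one]
        _ = _ := by simp only [mul_assoc]
    · simp only [hz]
      rw [if_neg (by decide), if_neg (by decide), Pl_zero, mul_inv_rev, J_xx_inv, J_a_inv]
      simp only [mul_assoc]
  refine ⟨w1 ++ (w3 ++ w2 ++ w3.reverse), ?_⟩
  choose FF hFF hFF' using fun v => LP_sec (L := L) hκ' hx (ps v)
  refine ⟨fun u => FF (u.take m) (u.drop m), ?_, ?_, ?_⟩
  · simp only [List.length_append, List.length_reverse]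
    push_cast
    have e : ((n : ℕ) : ℝ) = 2 ^ (L - 2) := by
      rw [hn]
      push_cast
      rfl
    rw [e] at hw1 hw2
    linarith
  · exact secAt_comp hsec (fun v _ => hFF v)
  · intro vu hvu hz
    obtain ⟨v, u, hv, hu, rfl⟩ : ∃ v u : List Bool, v.length = m ∧ u.length = L ∧ vu = v ++ u :=
      ⟨vu.take m, vu.drop m, by rw [List.length_take]; omega, by rw [List.length_drop]; omega,
        (List.take_append_drop m vu).symm⟩
    have t1 : (v ++ u).take m = v := by
      rw [List.take_append_of_le_length (by omega), List.take_of_length_le (by omega)]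
    have t2 : (v ++ u).drop m = u := by
      rw [← hv, List.drop_left]
    rw [zp_append] at hz
    simp only [t1, t2]
    obtain ⟨r1, r2⟩ := fu_range u
    rw [hu, h4n] at r1 r2
    -- the range of the position of `u`
    obtain ⟨a1, a2, a3⟩ := hp1 v _ rfl
    obtain ⟨b1, b2, b3⟩ := hp2 v _ rfl
    have hcase : (zp v = π ∧ zp u = false) ∨ (zp v = !π ∧ zp u = true) := by
      revert hz
      cases zp v <;> cases zp u <;> cases π <;> simp
    have hne : ∀ b : Bool, ¬ b = !b := by decide
    have hne' : ∀ b : Bool, ¬ (!b) = b := by decide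
    have hrange : ∀ p ∈ ps v, |p - fu u 0| < 2 ^ L := by
      intro p hp
      simp only [hps, List.mem_append, List.mem_cons, List.mem_map, List.not_mem_nil,
        or_false] at hp
      rw [h4n, abs_lt]
      rcases hcase with ⟨hv1, hu1⟩ | ⟨hv1, hu1⟩
      · obtain ⟨c1, c2⟩ := r1 hu1
        simp only [hv1, if_true] at a3
        simp only [hv1, hne, if_false] at b3
        rcases hp with hp | hp | ⟨y, hy, rfl⟩ | hp
        · have := a3 p hp
          omega
        · split_ifs at hp <;> omega
        · have := b3 y hy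
          omega
        · split_ifs at hp <;> omega
      · obtain ⟨c1, c2⟩ := r2 hu1
        simp only [hv1, hne', if_false] at a3
        simp only [hv1, if_true] at b3
        rcases hp with hp | hp | ⟨y, hy, rfl⟩ | hp
        · have := a3 p hp
          omega
        · split_ifs at hp <;> omega
        · have := b3 y hy
          omega
        · split_ifs at hp <;> omega
    have hcnt : cnt (ps v) (fu u 0) = q (v ++ u) := by
      have hR : Rp v (fu u 0) = q (v ++ u) := by
        simp only [hRp]
        by_cases hq : q (v ++ u) = true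
        · rw [hq, decide_eq_true_eq]
          exact ⟨u, hu, rfl, hq⟩
        · have hq' : q (v ++ u) = false := by simpa using hq
          rw [hq', decide_eq_false_iff_not]
          rintro ⟨u', hu', hf, hq''⟩
          have := fu_inj u' u 0 0 (by omega) hf
          rw [this] at hq''
          exact hq hq''
      have hc : cnt (ps v) (fu u 0) = xor (cnt (ps1 v) (fu u 0)) (cnt (ps2 v) (-(fu u 0) - 1)) := by
        simp only [hps]
        rw [cnt_append]
        simp only [cnt]
        rw [cnt_append, cnt_map_neg]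
        simp only [cnt]
        generalize decide ((if zp v = true then (-1 : ℤ) else 0) = fu u 0) = A
        generalize cnt (ps1 v) (fu u 0) = A1
        generalize cnt (ps2 v) (-(fu u 0) - 1) = A2
        cases A <;> cases A1 <;> cases A2 <;> rfl
      rw [hc, ← hR]
      rcases Int.even_or_odd' (fu u 0) with ⟨k, hk | hk⟩
      · have e1 : -(fu u 0) - 1 = 2 * (-k - 1) + 1 := by omega
        rw [e1, b2, hk, Bool.xor_false]
        apply a1
        · rcases hcase with ⟨hv1, hu1⟩ | ⟨hv1, hu1⟩
          · obtain ⟨c1, c2⟩ := r1 hu1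
            simp only [hv1, if_true]
            omega
          · obtain ⟨c1, c2⟩ := r2 hu1
            simp only [hv1, hne', if_false]
            omega
        · rcases hcase with ⟨hv1, hu1⟩ | ⟨hv1, hu1⟩
          · obtain ⟨c1, c2⟩ := r1 hu1
            simp only [hv1, if_true]
            omega
          · obtain ⟨c1, c2⟩ := r2 hu1
            simp only [hv1, hne', if_false]
            omega
      · have e1 : -(fu u 0) - 1 = 2 * (-k - 1) := by omega
        have e2 : fu u 0 = -(2 * (-k - 1)) - 1 := by omega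
        rw [e1]
        have e3 : cnt (ps1 v) (fu u 0) = false := by
          rw [hk]
          exact a2 k
        rw [e3, Bool.false_xor]
        conv_rhs => rw [e2]
        apply b1
        · rcases hcase with ⟨hv1, hu1⟩ | ⟨hv1, hu1⟩
          · obtain ⟨c1, c2⟩ := r1 hu1
            simp only [hv1, hne, if_false]
            omega
          · obtain ⟨c1, c2⟩ := r2 hu1
            simp only [hv1, if_true]
            omega
        · rcases hcase with ⟨hv1, hu1⟩ | ⟨hv1, hu1⟩
          · obtain ⟨c1, c2⟩ := r1 hu1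
            simp only [hv1, hne, if_false]
            omega
          · obtain ⟨c1, c2⟩ := r2 hu1
            simp only [hv1, if_true]
            omega
    have hfin := hFF' v u hu hrange
    rw [hcnt, shi_shi] at hfin
    refine ⟨fun hq => by rw [hfin, hq]; simp, fun hq => by rw [hfin, hq]; simp⟩

end Pool.Agent.H342_Full
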