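import Pool.Agent.H342_Full.Count

/-!
Passing from one level to another one.
-/

set_option autoImplicit false

namespace Pool.Agent.H342_Full

open Pool.Agent.Results.MP_03d093_al.SphereBall Pool.Agent.H776R2.Grig Pool.Agent.H776R2.Om
open Pool.Agent.H342_Gap

theorem TT_zpow {g : P} (h : TT g) (k : ℤ) : TT (g ^ k) := by
  have hn : ∀ n : ℕ, TT (g ^ n) := by
    intro n
    induction n with
    | zero => simpa using TT_one
    | succ n ih =>
      rw [pow_succ]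
      exact TT_mul ih h
  cases k with
  | ofNat n => simpa using hn n
  | negSucc n =>
    rw [zpow_negSucc]
    exact TT_inv (hn (n + 1))

theorem TT_Tz (η : Om) (x : V) : TT (Tz η x) := TT_mul (TT_xx η x) TT_a

theorem TT_Pl (η : Om) (x κ : V) (p : ℤ) : TT (Pl η x κ p) :=
  TT_mul (TT_mul (TT_zpow (TT_Tz η x) p) (TT_xx η κ)) (TT_inv (TT_zpow (TT_Tz η x) p))

theorem TT_nil {g : P} (h : TT g) : g [] = [] := by
  have := h.1.1 []
  rw [List.length_nil, List.length_eq_zero_iff] at this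
  exact this

theorem JC_TT {η : Om} {x : V} {g : P} {n : ℕ} (h : JC η x g n) : TT g := by
  obtain ⟨L, rfl, -⟩ := h
  induction L with
  | nil => exact TT_one
  | cons p L ih =>
    rw [jval_cons]
    refine TT_mul ?_ ih
    unfold jpair
    have h1 := TT_evo η p.1
    have h2 := TT_evo η p.2
    have h3 := TT_xx η x
    exact TT_mul (TT_mul (TT_mul h1 h3) (TT_inv h1)) (TT_mul (TT_mul h2 h3) (TT_inv h2))

theorem sec_ext {f g f0 f1 : P} (hf : Sec f f0 f1) (hg : Sec g f0 f1) (h : f [] = g []) :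
    f = g := by
  ext1 w
  cases w with
  | nil => exact h
  | cons y w =>
    cases y
    · rw [(hf w).1, (hg w).1]
    · rw [(hf w).2, (hg w).2]

theorem Tz_sq_eq (η : Om) (x : V) : Tz η x ^ (2 : ℤ) = xx η x * a * xx η x * a := by
  have : (2 : ℤ) = 1 + 1 := rfl
  rw [this, zpow_add, zpow_one]
  unfold Tz
  simp only [mul_assoc]

theorem JC_T2 (η : Om) (x : V) : JC η x (Tz η x ^ (2 : ℤ)) 2 := by
  have h := JC_pair η x [] [Lt.A]
  have e : evo η [Lt.A] = a := by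
    rw [evo_cons, evo_nil, mul_one]
    rfl
  rw [evo_nil, e, J_a_inv, inv_one, one_mul, mul_one] at h
  rw [Tz_sq_eq]
  have e2 : xx η x * a * xx η x * a = xx η x * (a * xx η x * a) := by simp only [mul_assoc]
  rw [e2]
  exact h

theorem JC_T4 (η : Om) (x : V) : JC η x (Tz η x ^ (4 : ℤ)) 4 := by
  have h := JC_mul (JC_T2 η x) (JC_T2 η x)
  rw [← zpow_add] at h
  exact h

theorem JC_P20 (η : Om) (x κ : V) : JC η x (Pl η x κ 2 * Pl η x κ 0) 8 := by
  have h1 := JC_T2 η x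
  have h2 := JC_conj [κ.lt] (JC_inv h1)
  have e : evo η [κ.lt] = xx η κ := by
    rw [evo_cons, evo_nil, mul_one, gno_lt]
  rw [e] at h2
  have h3 := JC_mul h1 h2
  have e2 : Tz η x ^ (2 : ℤ) * (xx η κ * (Tz η x ^ (2 : ℤ))⁻¹ * (xx η κ)⁻¹) =
      Pl η x κ 2 * Pl η x κ 0 := by
    rw [Pl_zero, J_xx_inv]
    unfold Pl
    simp only [mul_assoc]
  rw [e2] at h3
  exact JC_mono h3 (by simp)

theorem JC_P02 (η : Om) (x κ : V) : JC η x (Pl η x κ 0 * Pl η x κ 2) 8 := by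
  have h := JC_inv (JC_P20 η x κ)
  rwa [mul_inv_rev, Pl_inv, Pl_inv] at h

theorem comm02 {η : Om} {x κ : V} (h0 : kil (η 0) = κ) (h1 : kil (η 1) = κ) (hx : x ≠ κ) :
    Pl η x κ 0 * Pl η x κ 2 = Pl η x κ 2 * Pl η x κ 0 := by
  have h1' : kil ((sh η) 0) = κ := h1
  have a0 := Pl_even η (x := x) (by rw [h0]; exact hx) 0
  have a1 := Pl_even η (x := x) (by rw [h0]; exact hx) 1
  rw [h0] at a0 a1
  simp only [mul_zero, mul_one] at a0 a1
  have b0 := Pl_even (sh η) (x := x) (by rw [h1']; exact hx) 0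
  have b1 := Pl_odd (sh η) (x := x) (by rw [h1']; exact hx) 0
  rw [h1'] at b0 b1
  simp only [mul_zero, zero_add] at b0 b1
  have c : Pl (sh η) x κ 0 * Pl (sh η) x κ 1 = Pl (sh η) x κ 1 * Pl (sh η) x κ 0 := by
    have c0 := b0.mul b1
    have c1 := b1.mul b0
    rw [one_mul, mul_one] at c0 c1
    refine sec_ext c0 c1 ?_
    rw [TT_nil (TT_mul (TT_Pl _ _ _ _) (TT_Pl _ _ _ _)),
      TT_nil (TT_mul (TT_Pl _ _ _ _) (TT_Pl _ _ _ _))]
  have d0 := a0.mul a1
  have d1 := a1.mul a0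
  rw [← c] at d1
  refine sec_ext d0 d1 ?_
  rw [TT_nil (TT_mul (TT_Pl _ _ _ _) (TT_Pl _ _ _ _)),
    TT_nil (TT_mul (TT_Pl _ _ _ _) (TT_Pl _ _ _ _))]

theorem mul_cancel4 {G : Type} [Group G] (p q r : G) (hq : q * q = 1) :
    p * q * (q * r) = p * r := by
  calc p * q * (q * r) = p * (q * q) * r := by simp only [mul_assoc]
    _ = p * r := by rw [hq, mul_one]

theorem conj_mul_c {G : Type} [Group G] (g p q : G) :
    g * (p * q) * g⁻¹ = (g * p * g⁻¹) * (g * q * g⁻¹) := by group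

theorem lampG {η : Om} {x κ : V} (h0 : kil (η 0) = κ) (h1 : kil (η 1) = κ) (hx : x ≠ κ) :
    (Pl η x κ 0 * Pl η x κ 2)⁻¹ * Tz η x ^ (2 : ℤ) * (Pl η x κ 0 * Pl η x κ 2) *
      (Tz η x ^ (2 : ℤ))⁻¹ = Pl η x κ 0 * Pl η x κ 4 := by
  have e1 : Tz η x ^ (2 : ℤ) * (Pl η x κ 0 * Pl η x κ 2) * (Tz η x ^ (2 : ℤ))⁻¹ =
      Pl η x κ 2 * Pl η x κ 4 := by
    have a1 := Pl_shift η x κ 2 0
    have a2 := Pl_shift η x κ 2 2
    norm_num at a1 a2
    have e := conj_mul_c (Tz η x ^ (2 : ℤ)) (Pl η x κ 0) (Pl η x κ 2)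
    rw [e]
    exact congrArg₂ (· * ·) a1 a2
  have e2 : (Pl η x κ 0 * Pl η x κ 2)⁻¹ = Pl η x κ 0 * Pl η x κ 2 := by
    rw [mul_inv_rev, Pl_inv, Pl_inv, comm02 h0 h1 hx]
  calc _ = (Pl η x κ 0 * Pl η x κ 2)⁻¹ *
        (Tz η x ^ (2 : ℤ) * (Pl η x κ 0 * Pl η x κ 2) * (Tz η x ^ (2 : ℤ))⁻¹) := by
        simp only [mul_assoc]
    _ = _ := by
      rw [e1, e2]
      exact mul_cancel4 _ _ _ (Pl_sq _ _ _ _)

theorem P20_inv (η : Om) (x κ : V) :
    (Pl η x κ 2 * Pl η x κ 0)⁻¹ = Pl η x κ 0 * Pl η x κ 2 := by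
  rw [mul_inv_rev, Pl_inv, Pl_inv]

theorem lampX (η : Om) (x κ : V) :
    xx η x * (Pl η x κ 2 * Pl η x κ 0) * (xx η x)⁻¹ * (Pl η x κ 2 * Pl η x κ 0)⁻¹ =
      Pl η x κ (-2) * Pl η x κ 2 := by
  have a1 := Pl_x η x κ 2
  have a2 := Pl_x η x κ 0
  rw [neg_zero] at a2
  have e1 : xx η x * (Pl η x κ 2 * Pl η x κ 0) * (xx η x)⁻¹ =
      Pl η x κ (-2) * Pl η x κ 0 := by
    rw [J_xx_inv, conj_x_x, a1, a2]
  rw [e1, P20_inv]
  exact mul_cancel4 _ _ _ (Pl_sq _ _ _ _)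

theorem lampK (η : Om) (x κ : V) :
    xx η κ * Tz η x ^ (4 : ℤ) * (xx η κ)⁻¹ * (Tz η x ^ (4 : ℤ))⁻¹ =
      Pl η x κ 0 * Pl η x κ 4 := by
  rw [Pl_zero, J_xx_inv]
  unfold Pl
  simp only [mul_assoc]

theorem lampT {η : Om} {x κ z : V} (h0 : kil (η 0) = κ) (h1 : kil (η 1) = κ) (hx : x ≠ κ)
    (hzx : z ≠ x) (hzκ : z ≠ κ) :
    xx η z * (Pl η x κ 2 * Pl η x κ 0) * (xx η z)⁻¹ * (Pl η x κ 2 * Pl η x κ 0)⁻¹ =
      Pl η x κ (-2) * Pl η x κ 2 := by
  have ez : xx η z = xx η x * xx η κ := (xx_mul η x κ z hx (Ne.symm hzκ) (Ne.symm hzx)).symm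
  have hc := comm02 h0 h1 hx
  have hk : xx η κ * (Pl η x κ 2 * Pl η x κ 0) * (xx η κ)⁻¹ = Pl η x κ 2 * Pl η x κ 0 := by
    rw [← Pl_zero η x κ, ← mul_assoc, hc, Pl_inv]
    have := Pl_sq η x κ 0
    simp only [mul_assoc, this, mul_one]
  rw [← lampX η x κ, ez, mul_inv_rev]
  calc xx η x * xx η κ * (Pl η x κ 2 * Pl η x κ 0) * ((xx η κ)⁻¹ * (xx η x)⁻¹) *
        (Pl η x κ 2 * Pl η x κ 0)⁻¹ =
      xx η x * (xx η κ * (Pl η x κ 2 * Pl η x κ 0) * (xx η κ)⁻¹) * (xx η x)⁻¹ *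
        (Pl η x κ 2 * Pl η x κ 0)⁻¹ := by simp only [mul_assoc]
    _ = _ := by rw [hk]

theorem lampS (η : Om) (x κ : V) :
    Tz η x ^ (2 : ℤ) * (Pl η x κ (-2) * Pl η x κ 2) * (Tz η x ^ (2 : ℤ))⁻¹ =
      Pl η x κ 0 * Pl η x κ 4 := by
  have a1 := Pl_shift η x κ 2 (-2)
  have a2 := Pl_shift η x κ 2 2
  norm_num at a1 a2
  rw [← a1, ← a2]
  group

/-! Twisted lifts of `T²` and `κ a`. -/

theorem tw_T2 (ω : Om) (m : ℕ) (x : V) :
    Tw ω m (Tz (shi m ω) x ^ (2 : ℤ)) (13 * lam ^ m) := by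
  have h := tw_U ω m [x, x] false (by
    right
    by_cases hx : x = kil (ω (m - 1))
    · simp [hx]
    · simp [List.count_cons, hx])
  have e : evo (shi m ω) (U [x, x]) * pa false = Tz (shi m ω) x ^ (2 : ℤ) := by
    rw [Tz_sq_eq, B_evo_U_cons, B_evo_U_cons, B_U_nil, evo_nil]
    simp [pa, mul_assoc]
  rw [e] at h
  norm_num at h
  exact h

theorem tw_κa (ω : Om) (m : ℕ) (κ : V) (h : m = 0 ∨ κ ≠ kil (ω (m - 1))) :
    Tw ω m (xx (shi m ω) κ * a) (7 * lam ^ m) := by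
  have h := tw_U ω m [κ] false (by
    rcases h with h | h
    · exact Or.inl h
    · right
      simp [List.count_cons, h])
  have e : evo (shi m ω) (U [κ]) * pa false = xx (shi m ω) κ * a := by
    rw [B_evo_U_cons, B_U_nil, evo_nil]
    simp [pa]
  rw [e] at h
  norm_num at h
  exact h

/-! The steps. -/

/-- lifts of the elements of `J` at level `m + r` to level `m` have size at most `N` -/
def JR (ω : Om) (m r n N : ℕ) : Prop :=
  ∀ h : P, JC (shi (m + r) ω) (kil (ω (m + r - 1))) h n → ∀ f : List Bool → Bool, ∃ g : P,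
    JC (shi m ω) (kil (ω (m - 1))) g N ∧ SecAt r (fun u => if f u then h else 1) g

theorem exists_JR (R n : ℕ) : ∃ N : ℕ, ∀ (ω : Om) (m r : ℕ), 1 ≤ m → r ≤ R → JR ω m r n N := by
  choose N hN using fun ρ => Jfun ρ n
  refine ⟨∑ ρ ∈ Finset.range (R + 1), N ρ, ?_⟩
  intro ω m r hm hr h hh f
  obtain ⟨g, hg, hs⟩ := hN r ω m hm h hh f
  refine ⟨g, JC_mono hg ?_, hs⟩
  exact Finset.single_le_sum (f := N) (fun _ _ => Nat.zero_le _) (Finset.mem_range.2 (by omega))

theorem JR_at {ω : Om} {m r n N : ℕ} (hJ : JR ω m r n N) {h : P}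
    (hh : JC (shi (m + r) ω) (kil (ω (m + r - 1))) h n) (t : List Bool) : ∃ g : P,
    JC (shi m ω) (kil (ω (m - 1))) g N ∧ SecAt r (fun u => if u = t then h else 1) g := by
  obtain ⟨g, hg, hs⟩ := hJ h hh (fun u => decide (u = t))
  exact ⟨g, hg, by simpa using hs⟩

theorem step_G {ω : Om} {m r n N : ℕ} {Φ : P → Prop} {B : ℝ} (hm : 1 ≤ m)
    (hJ : JR ω m r n N) (hSt : St ω m Φ B)
    (hΦ : ∀ g, Φ g → ∀ t : List Bool, t.length = r → g t ≠ t) {h h2 : P}
    (hh : JC (shi (m + r) ω) (kil (ω (m + r - 1))) h n)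
    (hh2 : JC (shi (m + r) ω) (kil (ω (m + r - 1))) h2 n) :
    Ex ω (m + r) (h⁻¹ * h2 * h * h2⁻¹)
      (2 ^ r * (2 * (4 * B + 6 * ((36 * N + 15) * lam ^ m)))) := by
  apply Ex_of_Pc
  intro π t ht
  obtain ⟨d, hd, hds⟩ := JR_at hJ hh t
  obtain ⟨d2, hd2, hds2⟩ := JR_at hJ hh2 t
  exact Pc_of_move hSt ht (fun g hg => hΦ g hg t ht) (JC_TT hd) hds hds2
    (half_of_JC hm hd) (half_of_JC hm hd2) π

/-- the state `κ` becomes a state which moves all vertices of level at least 2 -/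
theorem St_move {ω : Om} {m : ℕ} {κ κ' : V} {B : ℝ} (hm : 1 ≤ m)
    (hκ : kil (ω (m - 1)) = κ) (hκ' : kil (ω m) = κ') (hne : κ ≠ κ')
    (h : St ω m (fun g => g = xx (shi m ω) κ) B) :
    St ω m (fun g => ∀ t : List Bool, 2 ≤ t.length → g t ≠ t) (2 * B + 2 * (7 * lam ^ m)) := by
  have hk : (shi m ω) 0 = ω m := by simp [shi]
  have hs : Sec (xx (shi m ω) κ) a (xx (sh (shi m ω)) κ) := by
    have := sec_xx (shi m ω) κ
    rwa [hk, hκ', if_neg hne] at this
  have hs2 := hs.mul hs.conj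
  have base : ∀ t : List Bool, 2 ≤ t.length →
      (xx (shi m ω) κ * (a * xx (shi m ω) κ * a)) t ≠ t := by
    intro t ht
    have hfix : ∀ (η : Om) (x : V) (y : Bool) (w : List Bool), ∃ w', xx η x (y :: w) = y :: w' := by
      intro η x y w
      cases y
      · exact ⟨_, rfl⟩
      · exact ⟨_, rfl⟩
    match t, ht with
    | y :: z :: w, _ =>
      cases y
      · rw [(hs2 _).1, Equiv.Perm.mul_apply]
        obtain ⟨w', hw'⟩ := hfix (sh (shi m ω)) κ z w
        rw [hw', a_apply]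
        simp [aFun]
      · rw [(hs2 _).2, Equiv.Perm.mul_apply, a_apply]
        simp only [aFun]
        obtain ⟨w', hw'⟩ := hfix (sh (shi m ω)) κ (!z) w
        rw [hw']
        simp
  refine St_mono (St_comm (Φ' := fun g => ∀ t : List Bool, 2 ≤ t.length → g t ≠ t) h
    (tw_κa ω m κ' (Or.inr (by rw [hκ]; exact Ne.symm hne))) ?_ ?_) (fun _ h => h) (le_of_eq (by ring))
  · intro g hg t ht
    subst hg
    have e : xx (shi m ω) κ * (xx (shi m ω) κ' * a) * (xx (shi m ω) κ)⁻¹ *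
        (xx (shi m ω) κ' * a)⁻¹ =
        xx (shi m ω) κ' * (xx (shi m ω) κ * (a * xx (shi m ω) κ * a)) * (xx (shi m ω) κ')⁻¹ := by
      rw [mul_inv_rev, J_a_inv, J_xx_inv, J_xx_inv]
      calc xx (shi m ω) κ * (xx (shi m ω) κ' * a) * xx (shi m ω) κ * (a * xx (shi m ω) κ') =
          (xx (shi m ω) κ * xx (shi m ω) κ') * a * xx (shi m ω) κ * a * xx (shi m ω) κ' := by
            simp only [mul_assoc]
        _ = _ := by
          rw [J_xx_comm (shi m ω) κ κ']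
          simp only [mul_assoc]
    rw [e]
    intro hc
    rw [Equiv.Perm.mul_apply, Equiv.Perm.mul_apply] at hc
    have h1 : ((xx (shi m ω) κ')⁻¹ t).length = t.length := (TT_xx (shi m ω) κ').2.1 t
    apply base ((xx (shi m ω) κ')⁻¹ t) (by omega)
    apply (xx (shi m ω) κ').injective
    rw [hc]
    exact (Equiv.apply_symm_apply (xx (shi m ω) κ') t).symm
  · intro g hg t ht
    subst hg
    have e : xx (shi m ω) κ * (a * (xx (shi m ω) κ' * a) * a) * (xx (shi m ω) κ)⁻¹ *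
        (a * (xx (shi m ω) κ' * a) * a)⁻¹ =
        xx (shi m ω) κ * (a * xx (shi m ω) κ * a) := by
      have ha : (a : P) * a = 1 := S_aa
      have e1 : a * (xx (shi m ω) κ' * a) * a = a * xx (shi m ω) κ' := by
        rw [mul_assoc, mul_assoc, ha, mul_one]
      rw [e1, mul_inv_rev, J_a_inv, J_xx_inv, J_xx_inv]
      calc xx (shi m ω) κ * (a * xx (shi m ω) κ') * xx (shi m ω) κ * (xx (shi m ω) κ' * a) =
          xx (shi m ω) κ * a * (xx (shi m ω) κ' * xx (shi m ω) κ) * xx (shi m ω) κ' * a := by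
            simp only [mul_assoc]
        _ = xx (shi m ω) κ * a * (xx (shi m ω) κ * (xx (shi m ω) κ' * xx (shi m ω) κ')) * a := by
            rw [J_xx_comm (shi m ω) κ' κ]
            simp only [mul_assoc]
        _ = _ := by
          rw [xx_sq, mul_one]
          simp only [mul_assoc]
    rw [e]
    exact base t ht

/-- a new long run begins at once -/
theorem step_0 {ω : Om} {m : ℕ} {x κ : V} {B : ℝ} (hm : 1 ≤ m) (hx : kil (ω (m - 1)) = x)
    (h : St ω m (fun g => g = xx (shi m ω) x) B) :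
    Ex ω m (Pl (shi m ω) x κ 0 * Pl (shi m ω) x κ 4) (4 * B + 1700 * lam ^ m) := by
  have hj := JC_P20 (shi m ω) x κ
  have hj2 := JC_T2 (shi m ω) x
  rw [← hx] at hj hj2
  have hh := half_of_JC hm hj
  have hh2 := half_of_JC hm hj2
  rw [hx] at hh hh2
  have h1 : Ex ω (m + 0) (xx (shi m ω) x * (Pl (shi m ω) x κ 2 * Pl (shi m ω) x κ 0) *
      (xx (shi m ω) x)⁻¹ * (Pl (shi m ω) x κ 2 * Pl (shi m ω) x κ 0)⁻¹)
      (2 ^ 0 * (2 * (2 * B + 2 * ((36 * (8 : ℕ) + 15) * lam ^ m)))) := by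
    apply Ex_of_Pc
    intro π t ht
    rw [List.length_eq_zero_iff] at ht
    subst ht
    refine Pc_of_sec h (k := xx (shi m ω) x) ?_ ?_ hh π
    · intro g hg
      subst hg
      exact ⟨fun _ => _, secAt_zero _, rfl⟩
    · refine secAt_congr (secAt_zero _) ?_
      intro u hu
      rw [List.length_eq_zero_iff] at hu
      subst hu
      simp
  rw [add_zero, lampX] at h1
  have h2 := Ex_conj h1 hh2
  rw [lampS] at h2
  refine Ex_mono h2 ?_
  have := lam_pow_pos m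
  norm_num
  nlinarith

/-- a new long run begins after one more letter -/
theorem step_1 {ω : Om} {m N : ℕ} {κ x κB : V} {B : ℝ} (hm : 1 ≤ m)
    (hκ : kil (ω (m - 1)) = κ) (hx : kil (ω m) = x) (hne : κ ≠ x)
    (hB0 : kil (ω (m + 1)) = κB) (hB1 : kil (ω (m + 2)) = κB) (hxB : x ≠ κB)
    (hJ : JR ω m 1 8 N)
    (h : St ω m (fun g => g = xx (shi m ω) κ) B) :
    Ex ω (m + 1) (Pl (shi (m + 1) ω) x κB 0 * Pl (shi (m + 1) ω) x κB 4)
      (8 * B + (1000 * N + 2000) * lam ^ (m + 1)) := by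
  have hk : (shi m ω) 0 = ω m := by simp [shi]
  have hsh : sh (shi m ω) = shi (m + 1) ω := sh_shi m ω
  have hs : Sec (xx (shi m ω) κ) a (xx (shi (m + 1) ω) κ) := by
    have := sec_xx (shi m ω) κ
    rwa [hk, hx, if_neg hne, hsh] at this
  have hsx : Sec (xx (shi m ω) x) 1 (xx (shi (m + 1) ω) x) := by
    have := sec_xx (shi m ω) x
    rwa [hk, hx, if_pos rfl, hsh] at this
  have e10 : m + 1 - 1 = m := by omega
  -- the state with section `κ` at `0`
  have hst0 : St ω m (fun g => ∃ G : List Bool → P, SecAt 1 G g ∧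
      G [false] = xx (shi (m + 1) ω) κ) (B + 2 * (7 * lam ^ m)) := by
    refine St_conj h (tw_κa ω m x (Or.inr (by rw [hκ]; exact Ne.symm hne))) ?_ ?_
    · intro g hg
      subst hg
      have e : xx (shi m ω) x * a * xx (shi m ω) κ * (xx (shi m ω) x * a)⁻¹ =
          xx (shi m ω) x * (a * xx (shi m ω) κ * a) * xx (shi m ω) x := by
        rw [mul_inv_rev, J_a_inv, J_xx_inv]
        simp only [mul_assoc]
      rw [e]
      refine ⟨_, sec_secAt ((hsx.mul hs.conj).mul hsx), ?_⟩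
      simp
    · intro g hg
      subst hg
      have e : a * (xx (shi m ω) x * a) * a * xx (shi m ω) κ *
          (a * (xx (shi m ω) x * a) * a)⁻¹ = a * xx (shi m ω) κ * a := by
        have ha : (a : P) * a = 1 := S_aa
        have e1 : a * (xx (shi m ω) x * a) * a = a * xx (shi m ω) x := by
          rw [mul_assoc, mul_assoc, ha, mul_one]
        rw [e1, mul_inv_rev, J_a_inv, J_xx_inv]
        calc a * xx (shi m ω) x * xx (shi m ω) κ * (xx (shi m ω) x * a) =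
            a * (xx (shi m ω) x * xx (shi m ω) κ) * xx (shi m ω) x * a := by
              simp only [mul_assoc]
          _ = a * (xx (shi m ω) κ * (xx (shi m ω) x * xx (shi m ω) x)) * a := by
              rw [J_xx_comm (shi m ω) x κ]
              simp only [mul_assoc]
          _ = _ := by rw [xx_sq, mul_one]
      rw [e]
      refine ⟨_, sec_secAt hs.conj, ?_⟩
      simp
  have hst1 : St ω m (fun g => ∃ G : List Bool → P, SecAt 1 G g ∧
      G [true] = xx (shi (m + 1) ω) κ) (B + 2 * (7 * lam ^ m)) := by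
    refine St_mono h ?_ ?_
    · intro g hg
      subst hg
      refine ⟨_, sec_secAt hs, ?_⟩
      simp
    · have := lam_pow_pos m
      linarith
  -- the commutator with an element of size at most 8
  have key : ∀ hh : P, JC (shi (m + 1) ω) x hh 8 →
      Ex ω (m + 1) (xx (shi (m + 1) ω) κ * hh * (xx (shi (m + 1) ω) κ)⁻¹ * hh⁻¹)
      (2 ^ 1 * (2 * (2 * (B + 2 * (7 * lam ^ m)) + 2 * ((36 * N + 15) * lam ^ m)))) := by
    intro hh hJC
    apply Ex_of_Pc
    intro π t ht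
    have hJC' : JC (shi (m + 1) ω) (kil (ω (m + 1 - 1))) hh 8 := by
      rw [e10, hx]
      exact hJC
    obtain ⟨d, hd, hds⟩ := JR_at hJ hJC' t
    have hhalf := half_of_JC hm hd
    obtain ⟨y, rfl⟩ := List.length_eq_one_iff.1 ht
    cases y
    · exact Pc_of_sec hst0 (fun _ h => h) hds hhalf π
    · exact Pc_of_sec hst1 (fun _ h => h) hds hhalf π
  have hk0 : kil ((shi (m + 1) ω) 0) = κB := by
    simp only [shi, zero_add]
    exact hB0
  have hk1 : kil ((shi (m + 1) ω) 1) = κB := by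
    have : (shi (m + 1) ω) 1 = ω (m + 2) := by
      simp only [shi]
      congr 1
      omega
    rw [this]
    exact hB1
  have hpos := lam_pow_pos m
  have hle : lam ^ m ≤ lam ^ (m + 1) := lam_pow_mono (Nat.le_succ m)
  have hN : (0 : ℝ) ≤ N := by positivity
  by_cases hκB : κ = κB
  · have h1 := key _ (JC_mono (JC_T4 (shi (m + 1) ω) x) (by norm_num))
    rw [hκB, lampK] at h1
    refine Ex_mono h1 ?_
    have h2 : (N : ℝ) * lam ^ m ≤ N * lam ^ (m + 1) := by gcongr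
    norm_num
    nlinarith
  · have h1 := key _ (JC_P20 (shi (m + 1) ω) x κB)
    rw [lampT hk0 hk1 hxB hne hκB] at h1
    have hj2 := JC_T2 (shi (m + 1) ω) x
    have hj2' : JC (shi (m + 1) ω) (kil (ω (m + 1 - 1))) (Tz (shi (m + 1) ω) x ^ (2 : ℤ)) 2 := by
      rw [e10, hx]
      exact hj2
    have h2 := Ex_conj h1 (half_of_JC (by omega) hj2')
    rw [lampS] at h2
    refine Ex_mono h2 ?_
    have h3 : (N : ℝ) * lam ^ m ≤ N * lam ^ (m + 1) := by gcongr
    norm_num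
    nlinarith

end Pool.Agent.H342_Full
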