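import Pool.Agent.H342_Full.SecAt
import Pool.Agent.H342_Gap.EllLe

/-!
Lifts of elements of `G_(σ^m ω)` to elements of `G_ω` of length `O(λ^m)`.
-/

set_option autoImplicit false

namespace Pool.Agent.H342_Full

open Pool.Agent.Results.MP_03d093_al.SphereBall Pool.Agent.H776R2.Grig Pool.Agent.H776R2.Om
open Pool.Agent.H342_Gap

theorem one_le_lam : (1 : ℝ) ≤ lam := by
  have := lam_gt
  linarith

theorem one_le_lam_pow (k : ℕ) : (1 : ℝ) ≤ lam ^ k := one_le_pow₀ one_le_lam

theorem lam_pow_pos (k : ℕ) : (0 : ℝ) < lam ^ k := pow_pos lam_pos k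

theorem lam_pow_mono {i j : ℕ} (h : i ≤ j) : lam ^ i ≤ lam ^ j := pow_le_pow_right₀ one_le_lam h

/-- a word of length at most `K` whose section at `u` is `g` if `u` has an even number of zeros and
`a g a` otherwise -/
def Tw (ω : Om) (m : ℕ) (g : P) (K : ℝ) : Prop :=
  ∃ w : List Lt, (w.length : ℝ) ≤ K ∧
    SecAt m (fun u => if zp u then a * g * a else g) (evo ω w)

/-- words of length at most `K` whose section at `u` is `g` or `1` according to the parity of the
number of zeros of `u` -/
def Half (ω : Om) (m : ℕ) (g : P) (K : ℝ) : Prop :=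
  ∀ π : Bool, ∃ w : List Lt, (w.length : ℝ) ≤ K ∧
    SecAt m (fun u => if zp u = π then g else 1) (evo ω w)

theorem aga (g : P) : a * (a * g * a) * a = g := by
  have h : (a : P) * a = 1 := S_aa
  calc a * (a * g * a) * a = (a * a) * g * (a * a) := by simp only [mul_assoc]
    _ = g := by rw [h]; simp

theorem split_last {u : List Bool} {m : ℕ} (hu : u.length = m + 1) :
    ∃ (v : List Bool) (x : Bool), v.length = m ∧ u = v ++ [x] := by
  refine ⟨u.take m, u[m], ?_, ?_⟩
  · rw [List.length_take]
    omega
  · rw [List.take_append_getElem, List.take_of_length_le (by omega)]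

theorem tw_iter (ω : Om) (m : ℕ) : ∀ (v : List V) (e : Bool),
    (m = 0 ∨ (Even (v.count (kil (ω (m - 1)))) ↔ e = false)) →
    SecAt m (fun u => if zp u then a * (evo (shi m ω) (U v) * pa e) * a
      else evo (shi m ω) (U v) * pa e) (evo ω (U (thi ω m v)) * pa e) := by
  induction m with
  | zero =>
    intro v e _
    refine secAt_congr (secAt_zero _) ?_
    intro u hu
    rw [List.length_eq_zero_iff] at hu
    subst hu
    rfl
  | succ m ih =>
    intro v e he
    have he' : Even (v.count (kil (ω m))) ↔ e = false := by
      rcases he with h | h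
      · omega
      · simpa using h
    have hi : (shi m ω) 0 = ω m := by simp [shi]
    have hs := S_sec (shi m ω) v e (by rw [hi]; exact he')
    rw [sh_shi, hi] at hs
    have hpar : m = 0 ∨ (Even ((tho (kil (ω m)) v).count (kil (ω (m - 1)))) ↔ e = false) := by
      right
      rw [count_tho]
      split_ifs with hx
      · exact he'
      · rw [Nat.even_add]
        simp [he']
    have h1 := ih _ e hpar
    generalize hF : evo (shi m ω) (U (tho (kil (ω m)) v)) * pa e = F' at *
    generalize hG : evo (shi (m + 1) ω) (U v) * pa e = F at *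
    have s0 := sec_secAt hs
    have s1 := sec_secAt hs.conj
    have h2 := secAt_comp (k := 1) (H := fun u y => if zp u then
      (if y.headD false then a * F * a else F) else (if y.headD false then F else a * F * a)) h1 (by
        intro u _
        cases hz : zp u
        · simpa [hz] using s0
        · simpa [hz] using s1)
    have e1 : thi ω (m + 1) v = thi ω m (tho (kil (ω m)) v) := rfl
    rw [e1]
    refine secAt_congr h2 ?_
    intro u hu
    obtain ⟨v', x, hv', rfl⟩ := split_last hu
    have t1 : (v' ++ [x]).take m = v' := by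
      rw [List.take_append_of_le_length (by omega), List.take_of_length_le (by omega)]
    have t2 : (v' ++ [x]).drop m = [x] := by
      rw [← hv', List.drop_left]
    simp only [t1, t2, zp_append]
    cases zp v' <;> cases x <;> simp [zp]

theorem U_thi_len (ω : Om) (m : ℕ) (v : List V) :
    ((U (thi ω m v)).length : ℝ) ≤ 6 * v.length * lam ^ m := by
  rw [S_U_length]
  have h1 : ((thi ω m v).length : ℝ) ≤ v.length * ell ω m := by
    exact_mod_cast length_thi_le ω m v
  have h2 := ell_le ω m
  push_cast
  calc 2 * ((thi ω m v).length : ℝ) ≤ 2 * (v.length * ell ω m) := by linarith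
    _ ≤ 2 * (v.length * (3 * lam ^ m)) := by gcongr
    _ = 6 * v.length * lam ^ m := by ring

theorem tw_U (ω : Om) (m : ℕ) (v : List V) (e : Bool)
    (h : m = 0 ∨ (Even (v.count (kil (ω (m - 1)))) ↔ e = false)) :
    Tw ω m (evo (shi m ω) (U v) * pa e) ((6 * v.length + 1) * lam ^ m) := by
  have h1 := tw_iter ω m v e h
  have h2 := U_thi_len ω m v
  have h3 := one_le_lam_pow m
  cases e
  · refine ⟨U (thi ω m v), ?_, ?_⟩
    · nlinarith
    · simpa [pa] using h1
  · refine ⟨U (thi ω m v) ++ [Lt.A], ?_, ?_⟩
    · rw [List.length_append]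
      push_cast
      simp only [List.length_cons, List.length_nil]
      push_cast
      nlinarith
    · rw [evo_append, evo_cons, evo_nil, mul_one]
      simpa [pa, gno] using h1

theorem tw_root_conj {ω : Om} {m : ℕ} {g : P} {K : ℝ} (hm : 1 ≤ m) (h : Tw ω m g K) :
    Tw ω m (a * g * a) (K + 2) := by
  obtain ⟨w, hw, hs⟩ := h
  refine ⟨Lt.A :: (w ++ [Lt.A]), ?_, ?_⟩
  · simp only [List.length_cons, List.length_append, List.length_nil]
    push_cast
    linarith
  · have e1 : evo ω (Lt.A :: (w ++ [Lt.A])) = a * evo ω w * a := by
      rw [evo_cons, evo_append, evo_cons, evo_nil, mul_one, ← mul_assoc]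
      rfl
    rw [e1]
    refine secAt_congr (secAt_root_conj hm hs) ?_
    intro u hu
    have hz := zp_aFun u (by omega)
    simp only [hz]
    cases zp u
    · simp
    · simp [aga]

/-- lifts of elements given by words with even numbers of all letters -/
theorem tw_EvC (ω : Om) (n : ℕ) (W : List Lt) (hW : EvC W) :
    Tw ω n (evo (shi n ω) W) ((6 * W.length + 3) * lam ^ n) := by
  have hl := one_le_lam_pow n
  rcases Nat.eq_zero_or_pos n with rfl | hn
  · refine ⟨W, ?_, ?_⟩
    · rw [pow_zero, mul_one]
      have : (0 : ℝ) ≤ W.length := by positivity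
      linarith
    · refine secAt_congr (secAt_zero _) ?_
      intro u hu
      rw [List.length_eq_zero_iff] at hu
      subst hu
      rfl
  · obtain ⟨e0, e1, v, hev, hvl, -, hyz, hA⟩ := normal_formo (shi n ω) (fun _ => 1)
      ⟨fun _ => one_pos, fun _ _ _ _ _ _ => by norm_num⟩ W
    have hyz' : ∀ y z : V, y ≠ z → Even (v.count y + v.count z) := by
      intro y z hne
      exact (hyz y z hne).2 ((hW _).add (hW _))
    have hA' : Even (v.length + e0.toNat + e1.toNat) := hA.2 (hW _)
    have hlen : ∀ x : V, Even v.length ↔ Even (v.count x) := by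
      have h1 := S_count v
      have hbc := hyz' .b .c (by decide)
      have hbd := hyz' .b .d (by decide)
      have hcd := hyz' .c .d (by decide)
      intro x
      rw [h1]
      cases x <;> rw [Nat.even_iff] at * <;> rw [Nat.even_iff] <;> omega
    have hpar : ∀ x : V, Even (v.count x) ↔ xor e0 e1 = false := by
      intro x
      rw [← hlen x]
      cases e0 <;> cases e1 <;>
        simp only [Bool.toNat_false, Bool.toNat_true, add_zero, Nat.even_add_one] at hA' <;>
        simp [hA'] <;> simpa using hA'
    have hconj : evo (shi n ω) (U v) * pa (xor e0 e1) = pa e0 * evo (shi n ω) W * pa e0 := by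
      rw [hev]
      have h1 : pa e0 * pa e0 = 1 := by rw [S_pa_mul]; simp [pa]
      have h2 : pa e1 * pa e0 = pa (xor e0 e1) := by rw [S_pa_mul, Bool.xor_comm]
      calc evo (shi n ω) (U v) * pa (xor e0 e1) =
            (pa e0 * pa e0) * evo (shi n ω) (U v) * (pa e1 * pa e0) := by
            rw [h1, h2, one_mul]
        _ = _ := by simp only [mul_assoc]
    have h3 := tw_U ω n v (xor e0 e1) (Or.inr (hpar _))
    rw [hconj] at h3
    have hvl' : (v.length : ℝ) ≤ W.length := by exact_mod_cast hvl
    have hb : (6 * (v.length : ℝ) + 1) * lam ^ n ≤ (6 * W.length + 1) * lam ^ n := by gcongr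
    cases e0
    · obtain ⟨w, hw, hs⟩ := h3
      refine ⟨w, ?_, ?_⟩
      · nlinarith
      · simpa [pa] using hs
    · obtain ⟨w, hw, hs⟩ := tw_root_conj hn h3
      refine ⟨w, ?_, ?_⟩
      · nlinarith
      · have : a * (pa true * evo (shi n ω) W * pa true) * a = evo (shi n ω) W := by
          simp only [pa, if_true]
          exact aga _
        rw [this] at hs
        exact hs

theorem half_of_sec {ω : Om} {n : ℕ} {W : List Lt} (hW : EvC W) {g : P}
    (hs : Sec (evo (shi n ω) W) g 1) :
    Half ω (n + 1) g ((6 * W.length + 15) * lam ^ n) := by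
  have hl := one_le_lam_pow n
  have key : ∀ (G : P) (K : ℝ) (ρ : Bool), Tw ω n G K →
      (if ρ then Sec G g 1 else Sec G 1 g) → ∃ w : List Lt, (w.length : ℝ) ≤ K ∧
      SecAt (n + 1) (fun u => if zp u = ρ then g else 1) (evo ω w) := by
    rintro G K ρ ⟨w, hw, hsw⟩ hG
    refine ⟨w, hw, ?_⟩
    cases ρ
    · rw [if_neg (by decide)] at hG
      have s0 := sec_secAt hG
      have s1 := sec_secAt hG.conj
      have h2 := secAt_comp (k := 1) (H := fun u y => if zp u then
        (if y.headD false then 1 else g) else (if y.headD false then g else 1)) hsw (by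
          intro u _
          cases hz : zp u
          · simpa [hz] using s0
          · simpa [hz] using s1)
      refine secAt_congr h2 ?_
      intro u hu
      obtain ⟨v', x, hv', rfl⟩ := split_last hu
      have t1 : (v' ++ [x]).take n = v' := by
        rw [List.take_append_of_le_length (by omega), List.take_of_length_le (by omega)]
      have t2 : (v' ++ [x]).drop n = [x] := by
        rw [← hv', List.drop_left]
      simp only [t1, t2, zp_append]
      cases zp v' <;> cases x <;> simp [zp]
    · rw [if_pos rfl] at hG
      have s0 := sec_secAt hG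
      have s1 := sec_secAt hG.conj
      have h2 := secAt_comp (k := 1) (H := fun u y => if zp u then
        (if y.headD false then g else 1) else (if y.headD false then 1 else g)) hsw (by
          intro u _
          cases hz : zp u
          · simpa [hz] using s0
          · simpa [hz] using s1)
      refine secAt_congr h2 ?_
      intro u hu
      obtain ⟨v', x, hv', rfl⟩ := split_last hu
      have t1 : (v' ++ [x]).take n = v' := by
        rw [List.take_append_of_le_length (by omega), List.take_of_length_le (by omega)]
      have t2 : (v' ++ [x]).drop n = [x] := by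
        rw [← hv', List.drop_left]
      simp only [t1, t2, zp_append]
      cases zp v' <;> cases x <;> simp [zp]
  intro π
  cases π
  · -- even vertices
    have hW' : EvC (Lt.A :: (W ++ [Lt.A])) := by
      intro s
      rw [List.count_cons, List.count_append]
      have h1 := hW s
      cases s <;> simp [List.count_cons] <;>
        first | exact h1 | (rw [Nat.even_iff] at *; omega)
    have e1 : evo (shi n ω) (Lt.A :: (W ++ [Lt.A])) = a * evo (shi n ω) W * a := by
      rw [evo_cons, evo_append, evo_cons, evo_nil, mul_one, ← mul_assoc]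
      rfl
    have ht := tw_EvC ω n _ hW'
    rw [e1] at ht
    obtain ⟨w, hw, hsw⟩ := key _ _ false ht (by
      rw [if_neg (by decide)]
      exact hs.conj)
    refine ⟨w, ?_, hsw⟩
    refine hw.trans ?_
    simp only [List.length_cons, List.length_append, List.length_nil]
    push_cast
    nlinarith
  · obtain ⟨w, hw, hsw⟩ := key _ _ true (tw_EvC ω n W hW) (by
      rw [if_pos rfl]
      exact hs)
    refine ⟨w, ?_, hsw⟩
    nlinarith

end Pool.Agent.H342_Full
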